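import Pool.Agent.Helper729.SAF.Base

set_option autoImplicit false

namespace Helper729.SAF.A1a

open Helper729.SAF

variable {K : Type} [Field K] (c : ℕ → K) (n : ℕ)

theorem TT_mono_succ (i : ℕ) : TT c n i ≤ TT c n (i + 1) := le_sup_left

theorem TT_mono {i j : ℕ} (h : i ≤ j) : TT c n i ≤ TT c n j := by
  induction j, h using Nat.le_induction with
  | base => exact le_rfl
  | succ j _ ih => exact ih.trans (TT_mono_succ c n j)

/-- definition of the next level -/
theorem mul_mem_succ (i : ℕ) {g : MvPolynomial (Fin 2) K} (hg : g ∈ TT c n i) :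
    ySeq c (n - i) * g ∈ TT c n (i + 1) :=
  Submodule.mem_sup_right (Submodule.mem_map.mpr ⟨g, hg, rfl⟩)

theorem mem_succ_iff (i : ℕ) (g : MvPolynomial (Fin 2) K) :
    g ∈ TT c n (i + 1) ↔ ∃ g1 ∈ TT c n i, ∃ g2 ∈ TT c n i, g = g1 + ySeq c (n - i) * g2 := by
  constructor
  · intro h
    obtain ⟨g1, h1, w, hw, rfl⟩ := Submodule.mem_sup.mp h
    obtain ⟨g2, h2, rfl⟩ := Submodule.mem_map.mp hw
    exact ⟨g1, h1, g2, h2, rfl⟩
  · rintro ⟨g1, h1, g2, h2, rfl⟩
    exact Submodule.add_mem _ (TT_mono_succ c n i h1) (mul_mem_succ c n i h2)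

theorem mul_top (i : ℕ) {g : MvPolynomial (Fin 2) K} (hg : g ∈ TT c n i) :
    ySeq c (n + 1) * g ∈ TT c n i := by
  induction i generalizing g with
  | zero =>
    have h0 : TT c n 0 = Submodule.span K (Set.range fun b : ℕ => (ySeq c (n + 1)) ^ b) := rfl
    rw [h0] at hg ⊢
    induction hg using Submodule.span_induction with
    | mem x hx =>
      obtain ⟨b, rfl⟩ := hx
      refine Submodule.subset_span ⟨b + 1, ?_⟩
      simp only [pow_succ']
    | zero => simp
    | add x y _ _ hx hy => rw [mul_add]; exact Submodule.add_mem _ hx hy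
    | smul a x _ hx => rw [mul_smul_comm]; exact Submodule.smul_mem _ _ hx
  | succ i ih =>
    rw [mem_succ_iff] at hg ⊢
    obtain ⟨g1, h1, g2, h2, rfl⟩ := hg
    exact ⟨_, ih h1, _, ih h2, by ring⟩

/-- `y_j T_j ⊂ T_{j-1}` -/
theorem mul_diag (hc : ∀ n, c n ≠ 0) (i : ℕ) (hi1 : 1 ≤ i) (hin : i ≤ n)
    {g : MvPolynomial (Fin 2) K} (hg : g ∈ TT c n i) :
    ySeq c (n - i + 1) * g ∈ TT c n (i + 1) := by
  induction i, hi1 using Nat.le_induction generalizing g with
  | base =>
    obtain ⟨g1, h1, g2, h2, rfl⟩ := (mem_succ_iff c n 0 g).mp hg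
    have e1 : n - 1 + 1 = n := by omega
    have e0 : n - 0 = n := by omega
    rw [e0] at *
    rw [e1]
    -- y n * (g1 + y n * g2)
    have hrec : ySeq c (n + 1) = MvPolynomial.C (c (n - 1)) * (ySeq c n) ^ 2 - ySeq c (n - 1) := by
      have : n + 1 = (n - 1) + 2 := by omega
      rw [this]
      have e2 : n - 1 + 1 = n := by omega
      show MvPolynomial.C (c (n - 1)) * (ySeq c (n - 1 + 1)) ^ 2 - ySeq c (n - 1) = _
      rw [e2]
    have hsq : (ySeq c n) ^ 2 = (c (n - 1))⁻¹ • (ySeq c (n + 1) + ySeq c (n - 1)) := by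
      rw [hrec, sub_add_cancel, ← MvPolynomial.C_mul', ← mul_assoc, ← map_mul,
        inv_mul_cancel₀ (hc _), map_one, one_mul]
    have e3 : ySeq c n * (g1 + ySeq c n * g2) = ySeq c n * g1 +
        ((c (n - 1))⁻¹ • (ySeq c (n + 1) * g2) + (c (n - 1))⁻¹ • (ySeq c (n - 1) * g2)) := by
      have : ySeq c n * (g1 + ySeq c n * g2) = ySeq c n * g1 + (ySeq c n) ^ 2 * g2 := by ring
      rw [this, hsq, smul_mul_assoc, add_mul, smul_add]
    rw [e3]
    refine Submodule.add_mem _ ?_ (Submodule.add_mem _ (Submodule.smul_mem _ _ ?_)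
      (Submodule.smul_mem _ _ ?_))
    · have := mul_mem_succ c n 0 h1
      rw [e0] at this
      exact TT_mono_succ c n 1 this
    · exact TT_mono c n (by omega : 0 ≤ 2) (mul_top c n 0 h2)
    · exact mul_mem_succ c n 1 (TT_mono_succ c n 0 h2)
  | succ i hi ih =>
    obtain ⟨g1, h1, g2, h2, rfl⟩ := (mem_succ_iff c n i g).mp hg
    have e1 : n - (i + 1) + 1 = n - i := by omega
    rw [e1]
    have hrec : ySeq c (n - i + 1) =
        MvPolynomial.C (c (n - (i + 1))) * (ySeq c (n - i)) ^ 2 - ySeq c (n - (i + 1)) := by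
      have : n - i + 1 = (n - (i + 1)) + 2 := by omega
      rw [this]
      show MvPolynomial.C (c (n - (i + 1))) * (ySeq c (n - (i + 1) + 1)) ^ 2 -
        ySeq c (n - (i + 1)) = _
      rw [e1]
    have hsq : (ySeq c (n - i)) ^ 2 =
        (c (n - (i + 1)))⁻¹ • (ySeq c (n - i + 1) + ySeq c (n - (i + 1))) := by
      rw [hrec, sub_add_cancel, ← MvPolynomial.C_mul', ← mul_assoc, ← map_mul,
        inv_mul_cancel₀ (hc _), map_one, one_mul]
    have e3 : ySeq c (n - i) * (g1 + ySeq c (n - i) * g2) = ySeq c (n - i) * g1 +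
        ((c (n - (i + 1)))⁻¹ • (ySeq c (n - i + 1) * g2) +
          (c (n - (i + 1)))⁻¹ • (ySeq c (n - (i + 1)) * g2)) := by
      have : ySeq c (n - i) * (g1 + ySeq c (n - i) * g2) =
        ySeq c (n - i) * g1 + (ySeq c (n - i)) ^ 2 * g2 := by ring
      rw [this, hsq, smul_mul_assoc, add_mul, smul_add]
    rw [e3]
    refine Submodule.add_mem _ ?_ (Submodule.add_mem _ (Submodule.smul_mem _ _ ?_)
      (Submodule.smul_mem _ _ ?_))
    · exact TT_mono_succ c n (i + 1) (mul_mem_succ c n i h1)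
    · exact TT_mono_succ c n (i + 1) (ih (by omega) h2)
    · exact mul_mem_succ c n (i + 1) (TT_mono_succ c n i h2)

/-- `y_{n-1} T_j ⊂ T_{j-1}` -/
theorem mul_pen (hc : ∀ n, c n ≠ 0) (i : ℕ) (hin : i ≤ n)
    {g : MvPolynomial (Fin 2) K} (hg : g ∈ TT c n i) :
    ySeq c n * g ∈ TT c n (i + 1) := by
  induction i generalizing g with
  | zero =>
    have := mul_mem_succ c n 0 hg
    rwa [Nat.sub_zero] at this
  | succ i ih =>
    obtain ⟨g1, h1, g2, h2, rfl⟩ := (mem_succ_iff c n i g).mp hg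
    have e : ySeq c n * (g1 + ySeq c (n - i) * g2) =
        ySeq c n * g1 + ySeq c (n - (i + 1) + 1) * (ySeq c n * g2) := by
      have : n - (i + 1) + 1 = n - i := by omega
      rw [this]; ring
    rw [e]
    exact Submodule.add_mem _ (TT_mono_succ c n (i + 1) (ih (by omega) h1))
      (mul_diag c n hc (i + 1) (by omega) hin (ih (by omega) h2))

theorem aeval_mem_TT (hc : ∀ n, c n ≠ 0)
    (P : MvPolynomial (Fin 2) K) (hn : P.degreeOf 0 ≤ n) :
    MvPolynomial.aeval ![ySeq c n, ySeq c (n + 1)] P ∈ TT c n n := by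
  have hmon : ∀ a b : ℕ, a ≤ n → (ySeq c n) ^ a * (ySeq c (n + 1)) ^ b ∈ TT c n a := by
    intro a b
    induction a with
    | zero =>
      intro _
      rw [pow_zero, one_mul]
      exact Submodule.subset_span ⟨b, rfl⟩
    | succ a ih =>
      intro ha
      have := mul_pen c n hc a (by omega) (ih (by omega))
      rw [pow_succ', mul_assoc]
      exact this
  rw [MvPolynomial.aeval_def, MvPolynomial.eval₂_eq']
  refine Submodule.sum_mem _ fun s hs => ?_
  rw [Fin.prod_univ_two, MvPolynomial.algebraMap_eq, MvPolynomial.C_mul']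
  refine Submodule.smul_mem _ _ ?_
  have hs0 : s 0 ≤ n := (MvPolynomial.monomial_le_degreeOf 0 hs).trans hn
  exact TT_mono c n hs0 (hmon (s 0) (s 1) hs0)

end Helper729.SAF.A1a
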