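import Pool.Agent.Helper729.SAF.Base

set_option autoImplicit false

namespace Helper729.SAF






section aux

variable {A : Type} [CommRing A]

/-- total degree less than `m` -/
def DD (m : ℕ) (H : MvPolynomial (Fin 2) A) : Prop := ∀ s ∈ H.support, s 0 + s 1 < m

theorem DD.add {m : ℕ} {H H' : MvPolynomial (Fin 2) A} (h : DD m H) (h' : DD m H') :
    DD m (H + H') := by
  classical
  intro s hs
  rcases Finset.mem_union.1 (MvPolynomial.support_add hs) with h1 | h1
  · exact h s h1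
  · exact h' s h1

theorem DD.neg {m : ℕ} {H : MvPolynomial (Fin 2) A} (h : DD m H) : DD m (-H) := by
  intro s hs
  rw [MvPolynomial.support_neg] at hs
  exact h s hs

theorem DD.sub {m : ℕ} {H H' : MvPolynomial (Fin 2) A} (h : DD m H) (h' : DD m H') :
    DD m (H - H') := by
  rw [sub_eq_add_neg]
  exact h.add h'.neg

theorem DD.mono {m m' : ℕ} (hm : m ≤ m') {H : MvPolynomial (Fin 2) A} (h : DD m H) : DD m' H :=
  fun s hs => lt_of_lt_of_le (h s hs) hm

theorem DD.zero (m : ℕ) : DD m (0 : MvPolynomial (Fin 2) A) := by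
  intro s hs
  simp at hs

theorem DD.mul {m m' : ℕ} {H H' : MvPolynomial (Fin 2) A} (h : DD m H) (h' : DD (m' + 1) H') :
    DD (m + m') (H * H') := by
  classical
  intro s hs
  obtain ⟨a, ha, b, hb, rfl⟩ := Finset.mem_add.1 (MvPolynomial.support_mul H H' hs)
  have h1 := h a ha
  have h2 := h' b hb
  simp only [Finsupp.add_apply]
  omega

theorem DD.sum {m : ℕ} {ι : Type} (t : Finset ι) (f : ι → MvPolynomial (Fin 2) A)
    (h : ∀ i ∈ t, DD m (f i)) : DD m (∑ i ∈ t, f i) := by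
  classical
  induction t using Finset.induction_on with
  | empty => simpa using DD.zero m
  | insert a t ha ih =>
    rw [Finset.sum_insert ha]
    exact (h a (Finset.mem_insert_self a t)).add
      (ih fun i hi => h i (Finset.mem_insert_of_mem hi))

theorem DD.C (a : A) : DD 1 (MvPolynomial.C a : MvPolynomial (Fin 2) A) := by
  classical
  intro s hs
  have h1 := MvPolynomial.support_monomial_subset (s := (0 : Fin 2 →₀ ℕ)) (a := a) hs
  rw [Finset.mem_singleton] at h1
  subst h1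
  simp

theorem DD.mon (κ : A) (m : ℕ) : DD (m + 1) (MvPolynomial.C κ * MvPolynomial.X 1 ^ m :
    MvPolynomial (Fin 2) A) := by
  classical
  intro s hs
  rw [MvPolynomial.C_mul_X_pow_eq_monomial] at hs
  have h1 := MvPolynomial.support_monomial_subset hs
  rw [Finset.mem_singleton] at h1
  subst h1
  simp

theorem DD.X0 : DD 2 (MvPolynomial.X 0 : MvPolynomial (Fin 2) A) := by
  classical
  intro s hs
  have h1 := MvPolynomial.support_monomial_subset hs
  rw [Finset.mem_singleton] at h1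
  subst h1
  simp

theorem Pure.dd {m : ℕ} {κ : A} {H : MvPolynomial (Fin 2) A} (h : Pure m κ H) : DD (m + 1) H := by
  have h1 : DD m (H - MvPolynomial.C κ * MvPolynomial.X 1 ^ m) := h.2
  have h2 := (h1.mono (Nat.le_succ m)).add (DD.mon κ m)
  rwa [sub_add_cancel] at h2

theorem Pure.add_low {m : ℕ} {κ : A} {H H' : MvPolynomial (Fin 2) A} (h : Pure m κ H)
    (h' : DD m H') : Pure m κ (H + H') := by
  refine ⟨h.1, ?_⟩
  have h1 : DD m (H - MvPolynomial.C κ * MvPolynomial.X 1 ^ m) := h.2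
  have h2 := h1.add h'
  have e : H + H' - MvPolynomial.C κ * MvPolynomial.X 1 ^ m =
      H - MvPolynomial.C κ * MvPolynomial.X 1 ^ m + H' := by ring
  rw [e]
  exact h2

theorem Pure.mul [IsDomain A] {m m' : ℕ} {κ κ' : A} {H H' : MvPolynomial (Fin 2) A}
    (h : Pure m κ H) (h' : Pure m' κ' H') : Pure (m + m') (κ * κ') (H * H') := by
  refine ⟨mul_ne_zero h.1 h'.1, ?_⟩
  have h1 : DD m (H - MvPolynomial.C κ * MvPolynomial.X 1 ^ m) := h.2
  have h1' : DD m' (H' - MvPolynomial.C κ' * MvPolynomial.X 1 ^ m') := h'.2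
  have h2 := h1.mul h'.dd
  have h3 := h1'.mul (DD.mon κ m)
  rw [add_comm m' m] at h3
  have e : H * H' - MvPolynomial.C (κ * κ') * MvPolynomial.X 1 ^ (m + m') =
      (H - MvPolynomial.C κ * MvPolynomial.X 1 ^ m) * H' +
      (H' - MvPolynomial.C κ' * MvPolynomial.X 1 ^ m') *
        (MvPolynomial.C κ * MvPolynomial.X 1 ^ m) := by
    rw [MvPolynomial.C_mul, pow_add]; ring
  rw [e]
  exact h2.add h3

theorem Pure.cmul [IsDomain A] {m : ℕ} {κ a : A} (ha : a ≠ 0) {H : MvPolynomial (Fin 2) A}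
    (h : Pure m κ H) : Pure m (a * κ) (MvPolynomial.C a * H) := by
  refine ⟨mul_ne_zero ha h.1, ?_⟩
  have h1 : DD m (H - MvPolynomial.C κ * MvPolynomial.X 1 ^ m) := h.2
  have h2 := h1.mul (m' := 0) (DD.C a)
  rw [add_zero] at h2
  have e : MvPolynomial.C a * H - MvPolynomial.C (a * κ) * MvPolynomial.X 1 ^ m =
      (H - MvPolynomial.C κ * MvPolynomial.X 1 ^ m) * MvPolynomial.C a := by
    rw [MvPolynomial.C_mul]; ring
  rw [e]
  exact h2

theorem Pure.pow [IsDomain A] {m : ℕ} {κ : A} {H : MvPolynomial (Fin 2) A} (h : Pure m κ H)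
    (b : ℕ) : Pure (m * b) (κ ^ b) (H ^ b) := by
  induction b with
  | zero =>
    refine ⟨by simp, ?_⟩
    intro s hs
    simp at hs
  | succ b ih =>
    have := ih.mul h
    rw [pow_succ, pow_succ, Nat.mul_succ]
    exact this

theorem ySeq_pure [IsDomain A] (c : ℕ → A) (hc : ∀ n, c n ≠ 0) (j : ℕ) :
    (∃ κ, Pure (2 ^ j) κ (ySeq c (j + 1))) ∧ DD (2 ^ j + 1) (ySeq c j) := by
  induction j with
  | zero =>
    refine ⟨⟨1, one_ne_zero, ?_⟩, ?_⟩
    · intro s hs
      have : (ySeq c (0 + 1)) - MvPolynomial.C 1 * MvPolynomial.X 1 ^ (2 ^ 0) = 0 := by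
        simp [ySeq]
      rw [this] at hs
      simp at hs
    · show DD (2 ^ 0 + 1) (MvPolynomial.X 0)
      exact DD.X0
  | succ j ih =>
    obtain ⟨⟨κ, hκ⟩, hd⟩ := ih
    constructor
    · refine ⟨c j * κ ^ 2, ?_⟩
      show Pure (2 ^ (j + 1)) (c j * κ ^ 2)
        (MvPolynomial.C (c j) * (ySeq c (j + 1)) ^ 2 - ySeq c j)
      rw [sub_eq_add_neg]
      have h1 := (hκ.pow 2).cmul (hc j)
      rw [← pow_succ] at h1
      refine h1.add_low (DD.neg (hd.mono ?_))
      have := Nat.one_le_two_pow (n := j)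
      rw [pow_succ]; omega
    · refine hκ.dd.mono ?_
      rw [pow_succ]; omega

end aux

section aux2

variable {K : Type} [Field K]

theorem aeval_pure {m : ℕ} (hm : 0 < m) {κ : K} {y : MvPolynomial (Fin 2) K} (hy : Pure m κ y)
    (p : Polynomial K) : Polynomial.aeval y p = 0 ∨ ∃ (b : ℕ) (κ' : K),
      Pure (m * b) κ' (Polynomial.aeval y p) := by
  by_cases hp : p = 0
  · left; rw [hp, map_zero]
  · right
    set b := p.natDegree with hb
    refine ⟨b, p.leadingCoeff * κ ^ b, ?_⟩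
    rw [Polynomial.aeval_eq_sum_range, Finset.sum_range_succ, add_comm]
    have h1 := (hy.pow b).cmul (a := p.leadingCoeff) (Polynomial.leadingCoeff_ne_zero.2 hp)
    rw [MvPolynomial.C_mul', Polynomial.leadingCoeff] at h1
    refine Pure.add_low h1 ?_
    refine DD.sum _ _ fun i hi => ?_
    rw [Finset.mem_range] at hi
    rw [MvPolynomial.smul_eq_C_mul, mul_comm (MvPolynomial.C _)]
    have h2 := (hy.pow i).dd.mul (m' := 0) (DD.C (p.coeff i))
    refine h2.mono ?_
    have h3 : m * (i + 1) ≤ m * b := Nat.mul_le_mul_left m hi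
    rw [Nat.mul_succ] at h3
    omega

end aux2

theorem pure_of_mem_TT {K : Type} [Field K] (c : ℕ → K) (hc : ∀ n, c n ≠ 0) (n i : ℕ) (hi : i ≤ n)
    (g : MvPolynomial (Fin 2) K) (hg : g ∈ TT c n i) :
    g = 0 ∨ ∃ (m : ℕ) (κ : K), 2 ^ (n - i) ∣ m ∧ Pure m κ g := by
  obtain ⟨κ, hκ⟩ := (ySeq_pure c hc n).1
  induction i generalizing g with
  | zero =>
    have h1 : TT c n 0 ≤ (Polynomial.aeval (ySeq c (n + 1)) :
        Polynomial K →ₐ[K] MvPolynomial (Fin 2) K).toLinearMap.range := by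
      show Submodule.span K (Set.range fun b : ℕ => (ySeq c (n + 1)) ^ b) ≤ _
      rw [Submodule.span_le]
      rintro _ ⟨b, rfl⟩
      exact ⟨Polynomial.X ^ b, by simp⟩
    obtain ⟨p, rfl⟩ := h1 hg
    rcases aeval_pure (m := 2 ^ n) (by positivity) hκ p with h2 | ⟨b, κ', h2⟩
    · left; exact h2
    · right
      exact ⟨2 ^ n * b, κ', by rw [Nat.sub_zero]; exact Dvd.intro _ rfl, h2⟩
  | succ i ih =>
    have hg' : g ∈ TT c n i ⊔ (TT c n i).map (LinearMap.mulLeft K (ySeq c (n - i))) := hg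
    obtain ⟨g1, hg1, w, ⟨g2, hg2, rfl⟩, rfl⟩ := Submodule.mem_sup.1 hg'
    obtain ⟨e, he⟩ : ∃ e, n - i = e + 1 := ⟨n - i - 1, by omega⟩
    have he' : n - (i + 1) = e := by omega
    obtain ⟨κ1, hκ1⟩ := (ySeq_pure c hc e).1
    have hw : LinearMap.mulLeft K (ySeq c (n - i)) g2 = ySeq c (e + 1) * g2 := by
      rw [LinearMap.mulLeft_apply, he]
    rw [hw, he']
    have i1 := ih (by omega) g1 hg1
    have i2 := ih (by omega) g2 hg2
    rw [he] at i1 i2
    rcases i2 with h2 | ⟨m2, c2, d2, h2⟩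
    · rw [h2, mul_zero, add_zero]
      rcases i1 with h1 | ⟨m1, c1, d1, h1⟩
      · left; exact h1
      · right
        exact ⟨m1, c1, (pow_dvd_pow 2 (Nat.le_succ e)).trans d1, h1⟩
    · have h3 := hκ1.mul h2
      have d3 : 2 ^ e ∣ 2 ^ e + m2 := dvd_add dvd_rfl ((pow_dvd_pow 2 (Nat.le_succ e)).trans d2)
      right
      rcases i1 with h1 | ⟨m1, c1, d1, h1⟩
      · rw [h1, zero_add]
        exact ⟨_, _, d3, h3⟩
      · rcases lt_trichotomy m1 (2 ^ e + m2) with hlt | heq | hgt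
        · refine ⟨2 ^ e + m2, κ1 * c2, d3, ?_⟩
          rw [add_comm g1]
          exact h3.add_low (h1.dd.mono hlt)
        · exfalso
          have h4 : 2 ^ (e + 1) ∣ 2 ^ e := by
            rw [heq] at d1
            exact (Nat.dvd_add_left d2).1 d1
          have h5 := Nat.le_of_dvd (by positivity) h4
          rw [pow_succ] at h5
          have := Nat.one_le_two_pow (n := e)
          omega
        · exact ⟨m1, c1, (pow_dvd_pow 2 (Nat.le_succ e)).trans d1, h1.add_low (h3.dd.mono hgt)⟩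

end Helper729.SAF
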