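import Pool.Agent.Helper729.SAF.Base

set_option autoImplicit false

namespace Helper729.SAF.A1c

open Helper729.SAF



theorem aeval_ySeq_injective {K : Type} [Field K] (c : ℕ → K) (n : ℕ)
    (P : MvPolynomial (Fin 2) K) (h : MvPolynomial.aeval ![ySeq c n, ySeq c (n + 1)] P = 0) :
    P = 0 := by
  induction n generalizing P with
  | zero =>
    have h1 : (![ySeq c 0, ySeq c (0 + 1)] : Fin 2 → MvPolynomial (Fin 2) K) =
        MvPolynomial.X := by
      funext i
      fin_cases i <;> simp [ySeq]
    rw [h1, MvPolynomial.aeval_X_left] at h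
    simpa using h
  | succ n ih =>
    set φ : MvPolynomial (Fin 2) K →ₐ[K] MvPolynomial (Fin 2) K :=
      MvPolynomial.aeval ![MvPolynomial.X 1,
        MvPolynomial.C (c n) * MvPolynomial.X 1 ^ 2 - MvPolynomial.X 0] with hφ
    set ψ : MvPolynomial (Fin 2) K →ₐ[K] MvPolynomial (Fin 2) K :=
      MvPolynomial.aeval ![MvPolynomial.C (c n) * MvPolynomial.X 0 ^ 2 - MvPolynomial.X 1,
        MvPolynomial.X 0] with hψ
    have h1 : (MvPolynomial.aeval ![ySeq c (n + 1), ySeq c (n + 1 + 1)] :
        MvPolynomial (Fin 2) K →ₐ[K] MvPolynomial (Fin 2) K) =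
        (MvPolynomial.aeval ![ySeq c n, ySeq c (n + 1)]).comp φ := by
      apply MvPolynomial.algHom_ext
      intro i
      fin_cases i
      · simp [hφ]
      · simp [hφ, ySeq, MvPolynomial.algebraMap_eq]
    have h2 : ψ.comp φ = AlgHom.id K _ := by
      apply MvPolynomial.algHom_ext
      intro i
      fin_cases i
      · simp [hφ, hψ]
      · simp [hφ, hψ, MvPolynomial.algebraMap_eq]
    rw [h1, AlgHom.comp_apply] at h
    have h3 := ih _ h
    have h4 : ψ (φ P) = P := by
      have := congrArg (fun f => f P) h2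
      simpa using this
    rw [h3, map_zero] at h4
    exact h4.symm

end Helper729.SAF.A1c
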