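import Pool.Agent.Helper729.SAF.Base

set_option autoImplicit false

namespace Helper729.SAF.A2

open Helper729.SAF



theorem ySeq_map {A B : Type} [CommRing A] [CommRing B] (φ : A →+* B) (c : ℕ → A) (n : ℕ) :
    MvPolynomial.map φ (ySeq c n) = ySeq (fun k => φ (c k)) n ∧
    MvPolynomial.map φ (ySeq c (n + 1)) = ySeq (fun k => φ (c k)) (n + 1) := by
  induction n with
  | zero => exact ⟨by simp [ySeq], by simp [ySeq]⟩
  | succ n ih =>
    refine ⟨ih.2, ?_⟩
    have h1 : ySeq c (n + 1 + 1) = MvPolynomial.C (c n) * (ySeq c (n + 1)) ^ 2 - ySeq c n := rfl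
    have h2 : ySeq (fun k => φ (c k)) (n + 1 + 1) = MvPolynomial.C (φ (c n)) *
      (ySeq (fun k => φ (c k)) (n + 1)) ^ 2 - ySeq (fun k => φ (c k)) n := rfl
    rw [h1, h2, map_sub, map_mul, map_pow, ih.1, ih.2, MvPolynomial.map_C]

theorem map_aeval2 {A B : Type} [CommRing A] [CommRing B] (φ : A →+* B)
    (g : Fin 2 → MvPolynomial (Fin 2) A) (P : MvPolynomial (Fin 2) A) :
    MvPolynomial.map φ (MvPolynomial.aeval g P) =
      MvPolynomial.aeval (fun i => MvPolynomial.map φ (g i)) (MvPolynomial.map φ P) := by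
  induction P using MvPolynomial.induction_on with
  | C a => simp [MvPolynomial.algebraMap_eq]
  | add p q hp hq => rw [map_add, map_add, map_add, map_add, hp, hq]
  | mul_X p i hp => rw [map_mul, map_mul, map_mul, map_mul, hp]; simp

theorem pure_iterate_domain {A : Type} [CommRing A] [IsDomain A]
    (hK : ∀ (c : ℕ → FractionRing A), (∀ n, c n ≠ 0) →
      ∀ P : MvPolynomial (Fin 2) (FractionRing A), P ≠ 0 → ∀ n : ℕ, P.degreeOf 0 ≤ n →
      ∃ (m : ℕ) (κ : FractionRing A), Pure m κ (MvPolynomial.aeval ![ySeq c n, ySeq c (n + 1)] P))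
    (c : ℕ → A) (hc : ∀ n, c n ≠ 0)
    (P : MvPolynomial (Fin 2) A) (hP : P ≠ 0) (n : ℕ) (hn : P.degreeOf 0 ≤ n) :
    ∃ (m : ℕ) (κ : A), Pure m κ (MvPolynomial.aeval ![ySeq c n, ySeq c (n + 1)] P) := by
  have hinj : Function.Injective (algebraMap A (FractionRing A)) :=
    IsFractionRing.injective A (FractionRing A)
  obtain ⟨φ, hφ⟩ : ∃ φ : A →+* FractionRing A, φ = algebraMap A (FractionRing A) := ⟨_, rfl⟩
  rw [← hφ] at hinj
  have hmapinj : Function.Injective (MvPolynomial.map φ : MvPolynomial (Fin 2) A →+* _) :=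
    MvPolynomial.map_injective φ hinj
  obtain ⟨H, hH⟩ : ∃ H, H = MvPolynomial.aeval ![ySeq c n, ySeq c (n + 1)] P := ⟨_, rfl⟩
  have hc' : ∀ k, φ (c k) ≠ 0 := fun k => (map_ne_zero_iff φ hinj).2 (hc k)
  have hP' : MvPolynomial.map φ P ≠ 0 := (map_ne_zero_iff _ hmapinj).2 hP
  have hn' : (MvPolynomial.map φ P).degreeOf 0 ≤ n := by
    rw [MvPolynomial.degreeOf_eq_sup, MvPolynomial.support_map_of_injective _ hinj,
      ← MvPolynomial.degreeOf_eq_sup]
    exact hn
  obtain ⟨m, κK, hκ0, hκ⟩ := hK (fun k => φ (c k)) hc' _ hP' n hn'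
  have hmapH : MvPolynomial.aeval ![ySeq (fun k => φ (c k)) n, ySeq (fun k => φ (c k)) (n + 1)]
      (MvPolynomial.map φ P) = MvPolynomial.map φ H := by
    rw [hH, map_aeval2]
    congr 2
    funext i
    fin_cases i
    · exact (ySeq_map φ c n).1.symm
    · exact (ySeq_map φ c n).2.symm
  rw [hmapH] at hκ
  obtain ⟨s0, hs0⟩ : ∃ s0 : Fin 2 →₀ ℕ, s0 = Finsupp.single 1 m := ⟨_, rfl⟩
  have hs00 : s0 0 + s0 1 = m := by
    rw [hs0]; simp
  have hcoef : MvPolynomial.coeff s0 (MvPolynomial.map φ H) = κK := by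
    have h1 : s0 ∉ (MvPolynomial.map φ H - MvPolynomial.C κK * MvPolynomial.X 1 ^ m).support := by
      intro hs
      have := hκ s0 hs
      omega
    rw [MvPolynomial.notMem_support_iff, MvPolynomial.coeff_sub, MvPolynomial.coeff_C_mul,
      MvPolynomial.coeff_X_pow, if_pos hs0.symm, mul_one, sub_eq_zero] at h1
    exact h1
  rw [MvPolynomial.coeff_map] at hcoef
  refine ⟨m, MvPolynomial.coeff s0 H, ?_, ?_⟩
  · intro h0
    rw [h0, map_zero] at hcoef
    exact hκ0 hcoef.symm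
  · intro s hs
    rw [← hH] at hs
    refine hκ s ?_
    rw [MvPolynomial.mem_support_iff] at hs ⊢
    have h2 : MvPolynomial.map φ H - MvPolynomial.C κK * MvPolynomial.X 1 ^ m =
        MvPolynomial.map φ (H - MvPolynomial.C (MvPolynomial.coeff s0 H) * MvPolynomial.X 1 ^ m) := by
      rw [map_sub, map_mul, map_pow, MvPolynomial.map_C, MvPolynomial.map_X, hcoef]
    rw [h2, MvPolynomial.coeff_map]
    exact (map_ne_zero_iff φ hinj).2 hs

end Helper729.SAF.A2
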