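import Pool.Agent.Helper729.SAF.Base

set_option autoImplicit false

namespace Helper729.SAF.A3

open Helper729.SAF



/-- the coefficients used -/
noncomputable def pa_c (n : ℕ) : Polynomial ℂ := Polynomial.X + Polynomial.C (n : ℂ)

/-- the substitution `z ↦ z + n` -/
noncomputable def pa_phi (n : ℕ) : MvPolynomial (Fin 3) ℂ →+* MvPolynomial (Fin 2) (Polynomial ℂ) :=
  MvPolynomial.eval₂Hom ((MvPolynomial.C).comp Polynomial.C)
    ![MvPolynomial.X 0, MvPolynomial.X 1, MvPolynomial.C (pa_c n)]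

/-- evaluation -/
noncomputable def pa_e (x y z : ℂ) : MvPolynomial (Fin 2) (Polynomial ℂ) →+* ℂ :=
  MvPolynomial.eval₂Hom (Polynomial.evalRingHom z) ![x, y]

theorem pa_e_C (x y z : ℂ) (p : Polynomial ℂ) : pa_e x y z (MvPolynomial.C p) = p.eval z := by
  simp [pa_e]

theorem pa_e_X0 (x y z : ℂ) : pa_e x y z (MvPolynomial.X 0) = x := by
  simp [pa_e]

theorem pa_e_X1 (x y z : ℂ) : pa_e x y z (MvPolynomial.X 1) = y := by
  simp [pa_e]

theorem pa_c_eval (n : ℕ) (z : ℂ) : (pa_c n).eval z = z + n := by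
  simp [pa_c]

theorem pa_phi_C (n : ℕ) (a : ℂ) :
    pa_phi n (MvPolynomial.C a) = MvPolynomial.C (Polynomial.C a) := by
  simp [pa_phi]

theorem pa_phi_X (n : ℕ) (i : Fin 3) :
    pa_phi n (MvPolynomial.X i) =
      (![MvPolynomial.X 0, MvPolynomial.X 1, MvPolynomial.C (pa_c n)] :
        Fin 3 → MvPolynomial (Fin 2) (Polynomial ℂ)) i := by
  simp only [pa_phi, MvPolynomial.eval₂Hom_X']

theorem pa_e_phi (x y z : ℂ) (n : ℕ) (P : MvPolynomial (Fin 3) ℂ) :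
    pa_e x y z (pa_phi n P) = MvPolynomial.eval ![x, y, z + n] P := by
  have h : (pa_e x y z).comp (pa_phi n) = MvPolynomial.eval ![x, y, z + n] := by
    apply MvPolynomial.ringHom_ext
    · intro a
      rw [RingHom.comp_apply, pa_phi_C, pa_e_C]
      simp
    · intro i
      rw [RingHom.comp_apply, pa_phi_X]
      fin_cases i
      · simp [pa_e_X0]
      · simp [pa_e_X1]
      · simp [pa_e_C, pa_c_eval]
  rw [← h]
  rfl

theorem pa_phi_ne (n : ℕ) (P : MvPolynomial (Fin 3) ℂ) (hP : P ≠ 0) : pa_phi n P ≠ 0 := by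
  intro h
  apply hP
  apply MvPolynomial.funext
  intro v
  have h1 := pa_e_phi (v 0) (v 1) (v 2 - n) n P
  rw [h, map_zero, sub_add_cancel] at h1
  have h2 : ![v 0, v 1, v 2] = v := by
    funext i
    fin_cases i <;> rfl
  rw [h2] at h1
  rw [← h1, map_zero]

theorem pa_phi_degree (n : ℕ) (P : MvPolynomial (Fin 3) ℂ) :
    (pa_phi n P).degreeOf 0 ≤ P.degreeOf 0 := by
  have h : pa_phi n P = ∑ d ∈ P.support, MvPolynomial.C (Polynomial.C (P.coeff d)) *
      ∏ i, (![MvPolynomial.X 0, MvPolynomial.X 1, MvPolynomial.C (pa_c n)] :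
        Fin 3 → MvPolynomial (Fin 2) (Polynomial ℂ)) i ^ d i := by
    have := MvPolynomial.eval₂_eq' ((MvPolynomial.C).comp Polynomial.C :
        ℂ →+* MvPolynomial (Fin 2) (Polynomial ℂ))
      (![MvPolynomial.X 0, MvPolynomial.X 1, MvPolynomial.C (pa_c n)]) P
    simpa [pa_phi] using this
  rw [h]
  refine (MvPolynomial.degreeOf_sum_le _ _ _).trans ?_
  apply Finset.sup_le
  intro d hd
  have hd0 : d 0 ≤ P.degreeOf 0 := MvPolynomial.monomial_le_degreeOf 0 hd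
  refine le_trans ?_ hd0
  refine (MvPolynomial.degreeOf_mul_le _ _ _).trans ?_
  rw [MvPolynomial.degreeOf_C, zero_add, Fin.prod_univ_three]
  simp only [Matrix.cons_val_zero, Matrix.cons_val_one, Matrix.cons_val_two, Matrix.head_cons,
    Matrix.tail_cons]
  refine (MvPolynomial.degreeOf_mul_le _ _ _).trans ?_
  have h1 : MvPolynomial.degreeOf 0 ((![MvPolynomial.X 0, MvPolynomial.X 1,
      MvPolynomial.C (pa_c n)] : Fin 3 → MvPolynomial (Fin 2) (Polynomial ℂ)) 2 ^ d 2) = 0 := by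
    show MvPolynomial.degreeOf 0 ((MvPolynomial.C (pa_c n) :
      MvPolynomial (Fin 2) (Polynomial ℂ)) ^ d 2) = 0
    rw [← MvPolynomial.C_pow]
    exact MvPolynomial.degreeOf_C _ _
  have h2 : MvPolynomial.degreeOf 0 ((MvPolynomial.X 0 : MvPolynomial (Fin 2) (Polynomial ℂ)) ^ d 0 *
      (MvPolynomial.X 1) ^ d 1) ≤ d 0 := by
    refine (MvPolynomial.degreeOf_mul_le _ _ _).trans ?_
    have a1 : MvPolynomial.degreeOf 0 ((MvPolynomial.X 0 :
        MvPolynomial (Fin 2) (Polynomial ℂ)) ^ d 0) ≤ d 0 := by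
      refine (MvPolynomial.degreeOf_pow_le _ _ _).trans ?_
      rw [MvPolynomial.degreeOf_X]
      simp
    have a2 : MvPolynomial.degreeOf 0 ((MvPolynomial.X 1 :
        MvPolynomial (Fin 2) (Polynomial ℂ)) ^ d 1) ≤ 0 := by
      refine (MvPolynomial.degreeOf_pow_le _ _ _).trans ?_
      rw [MvPolynomial.degreeOf_X]
      simp
    omega
  have h3 := add_le_add h2 h1.le
  simpa using h3

theorem pa_iter (x y z : ℂ) (n : ℕ) : F^[n] (x, y, z) =
    (pa_e x y z (ySeq pa_c n), pa_e x y z (ySeq pa_c (n + 1)), z + n) := by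
  induction n with
  | zero =>
    show (x, y, z) = _
    rw [show ySeq pa_c 0 = MvPolynomial.X 0 from rfl, show ySeq pa_c (0 + 1) = MvPolynomial.X 1 from rfl,
      pa_e_X0, pa_e_X1]
    simp
  | succ n ih =>
    rw [Function.iterate_succ_apply', ih]
    have h : ySeq pa_c (n + 1 + 1) =
        MvPolynomial.C (pa_c n) * (ySeq pa_c (n + 1)) ^ 2 - ySeq pa_c n := rfl
    rw [h, map_sub, map_mul, map_pow, pa_e_C, pa_c_eval]
    unfold F
    simp only [Prod.mk.injEq, true_and]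
    push_cast
    ring

theorem pa_evq (x y z : ℂ) (n : ℕ) (P : MvPolynomial (Fin 3) ℂ) :
    evq P (F^[n] (x, y, z)) =
      pa_e x y z (MvPolynomial.aeval ![ySeq pa_c n, ySeq pa_c (n + 1)] (pa_phi n P)) := by
  rw [pa_iter]
  unfold evq
  have h : MvPolynomial.eval ![pa_e x y z (ySeq pa_c n), pa_e x y z (ySeq pa_c (n + 1)), z + n] =
      (pa_e x y z).comp (((MvPolynomial.aeval (R := Polynomial ℂ)
        ![ySeq pa_c n, ySeq pa_c (n + 1)]).toRingHom).comp (pa_phi n)) := by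
    apply MvPolynomial.ringHom_ext
    · intro a
      rw [RingHom.comp_apply, RingHom.comp_apply, pa_phi_C]
      simp [MvPolynomial.algebraMap_eq, pa_e_C]
    · intro i
      rw [RingHom.comp_apply, RingHom.comp_apply, pa_phi_X]
      fin_cases i
      · simp
      · simp
      · simp [MvPolynomial.algebraMap_eq, pa_e_C, pa_c_eval]
  rw [h]
  rfl

theorem pa_poly (p : Polynomial ℂ) (D : ℕ) (hD : p.natDegree ≤ D) (z : ℂ) :
    ‖p.eval z‖ ≤ (∑ i ∈ Finset.range (D + 1), ‖p.coeff i‖) * (1 + ‖z‖) ^ D := by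
  rw [Polynomial.eval_eq_sum_range' (Nat.lt_succ_of_le hD), Finset.sum_mul]
  refine (norm_sum_le _ _).trans (Finset.sum_le_sum fun i hi => ?_)
  rw [norm_mul, norm_pow]
  apply mul_le_mul_of_nonneg_left _ (norm_nonneg _)
  have h1 : ‖z‖ ^ i ≤ (1 + ‖z‖) ^ i := pow_le_pow_left₀ (norm_nonneg _) (by linarith) i
  refine h1.trans (pow_le_pow_right₀ (by linarith [norm_nonneg z]) ?_)
  exact Nat.lt_succ_iff.1 (Finset.mem_range.1 hi)

theorem pure_analytic
    (hA : ∀ (c : ℕ → Polynomial ℂ), (∀ n, c n ≠ 0) →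
      ∀ P : MvPolynomial (Fin 2) (Polynomial ℂ), P ≠ 0 → ∀ n : ℕ, P.degreeOf 0 ≤ n →
      ∃ (m : ℕ) (κ : Polynomial ℂ), Pure m κ (MvPolynomial.aeval ![ySeq c n, ySeq c (n + 1)] P))
    (P : MvPolynomial (Fin 3) ℂ) (hP : P ≠ 0) (n : ℕ) (hn : P.degreeOf 0 ≤ n) :
    ∃ (m : ℕ) (κ : Polynomial ℂ), PureAn P n m κ := by
  obtain ⟨m, κ, hκ, hs⟩ := hA pa_c (fun n => Polynomial.X_add_C_ne_zero _) (pa_phi n P)
    (pa_phi_ne n P hP) n ((pa_phi_degree n P).trans hn)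
  refine ⟨m, κ, hκ, ?_⟩
  set H := MvPolynomial.aeval ![ySeq pa_c n, ySeq pa_c (n + 1)] (pa_phi n P) with hH
  set Rm := H - MvPolynomial.C κ * MvPolynomial.X 1 ^ m with hRm
  set D := Rm.support.sup (fun s => (Rm.coeff s).natDegree) with hD
  refine ⟨(∑ s ∈ Rm.support, ∑ i ∈ Finset.range (D + 1), ‖(Rm.coeff s).coeff i‖) + 1, D, ?_, ?_⟩
  · have : 0 ≤ ∑ s ∈ Rm.support, ∑ i ∈ Finset.range (D + 1), ‖(Rm.coeff s).coeff i‖ :=
      Finset.sum_nonneg fun s _ => Finset.sum_nonneg fun i _ => norm_nonneg _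
    linarith
  · intro x y z hxy hy
    have e1 : evq P (F^[n] (x, y, z)) - κ.eval z * y ^ m = pa_e x y z Rm := by
      rw [pa_evq, hRm, map_sub, map_mul, map_pow, pa_e_C, pa_e_X1]
    have e2 : pa_e x y z Rm = ∑ d ∈ Rm.support, (Rm.coeff d).eval z * (x ^ d 0 * y ^ d 1) := by
      have := MvPolynomial.eval₂_eq' (Polynomial.evalRingHom z) ![x, y] Rm
      simpa [pa_e, Fin.prod_univ_two] using this
    rw [e1, e2]
    have hy0 : 0 ≤ ‖y‖ := norm_nonneg y
    have hz0 : 0 ≤ (1 + ‖z‖) ^ D := by positivity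
    have key : ∀ d ∈ Rm.support, ‖(Rm.coeff d).eval z * (x ^ d 0 * y ^ d 1)‖ * ‖y‖ ≤
        (∑ i ∈ Finset.range (D + 1), ‖(Rm.coeff d).coeff i‖) * (1 + ‖z‖) ^ D * ‖y‖ ^ m := by
      intro d hd
      have b1 := pa_poly (Rm.coeff d) D (Finset.le_sup (f := fun s => (Rm.coeff s).natDegree) hd) z
      have b2 : ‖x ^ d 0 * y ^ d 1‖ * ‖y‖ ≤ ‖y‖ ^ m := by
        rw [norm_mul, norm_pow, norm_pow]
        calc ‖x‖ ^ d 0 * ‖y‖ ^ d 1 * ‖y‖ ≤ ‖y‖ ^ d 0 * ‖y‖ ^ d 1 * ‖y‖ := by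
              apply mul_le_mul_of_nonneg_right _ hy0
              apply mul_le_mul_of_nonneg_right _ (by positivity)
              exact pow_le_pow_left₀ (norm_nonneg _) hxy _
          _ = ‖y‖ ^ (d 0 + d 1 + 1) := by ring
          _ ≤ ‖y‖ ^ m := pow_le_pow_right₀ hy (hs d hd)
      rw [norm_mul, mul_assoc]
      exact mul_le_mul b1 b2 (by positivity) ((norm_nonneg _).trans b1)
    calc ‖∑ d ∈ Rm.support, (Rm.coeff d).eval z * (x ^ d 0 * y ^ d 1)‖ * ‖y‖
        ≤ (∑ d ∈ Rm.support, ‖(Rm.coeff d).eval z * (x ^ d 0 * y ^ d 1)‖) * ‖y‖ :=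
          mul_le_mul_of_nonneg_right (norm_sum_le _ _) hy0
      _ = ∑ d ∈ Rm.support, ‖(Rm.coeff d).eval z * (x ^ d 0 * y ^ d 1)‖ * ‖y‖ := Finset.sum_mul _ _ _
      _ ≤ ∑ d ∈ Rm.support,
          (∑ i ∈ Finset.range (D + 1), ‖(Rm.coeff d).coeff i‖) * (1 + ‖z‖) ^ D * ‖y‖ ^ m :=
          Finset.sum_le_sum key
      _ = (∑ s ∈ Rm.support, ∑ i ∈ Finset.range (D + 1), ‖(Rm.coeff s).coeff i‖) *
          (1 + ‖z‖) ^ D * ‖y‖ ^ m := by
          rw [Finset.sum_mul, Finset.sum_mul]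
      _ ≤ ((∑ s ∈ Rm.support, ∑ i ∈ Finset.range (D + 1), ‖(Rm.coeff s).coeff i‖) + 1) *
          (1 + ‖z‖) ^ D * ‖y‖ ^ m := by
          apply mul_le_mul_of_nonneg_right _ (by positivity)
          apply mul_le_mul_of_nonneg_right _ hz0
          linarith

end Helper729.SAF.A3
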