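import Pool.Agent.Helper729.SAF.Base

set_option autoImplicit false

namespace Helper729.SAF.B1

open Helper729.SAF



theorem nullst {ι : Type} [Fintype ι] (R : ι → MvPolynomial (Fin 3) ℂ)
    (h : ∀ q : ℂ × ℂ × ℂ, ∃ i, evq (R i) q ≠ 0) :
    ∃ Q : ι → MvPolynomial (Fin 3) ℂ, ∑ i, Q i * R i = 1 := by
  have htop : Ideal.span (Set.range R) = ⊤ := by
    by_contra hne
    obtain ⟨I, hI, hle⟩ := Ideal.exists_le_maximal _ hne
    rw [MvPolynomial.isMaximal_iff_eq_vanishingIdeal_singleton] at hI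
    obtain ⟨x, hx⟩ := hI
    obtain ⟨i, hi⟩ := h (x 0, x 1, x 2)
    apply hi
    have h1 : R i ∈ I := hle (Ideal.subset_span ⟨i, rfl⟩)
    rw [hx, MvPolynomial.mem_vanishingIdeal_singleton_iff] at h1
    unfold evq
    have h2 : (![x 0, x 1, x 2] : Fin 3 → ℂ) = x := by
      funext j
      fin_cases j <;> rfl
    simp only
    rw [h2]
    exact h1
  have h1 : (1 : MvPolynomial (Fin 3) ℂ) ∈ Ideal.span (Set.range R) := by
    rw [htop]
    trivial
  rw [Ideal.mem_span_range_iff_exists_fun] at h1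
  exact h1

end Helper729.SAF.B1
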