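import Pool.Agent.Helper729.SAF.Base

set_option autoImplicit false

namespace Helper729.SAF.B2

open Helper729.SAF



theorem evq_C (a : ℂ) (q : ℂ × ℂ × ℂ) : evq (MvPolynomial.C a) q = a := by
  unfold evq; rw [MvPolynomial.eval_C]

theorem evq_add (P Q : MvPolynomial (Fin 3) ℂ) (q : ℂ × ℂ × ℂ) :
    evq (P + Q) q = evq P q + evq Q q := by
  unfold evq; rw [map_add]

theorem evq_mul_X (P : MvPolynomial (Fin 3) ℂ) (i : Fin 3) (q : ℂ × ℂ × ℂ) :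
    evq (P * MvPolynomial.X i) q = evq P q * (![q.1, q.2.1, q.2.2] i) := by
  unfold evq; rw [map_mul, MvPolynomial.eval_X]

theorem evq_growth (P : MvPolynomial (Fin 3) ℂ) :
    ∃ (C : ℝ) (D : ℕ), 0 < C ∧ ∀ q : ℂ × ℂ × ℂ,
      ‖evq P q‖ ≤ C * (1 + ‖q.1‖ + ‖q.2.1‖ + ‖q.2.2‖) ^ D := by
  induction P using MvPolynomial.induction_on with
  | C a =>
    refine ⟨‖a‖ + 1, 0, by positivity, fun q => ?_⟩
    rw [evq_C, pow_zero, mul_one]
    linarith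
  | add P Q hP hQ =>
    obtain ⟨C1, D1, hC1, h1⟩ := hP
    obtain ⟨C2, D2, hC2, h2⟩ := hQ
    refine ⟨C1 + C2, max D1 D2, by positivity, fun q => ?_⟩
    rw [evq_add]
    have hB : 1 ≤ 1 + ‖q.1‖ + ‖q.2.1‖ + ‖q.2.2‖ := by
      have := norm_nonneg q.1
      have := norm_nonneg q.2.1
      have := norm_nonneg q.2.2
      linarith
    have e1 := pow_le_pow_right₀ hB (le_max_left D1 D2)
    have e2 := pow_le_pow_right₀ hB (le_max_right D1 D2)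
    calc ‖evq P q + evq Q q‖ ≤ ‖evq P q‖ + ‖evq Q q‖ := norm_add_le _ _
      _ ≤ C1 * (1 + ‖q.1‖ + ‖q.2.1‖ + ‖q.2.2‖) ^ D1 +
          C2 * (1 + ‖q.1‖ + ‖q.2.1‖ + ‖q.2.2‖) ^ D2 := add_le_add (h1 q) (h2 q)
      _ ≤ C1 * (1 + ‖q.1‖ + ‖q.2.1‖ + ‖q.2.2‖) ^ (max D1 D2) +
          C2 * (1 + ‖q.1‖ + ‖q.2.1‖ + ‖q.2.2‖) ^ (max D1 D2) :=
          add_le_add (mul_le_mul_of_nonneg_left e1 hC1.le) (mul_le_mul_of_nonneg_left e2 hC2.le)
      _ = _ := by ring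
  | mul_X P i hP =>
    obtain ⟨C1, D1, hC1, h1⟩ := hP
    refine ⟨C1, D1 + 1, hC1, fun q => ?_⟩
    rw [evq_mul_X, norm_mul, pow_succ, ← mul_assoc]
    have h0 := norm_nonneg q.1
    have h0' := norm_nonneg q.2.1
    have h0'' := norm_nonneg q.2.2
    apply mul_le_mul (h1 q) _ (norm_nonneg _) (by positivity)
    fin_cases i
    · show ‖q.1‖ ≤ _
      linarith
    · show ‖q.2.1‖ ≤ _
      linarith
    · show ‖q.2.2‖ ≤ _
      linarith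

theorem evq_lipschitz (P : MvPolynomial (Fin 3) ℂ) :
    ∃ (C : ℝ) (D : ℕ), 0 < C ∧ ∀ x y z s : ℂ, ‖s‖ ≤ 1 →
      ‖evq P (x, y, z + s) - evq P (x, y, z)‖ ≤ ‖s‖ * (C * (1 + ‖x‖ + ‖y‖ + ‖z‖) ^ D) := by
  induction P using MvPolynomial.induction_on with
  | C a =>
    refine ⟨1, 0, one_pos, fun x y z s hs => ?_⟩
    rw [evq_C, evq_C, sub_self, norm_zero]
    positivity
  | add P Q hP hQ =>
    obtain ⟨C1, D1, hC1, h1⟩ := hP
    obtain ⟨C2, D2, hC2, h2⟩ := hQ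
    refine ⟨C1 + C2, max D1 D2, by positivity, fun x y z s hs => ?_⟩
    rw [evq_add, evq_add]
    have hB : 1 ≤ 1 + ‖x‖ + ‖y‖ + ‖z‖ := by
      have := norm_nonneg x
      have := norm_nonneg y
      have := norm_nonneg z
      linarith
    have e1 := pow_le_pow_right₀ hB (le_max_left D1 D2)
    have e2 := pow_le_pow_right₀ hB (le_max_right D1 D2)
    have e3 : evq P (x, y, z + s) + evq Q (x, y, z + s) - (evq P (x, y, z) + evq Q (x, y, z)) =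
        (evq P (x, y, z + s) - evq P (x, y, z)) + (evq Q (x, y, z + s) - evq Q (x, y, z)) := by
      ring
    rw [e3]
    calc _ ≤ ‖evq P (x, y, z + s) - evq P (x, y, z)‖ +
          ‖evq Q (x, y, z + s) - evq Q (x, y, z)‖ := norm_add_le _ _
      _ ≤ ‖s‖ * (C1 * (1 + ‖x‖ + ‖y‖ + ‖z‖) ^ D1) + ‖s‖ * (C2 * (1 + ‖x‖ + ‖y‖ + ‖z‖) ^ D2) :=
          add_le_add (h1 x y z s hs) (h2 x y z s hs)
      _ ≤ ‖s‖ * (C1 * (1 + ‖x‖ + ‖y‖ + ‖z‖) ^ (max D1 D2)) +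
          ‖s‖ * (C2 * (1 + ‖x‖ + ‖y‖ + ‖z‖) ^ (max D1 D2)) :=
          add_le_add
            (mul_le_mul_of_nonneg_left (mul_le_mul_of_nonneg_left e1 hC1.le) (norm_nonneg _))
            (mul_le_mul_of_nonneg_left (mul_le_mul_of_nonneg_left e2 hC2.le) (norm_nonneg _))
      _ = _ := by ring
  | mul_X P i hP =>
    obtain ⟨C1, D1, hC1, h1⟩ := hP
    obtain ⟨C2, D2, hC2, h2⟩ := evq_growth P
    refine ⟨C1 + C2, max (D1 + 1) D2, by positivity, fun x y z s hs => ?_⟩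
    rw [evq_mul_X, evq_mul_X]
    have h0 := norm_nonneg x
    have h0' := norm_nonneg y
    have h0'' := norm_nonneg z
    have hs0 := norm_nonneg s
    have hB : 1 ≤ 1 + ‖x‖ + ‖y‖ + ‖z‖ := by linarith
    obtain ⟨w', hw'⟩ : ∃ w', w' = ![x, y, z + s] i := ⟨_, rfl⟩
    obtain ⟨w, hw⟩ : ∃ w, w = ![x, y, z] i := ⟨_, rfl⟩
    have hw1 : ‖w'‖ ≤ 1 + ‖x‖ + ‖y‖ + ‖z‖ := by
      rw [hw']
      fin_cases i
      · show ‖x‖ ≤ _
        linarith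
      · show ‖y‖ ≤ _
        linarith
      · show ‖z + s‖ ≤ _
        have := norm_add_le z s
        linarith
    have hw2 : ‖w' - w‖ ≤ ‖s‖ := by
      rw [hw', hw]
      fin_cases i
      · show ‖x - x‖ ≤ _
        rw [sub_self, norm_zero]; exact hs0
      · show ‖y - y‖ ≤ _
        rw [sub_self, norm_zero]; exact hs0
      · show ‖z + s - z‖ ≤ _
        rw [add_sub_cancel_left]
    show ‖evq P (x, y, z + s) * (![x, y, z + s] i) - evq P (x, y, z) * (![x, y, z] i)‖ ≤ _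
    rw [← hw, ← hw']
    have e1 := pow_le_pow_right₀ hB (le_max_left (D1 + 1) D2)
    have e2 := pow_le_pow_right₀ hB (le_max_right (D1 + 1) D2)
    have e3 : evq P (x, y, z + s) * w' - evq P (x, y, z) * w =
        (evq P (x, y, z + s) - evq P (x, y, z)) * w' + evq P (x, y, z) * (w' - w) := by ring
    rw [e3]
    have e4 : ‖evq P (x, y, z)‖ ≤ C2 * (1 + ‖x‖ + ‖y‖ + ‖z‖) ^ D2 := h2 (x, y, z)
    calc _ ≤ ‖(evq P (x, y, z + s) - evq P (x, y, z)) * w'‖ + ‖evq P (x, y, z) * (w' - w)‖ :=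
          norm_add_le _ _
      _ = ‖evq P (x, y, z + s) - evq P (x, y, z)‖ * ‖w'‖ + ‖evq P (x, y, z)‖ * ‖w' - w‖ := by
          rw [norm_mul, norm_mul]
      _ ≤ (‖s‖ * (C1 * (1 + ‖x‖ + ‖y‖ + ‖z‖) ^ D1)) * (1 + ‖x‖ + ‖y‖ + ‖z‖) +
          (C2 * (1 + ‖x‖ + ‖y‖ + ‖z‖) ^ D2) * ‖s‖ :=
          add_le_add (mul_le_mul (h1 x y z s hs) hw1 (norm_nonneg _) (by positivity))
            (mul_le_mul e4 hw2 (norm_nonneg _) (by positivity))
      _ = ‖s‖ * (C1 * (1 + ‖x‖ + ‖y‖ + ‖z‖) ^ (D1 + 1)) +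
          ‖s‖ * (C2 * (1 + ‖x‖ + ‖y‖ + ‖z‖) ^ D2) := by ring
      _ ≤ ‖s‖ * (C1 * (1 + ‖x‖ + ‖y‖ + ‖z‖) ^ (max (D1 + 1) D2)) +
          ‖s‖ * (C2 * (1 + ‖x‖ + ‖y‖ + ‖z‖) ^ (max (D1 + 1) D2)) :=
          add_le_add
            (mul_le_mul_of_nonneg_left (mul_le_mul_of_nonneg_left e1 hC1.le) (norm_nonneg _))
            (mul_le_mul_of_nonneg_left (mul_le_mul_of_nonneg_left e2 hC2.le) (norm_nonneg _))
      _ = _ := by ring

end Helper729.SAF.B2
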