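import Pool.Agent.Helper729.SAF.Base

set_option autoImplicit false

namespace Helper729.SAF.B3

open Helper729.SAF



theorem G_third (n : ℕ) (x y z : ℂ) : (G^[n] (x, y, z)).2.2 = z - n := by
  induction n with
  | zero => simp
  | succ n ih =>
    rw [Function.iterate_succ_apply']
    simp only [G, ih]
    push_cast
    ring

theorem G_growth (n : ℕ) :
    ∃ (C : ℝ) (D : ℕ), 1 ≤ C ∧ ∀ x y z : ℂ,
      ‖(G^[n] (x, y, z)).1‖ ≤ C * (1 + ‖x‖ + ‖y‖ + ‖z‖) ^ D ∧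
      ‖(G^[n] (x, y, z)).2.1‖ ≤ C * (1 + ‖x‖ + ‖y‖ + ‖z‖) ^ D := by
  induction n with
  | zero =>
    refine ⟨1, 1, le_rfl, fun x y z => ?_⟩
    simp only [Function.iterate_zero, id, one_mul, pow_one]
    constructor <;> linarith [norm_nonneg x, norm_nonneg y, norm_nonneg z]
  | succ n ih =>
    obtain ⟨C, D, hC, h⟩ := ih
    refine ⟨(n + 1) * C ^ 2 + C, 2 * D + 1, ?_, fun x y z => ?_⟩
    · nlinarith [sq_nonneg C, (Nat.cast_nonneg n : (0 : ℝ) ≤ n)]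
    obtain ⟨h1, h2⟩ := h x y z
    have h3 := G_third n x y z
    rw [Function.iterate_succ_apply']
    set g := G^[n] (x, y, z) with hg
    set M := 1 + ‖x‖ + ‖y‖ + ‖z‖ with hM
    have hM1 : 1 ≤ M := by linarith [norm_nonneg x, norm_nonneg y, norm_nonneg z]
    have hMz : ‖z‖ ≤ M := by linarith [norm_nonneg x, norm_nonneg y, norm_nonneg z]
    have hn0 : (0 : ℝ) ≤ n := Nat.cast_nonneg n
    have hpow : M ^ D ≤ M ^ (2 * D + 1) := pow_le_pow_right₀ hM1 (by omega)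
    have hpow0 : 0 ≤ M ^ (2 * D + 1) := by positivity
    have hz : ‖z - n - 1‖ ≤ (n + 1) * M := by
      have e1 : ‖z - n - 1‖ ≤ ‖z‖ + n + 1 := by
        calc ‖z - n - 1‖ ≤ ‖z - n‖ + ‖(1 : ℂ)‖ := norm_sub_le _ _
          _ ≤ ‖z‖ + ‖(n : ℂ)‖ + ‖(1 : ℂ)‖ := by gcongr; exact norm_sub_le _ _
          _ = ‖z‖ + n + 1 := by rw [norm_one, Complex.norm_natCast]
      nlinarith [norm_nonneg x, norm_nonneg y, norm_nonneg z]
    constructor
    · simp only [G]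
      rw [h3]
      calc ‖(z - n - 1) * g.1 ^ 2 - g.2.1‖ ≤ ‖z - n - 1‖ * ‖g.1‖ ^ 2 + ‖g.2.1‖ := by
            refine (norm_sub_le _ _).trans ?_
            rw [norm_mul, norm_pow]
        _ ≤ ((n + 1) * M) * (C * M ^ D) ^ 2 + C * M ^ D := by gcongr
        _ = (n + 1) * C ^ 2 * M ^ (2 * D + 1) + C * M ^ D := by ring
        _ ≤ (n + 1) * C ^ 2 * M ^ (2 * D + 1) + C * M ^ (2 * D + 1) := by gcongr
        _ = ((n + 1) * C ^ 2 + C) * M ^ (2 * D + 1) := by ring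
    · simp only [G]
      calc ‖g.1‖ ≤ C * M ^ D := h1
        _ ≤ C * M ^ (2 * D + 1) := by gcongr
        _ ≤ ((n + 1) * C ^ 2 + C) * M ^ (2 * D + 1) := by
            apply mul_le_mul_of_nonneg_right _ hpow0
            nlinarith [sq_nonneg C]

theorem G_lipschitz (n : ℕ) :
    ∃ (C : ℝ) (D : ℕ), 0 < C ∧ ∀ x y z s : ℂ, ‖s‖ ≤ 1 →
      ‖(G^[n] (x, y, z + s)).1 - (G^[n] (x, y, z)).1‖ ≤ ‖s‖ * (C * (1 + ‖x‖ + ‖y‖ + ‖z‖) ^ D) ∧
      ‖(G^[n] (x, y, z + s)).2.1 - (G^[n] (x, y, z)).2.1‖ ≤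
        ‖s‖ * (C * (1 + ‖x‖ + ‖y‖ + ‖z‖) ^ D) := by
  induction n with
  | zero =>
    refine ⟨1, 0, one_pos, fun x y z s hs => ?_⟩
    simp
  | succ n ih =>
    obtain ⟨C, D, hC, h⟩ := ih
    obtain ⟨C1, D1, hC1, hg⟩ := G_growth n
    refine ⟨(n + 2) * C * (C1 * 2 ^ D1 + C1) + C1 ^ 2 + C, 1 + D + 2 * D1, by positivity,
      fun x y z s hs => ?_⟩
    obtain ⟨h1, h2⟩ := h x y z s hs
    obtain ⟨g1, g2⟩ := hg x y z
    obtain ⟨k1, k2⟩ := hg x y (z + s)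
    have e3 := G_third n x y z
    have e3' := G_third n x y (z + s)
    rw [Function.iterate_succ_apply', Function.iterate_succ_apply']
    set g := G^[n] (x, y, z) with hgdef
    set g' := G^[n] (x, y, z + s) with hg'def
    set M := 1 + ‖x‖ + ‖y‖ + ‖z‖ with hM
    have hM1 : 1 ≤ M := by linarith [norm_nonneg x, norm_nonneg y, norm_nonneg z]
    have hn0 : (0 : ℝ) ≤ n := Nat.cast_nonneg n
    have hs0 := norm_nonneg s
    have hM0 : 0 ≤ M := by linarith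
    have hC1' : 0 ≤ C1 := by linarith
    have hk : ‖g'.1‖ ≤ C1 * (2 * M) ^ D1 := by
      refine k1.trans ?_
      have : 1 + ‖x‖ + ‖y‖ + ‖z + s‖ ≤ 2 * M := by
        have := norm_add_le z s
        linarith [norm_nonneg x, norm_nonneg y, norm_nonneg z]
      gcongr
    have hz : ‖z + s - n - 1‖ ≤ (n + 2) * M := by
      have e1 : ‖z + s - n - 1‖ ≤ ‖z‖ + ‖s‖ + n + 1 := by
        calc ‖z + s - n - 1‖ ≤ ‖z + s - n‖ + ‖(1 : ℂ)‖ := norm_sub_le _ _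
          _ ≤ ‖z + s‖ + ‖(n : ℂ)‖ + ‖(1 : ℂ)‖ := by gcongr; exact norm_sub_le _ _
          _ ≤ ‖z‖ + ‖s‖ + ‖(n : ℂ)‖ + ‖(1 : ℂ)‖ := by gcongr; exact norm_add_le _ _
          _ = ‖z‖ + ‖s‖ + n + 1 := by rw [norm_one, Complex.norm_natCast]
      nlinarith [norm_nonneg x, norm_nonneg y, norm_nonneg z]
    have p1 : M ^ (1 + D + D1) ≤ M ^ (1 + D + 2 * D1) := pow_le_pow_right₀ hM1 (by omega)
    have p2 : M ^ (2 * D1) ≤ M ^ (1 + D + 2 * D1) := pow_le_pow_right₀ hM1 (by omega)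
    have p3 : M ^ D ≤ M ^ (1 + D + 2 * D1) := pow_le_pow_right₀ hM1 (by omega)
    have p0 : 0 ≤ M ^ (1 + D + 2 * D1) := by positivity
    constructor
    · simp only [G]
      rw [e3, e3']
      have heq : ((z + s - n - 1) * g'.1 ^ 2 - g'.2.1) - ((z - n - 1) * g.1 ^ 2 - g.2.1) =
          (z + s - n - 1) * (g'.1 - g.1) * (g'.1 + g.1) + s * g.1 ^ 2 - (g'.2.1 - g.2.1) := by
        ring
      rw [heq]
      calc ‖(z + s - n - 1) * (g'.1 - g.1) * (g'.1 + g.1) + s * g.1 ^ 2 - (g'.2.1 - g.2.1)‖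
          ≤ ‖z + s - n - 1‖ * ‖g'.1 - g.1‖ * (‖g'.1‖ + ‖g.1‖) + ‖s‖ * ‖g.1‖ ^ 2 +
              ‖g'.2.1 - g.2.1‖ := by
            refine (norm_sub_le _ _).trans ?_
            gcongr
            refine (norm_add_le _ _).trans ?_
            rw [norm_mul, norm_mul, norm_mul, norm_pow]
            gcongr
            exact norm_add_le _ _
        _ ≤ ((n + 2) * M) * (‖s‖ * (C * M ^ D)) * (C1 * (2 * M) ^ D1 + C1 * M ^ D1) +
              ‖s‖ * (C1 * M ^ D1) ^ 2 + ‖s‖ * (C * M ^ D) := by gcongr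
        _ = ‖s‖ * ((n + 2) * C * (C1 * 2 ^ D1 + C1) * M ^ (1 + D + D1) +
              C1 ^ 2 * M ^ (2 * D1) + C * M ^ D) := by
            rw [mul_pow]
            ring
        _ ≤ ‖s‖ * ((n + 2) * C * (C1 * 2 ^ D1 + C1) * M ^ (1 + D + 2 * D1) +
              C1 ^ 2 * M ^ (1 + D + 2 * D1) + C * M ^ (1 + D + 2 * D1)) := by gcongr
        _ = ‖s‖ * (((n + 2) * C * (C1 * 2 ^ D1 + C1) + C1 ^ 2 + C) *
              M ^ (1 + D + 2 * D1)) := by ring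
    · simp only [G]
      refine h1.trans ?_
      apply mul_le_mul_of_nonneg_left _ hs0
      calc C * M ^ D ≤ C * M ^ (1 + D + 2 * D1) := by gcongr
        _ ≤ ((n + 2) * C * (C1 * 2 ^ D1 + C1) + C1 ^ 2 + C) * M ^ (1 + D + 2 * D1) := by
            apply mul_le_mul_of_nonneg_right _ p0
            have : 0 ≤ (n + 2) * C * (C1 * 2 ^ D1 + C1) + C1 ^ 2 := by positivity
            linarith

end Helper729.SAF.B3
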