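import Mathlib

/-!
Base file for MP_4eb9bb_ag: the automorphism `f(x,y,z) = (y, z y² - x, z+1)` of `ℂ³`.
-/

namespace Helper729.SAF

/-- the automorphism `f(x,y,z) = (y, z y² - x, z+1)` -/
def F (q : ℂ × ℂ × ℂ) : ℂ × ℂ × ℂ := (q.2.1, q.2.2 * q.2.1 ^ 2 - q.1, q.2.2 + 1)

/-- its inverse `(x,y,z) ↦ ((z-1) x² - y, x, z-1)` -/
def G (q : ℂ × ℂ × ℂ) : ℂ × ℂ × ℂ := ((q.2.2 - 1) * q.1 ^ 2 - q.2.1, q.1, q.2.2 - 1)

/-- evaluation of a polynomial in three variables at a point of `ℂ³` -/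
noncomputable def evq (P : MvPolynomial (Fin 3) ℂ) (q : ℂ × ℂ × ℂ) : ℂ :=
  MvPolynomial.eval ![q.1, q.2.1, q.2.2] P

/-- `q` is `δ`-near the point `p`: the denominator `P0` does not vanish at `q` and all the
local coordinates `R i / P0` have modulus at most `δ` at `q`. -/
def Near {ι : Type} (P0 : MvPolynomial (Fin 3) ℂ) (R : ι → MvPolynomial (Fin 3) ℂ)
    (δ : ℝ) (q : ℂ × ℂ × ℂ) : Prop :=
  evq P0 q ≠ 0 ∧ ∀ i, ‖evq (R i) q‖ ≤ δ * ‖evq P0 q‖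

/-- `H` is `κ y^m` plus terms of total degree `< m` (`y = X 1`). -/
def Pure {A : Type} [CommRing A] (m : ℕ) (κ : A) (H : MvPolynomial (Fin 2) A) : Prop :=
  κ ≠ 0 ∧ ∀ s ∈ (H - MvPolynomial.C κ * MvPolynomial.X 1 ^ m).support, s 0 + s 1 < m

/-- the sequence `x, y, c₀ y² - x, ...` -/
noncomputable def ySeq {A : Type} [CommRing A] (c : ℕ → A) : ℕ → MvPolynomial (Fin 2) A
  | 0 => MvPolynomial.X 0
  | 1 => MvPolynomial.X 1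
  | (n + 2) => MvPolynomial.C (c n) * (ySeq c (n + 1)) ^ 2 - ySeq c n


/-- analytic purity: `P ∘ F^n ≈ κ(z) y^m` in the region `|x| ≤ |y|`, `|y| ≥ 1`. -/
def PureAn (P : MvPolynomial (Fin 3) ℂ) (n m : ℕ) (κ : Polynomial ℂ) : Prop :=
  κ ≠ 0 ∧ ∃ (C : ℝ) (D : ℕ), 0 < C ∧ ∀ x y z : ℂ, ‖x‖ ≤ ‖y‖ → 1 ≤ ‖y‖ →
    ‖evq P (F^[n] (x, y, z)) - κ.eval z * y ^ m‖ * ‖y‖ ≤ C * (1 + ‖z‖) ^ D * ‖y‖ ^ m

/-- `TT c n i` is the `K`-span of the products `y_n^b y_{n-1}^{ε} ⋯ y_{n-i}^{ε'}` with exponents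
`ε ∈ {0,1}`, where `y_j = ySeq c (j+1)`. -/
noncomputable def TT {K : Type} [Field K] (c : ℕ → K) (n : ℕ) :
    ℕ → Submodule K (MvPolynomial (Fin 2) K)
  | 0 => Submodule.span K (Set.range fun b : ℕ => (ySeq c (n + 1)) ^ b)
  | (i + 1) => TT c n i ⊔ (TT c n i).map (LinearMap.mulLeft K (ySeq c (n - i)))


end Helper729.SAF
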