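import Pool.Agent.Helper729.SAF.Base

set_option autoImplicit false

namespace Helper729.SAF.C1

open Helper729.SAF



theorem near_mono_aux {ι : Type} (P0 : MvPolynomial (Fin 3) ℂ) (R : ι → MvPolynomial (Fin 3) ℂ)
    {δ δ' : ℝ} (h : δ ≤ δ') {q : ℂ × ℂ × ℂ} (hq : Near P0 R δ q) : Near P0 R δ' q :=
  ⟨hq.1, fun i => (hq.2 i).trans (mul_le_mul_of_nonneg_right h (norm_nonneg _))⟩

theorem orbit_superattracting {ι : Type} (P0 : MvPolynomial (Fin 3) ℂ)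
    (R : ι → MvPolynomial (Fin 3) ℂ)
    (h1 : ∀ δ : ℝ, 0 < δ → ∃ q, Near P0 R δ q)
    (h3 : ∃ (n1 : ℕ) (C r : ℝ), 1 ≤ n1 ∧ 0 < r ∧ ∀ q δ, 0 ≤ δ → δ ≤ r → Near P0 R δ q →
      Near P0 R (C * δ ^ 2) (F^[n1] q)) :
    ∃ (n1 : ℕ) (q : ℂ × ℂ × ℂ), 1 ≤ n1 ∧
      ∀ j : ℕ, Near P0 R ((1 / 2 : ℝ) ^ (2 ^ j)) (F^[n1 * j] q) := by
  obtain ⟨n1, C, r, hn1, hr, h⟩ := h3
  set C' : ℝ := max C 1 with hC'
  have hC1 : 1 ≤ C' := le_max_right _ _
  have hCC : C ≤ C' := le_max_left _ _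
  have hC0 : 0 < C' := by linarith
  set δ0 : ℝ := min r (1 / (2 * C')) with hδ0
  have hδpos : 0 < δ0 := lt_min hr (by positivity)
  have hδr : δ0 ≤ r := min_le_left _ _
  have hx0 : 0 ≤ C' * δ0 := by positivity
  have hx : C' * δ0 ≤ 1 / 2 := by
    have h2 : δ0 ≤ 1 / (2 * C') := min_le_right _ _
    calc C' * δ0 ≤ C' * (1 / (2 * C')) := mul_le_mul_of_nonneg_left h2 hC0.le
      _ = 1 / 2 := by field_simp
  obtain ⟨q, hq⟩ := h1 δ0 hδpos
  have key : ∀ j : ℕ, Near P0 R ((C' * δ0) ^ (2 ^ j) / C') (F^[n1 * j] q) := by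
    intro j
    induction j with
    | zero =>
      have e : (C' * δ0) ^ (2 ^ 0) / C' = δ0 := by
        rw [pow_zero, pow_one, mul_div_cancel_left₀ _ hC0.ne']
      rw [e, Nat.mul_zero]
      exact hq
    | succ j ih =>
      have hle : (C' * δ0) ^ (2 ^ j) / C' ≤ r := by
        have h5 : (C' * δ0) ^ (2 ^ j) ≤ C' * δ0 :=
          pow_le_of_le_one hx0 (by linarith) (by positivity)
        calc (C' * δ0) ^ (2 ^ j) / C' ≤ (C' * δ0) / C' :=
              div_le_div_of_nonneg_right h5 hC0.le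
          _ = δ0 := mul_div_cancel_left₀ _ hC0.ne'
          _ ≤ r := hδr
      have h6 := h _ _ (by positivity) hle ih
      have e : F^[n1 * (j + 1)] q = F^[n1] (F^[n1 * j] q) := by
        rw [← Function.iterate_add_apply, Nat.mul_succ, Nat.add_comm]
      rw [e]
      refine near_mono_aux P0 R ?_ h6
      have e2 : (C' * δ0) ^ (2 ^ (j + 1)) / C' = C' * ((C' * δ0) ^ (2 ^ j) / C') ^ 2 := by
        rw [pow_succ 2 j, pow_mul]
        field_simp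
      rw [e2]
      exact mul_le_mul_of_nonneg_right hCC (by positivity)
  refine ⟨n1, q, hn1, fun j => near_mono_aux P0 R ?_ (key j)⟩
  calc (C' * δ0) ^ (2 ^ j) / C' ≤ (C' * δ0) ^ (2 ^ j) / 1 :=
        div_le_div_of_nonneg_left (by positivity) one_pos hC1
    _ = (C' * δ0) ^ (2 ^ j) := div_one _
    _ ≤ (1 / 2) ^ (2 ^ j) := pow_le_pow_left₀ hx0 hx _

end Helper729.SAF.C1
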