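import Pool.Agent.Helper729.SAF.Base

set_option autoImplicit false

namespace Helper729.SAF.C2

open Helper729.SAF



theorem F_iter_zc (q : ℂ × ℂ × ℂ) (n : ℕ) : (F^[n] q).2.2 = q.2.2 + n := by
  induction n with
  | zero => simp
  | succ n ih =>
    rw [Function.iterate_succ_apply']
    show (F^[n] q).2.2 + 1 = _
    rw [ih]; push_cast; ring

theorem F_iter_x (q : ℂ × ℂ × ℂ) (n : ℕ) : (F^[n + 1] q).1 = (F^[n] q).2.1 := by
  rw [Function.iterate_succ_apply']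
  rfl

theorem orbit_enters {ι : Type} [Fintype ι] (P0 : MvPolynomial (Fin 3) ℂ)
    (R Q : ι → MvPolynomial (Fin 3) ℂ) (hQ : ∑ i, Q i * R i = 1)
    (growth : ∀ P : MvPolynomial (Fin 3) ℂ, ∃ (C : ℝ) (D : ℕ), 0 < C ∧ ∀ q : ℂ × ℂ × ℂ,
      ‖evq P q‖ ≤ C * (1 + ‖q.1‖ + ‖q.2.1‖ + ‖q.2.2‖) ^ D)
    (n1 : ℕ) (hn1 : 1 ≤ n1) (q : ℂ × ℂ × ℂ)
    (hq : ∀ j : ℕ, Near P0 R ((1 / 2 : ℝ) ^ (2 ^ j)) (F^[n1 * j] q)) (n' : ℕ) :
    ∃ n : ℕ, n' ≤ n ∧ ‖(F^[n] q).1‖ ≤ ‖(F^[n] q).2.1‖ ∧ 3 ≤ ‖(F^[n] q).2.1‖ := by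
  by_contra hcon
  push Not at hcon
  have hy : ∀ n, n' ≤ n → ‖(F^[n] q).2.1‖ ≤ max ‖(F^[n] q).1‖ 3 := by
    intro n hn
    by_cases h : ‖(F^[n] q).1‖ ≤ ‖(F^[n] q).2.1‖
    · exact (hcon n hn h).le.trans (le_max_right _ _)
    · push Not at h
      exact h.le.trans (le_max_left _ _)
  set B : ℝ := max ‖(F^[n'] q).1‖ 3 with hB
  have hx : ∀ n, n' ≤ n → ‖(F^[n] q).1‖ ≤ B := by
    intro n hn
    induction n, hn using Nat.le_induction with
    | base => exact le_max_left _ _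
    | succ n hn ih =>
      rw [F_iter_x]
      exact (hy n hn).trans (max_le ih (le_max_right _ _))
  have hyB : ∀ n, n' ≤ n → ‖(F^[n] q).2.1‖ ≤ B := fun n hn =>
    (hy n hn).trans (max_le (hx n hn) (le_max_right _ _))
  have hB3 : 3 ≤ B := le_max_right _ _
  choose C D hC hCD using fun i => growth (P0 * Q i)
  set a : ℝ := 1 + 2 * B + ‖q.2.2‖ with ha
  have ha1 : 1 ≤ a := by
    have := norm_nonneg q.2.2
    rw [ha]; linarith
  set K : ℝ := ∑ i, C i with hK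
  set DD : ℕ := ∑ i, D i with hDD
  have key : ∀ j : ℕ, n' ≤ j → 1 ≤ j → 1 ≤ K * (a + n1) ^ DD * ((j : ℝ) ^ DD * (1 / 2 : ℝ) ^ j) := by
    intro j hj hj1
    have hn : n' ≤ n1 * j := hj.trans (by nlinarith)
    set p := F^[n1 * j] q with hp
    obtain ⟨_, hnear⟩ := hq j
    have h1 : (1 : ℂ) = ∑ i, evq (Q i) p * evq (R i) p := by
      have := congrArg (fun P => evq P p) hQ
      simp only [evq, map_sum, map_mul, map_one] at this
      exact this.symm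
    have hX : 1 + ‖p.1‖ + ‖p.2.1‖ + ‖p.2.2‖ ≤ a + n1 * j := by
      have h2 : ‖p.2.2‖ ≤ ‖q.2.2‖ + (n1 * j : ℝ) := by
        rw [hp, F_iter_zc]
        refine (norm_add_le _ _).trans ?_
        rw [Complex.norm_natCast]
        push_cast
        exact le_rfl
      have h3 := hx _ hn
      have h4 := hyB _ hn
      rw [← hp] at h3 h4
      rw [ha]; linarith
    have hX0 : 0 ≤ 1 + ‖p.1‖ + ‖p.2.1‖ + ‖p.2.2‖ := by positivity
    have hjR : (1 : ℝ) ≤ j := by exact_mod_cast hj1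
    have hn1R : (1 : ℝ) ≤ n1 := by exact_mod_cast hn1
    have hX2 : a + n1 * j ≤ (a + n1) * j := by nlinarith
    have hY1 : 1 ≤ (a + n1) * j := by nlinarith
    have hterm : ∀ i, ‖evq (Q i) p * evq (R i) p‖ ≤
        C i * (((a + n1) * j) ^ DD * (1 / 2 : ℝ) ^ j) := by
      intro i
      have e1 : ‖evq (Q i) p * evq (R i) p‖ ≤ ‖evq (P0 * Q i) p‖ * (1 / 2 : ℝ) ^ (2 ^ j) := by
        have e2 : evq (P0 * Q i) p = evq P0 p * evq (Q i) p := by simp [evq]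
        rw [e2, norm_mul, norm_mul]
        have := mul_le_mul_of_nonneg_left (hnear i) (norm_nonneg (evq (Q i) p))
        calc _ ≤ _ := this
          _ = _ := by ring
      have e3 : (1 / 2 : ℝ) ^ (2 ^ j) ≤ (1 / 2 : ℝ) ^ j :=
        pow_le_pow_of_le_one (by norm_num) (by norm_num) (Nat.lt_two_pow_self).le
      have e4 : ‖evq (P0 * Q i) p‖ ≤ C i * ((a + n1) * j) ^ DD := by
        refine (hCD i p).trans ?_
        refine mul_le_mul_of_nonneg_left ?_ (hC i).le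
        calc (1 + ‖p.1‖ + ‖p.2.1‖ + ‖p.2.2‖) ^ D i ≤ ((a + n1) * j) ^ D i :=
              pow_le_pow_left₀ hX0 (hX.trans hX2) _
          _ ≤ ((a + n1) * j) ^ DD :=
              pow_le_pow_right₀ hY1 (Finset.single_le_sum (fun _ _ => Nat.zero_le _) (Finset.mem_univ i))
      calc _ ≤ _ := e1
        _ ≤ (C i * ((a + n1) * j) ^ DD) * (1 / 2 : ℝ) ^ j :=
            mul_le_mul e4 e3 (by positivity) (mul_nonneg (hC i).le (by positivity))
        _ = _ := by ring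
    calc (1 : ℝ) = ‖(1 : ℂ)‖ := by simp
      _ = ‖∑ i, evq (Q i) p * evq (R i) p‖ := by rw [← h1]
      _ ≤ ∑ i, ‖evq (Q i) p * evq (R i) p‖ := norm_sum_le _ _
      _ ≤ ∑ i, C i * (((a + n1) * j) ^ DD * (1 / 2 : ℝ) ^ j) := Finset.sum_le_sum (fun i _ => hterm i)
      _ = K * (a + n1) ^ DD * ((j : ℝ) ^ DD * (1 / 2 : ℝ) ^ j) := by
        rw [← Finset.sum_mul, mul_pow]; ring
  have hlim : Filter.Tendsto (fun j : ℕ => K * (a + n1) ^ DD * ((j : ℝ) ^ DD * (1 / 2 : ℝ) ^ j))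
      Filter.atTop (nhds 0) := by
    have := tendsto_pow_const_mul_const_pow_of_abs_lt_one DD (r := (1 / 2 : ℝ)) (by
      rw [abs_of_pos (by norm_num)]; norm_num)
    simpa using this.const_mul (K * (a + n1) ^ DD)
  have hev := (hlim.eventually (gt_mem_nhds (show (0 : ℝ) < 1 by norm_num))).and
    (Filter.eventually_ge_atTop (max n' 1))
  obtain ⟨j, hj1, hj2⟩ := hev.exists
  exact absurd (key j ((le_max_left _ _).trans hj2) ((le_max_right _ _).trans hj2)) (not_le.mpr hj1)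

end Helper729.SAF.C2
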