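import Pool.Agent.Helper729.SAF.Base

set_option autoImplicit false

namespace Helper729.SAF.C3

open Helper729.SAF



theorem escape_growth (x y z : ℂ) (hxy : ‖x‖ ≤ ‖y‖) (hy : 3 ≤ ‖y‖)
    (hz : ∀ m : ℕ, 1 ≤ ‖z + m‖) (m : ℕ) :
    ‖(F^[m] (x, y, z)).1‖ ≤ ‖(F^[m] (x, y, z)).2.1‖ ∧
    3 * 2 ^ m ≤ ‖(F^[m] (x, y, z)).2.1‖ ∧ (F^[m] (x, y, z)).2.2 = z + m := by
  induction m with
  | zero => simpa using ⟨hxy, hy⟩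
  | succ m ih =>
    rw [Function.iterate_succ_apply']
    obtain ⟨h1, h2, h3⟩ := ih
    set q := F^[m] (x, y, z) with hq
    have hpow : (1:ℝ) ≤ 2 ^ m := one_le_pow₀ (by norm_num)
    have hy3 : 3 ≤ ‖q.2.1‖ := by linarith
    have hzq : 1 ≤ ‖q.2.2‖ := by rw [h3]; exact hz m
    have hkey : 2 * ‖q.2.1‖ ≤ ‖q.2.2 * q.2.1 ^ 2 - q.1‖ := by
      have h4 : ‖q.2.2 * q.2.1 ^ 2‖ - ‖q.1‖ ≤ ‖q.2.2 * q.2.1 ^ 2 - q.1‖ := norm_sub_norm_le _ _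
      rw [norm_mul, norm_pow] at h4
      have h5 : ‖q.2.1‖ ^ 2 ≤ ‖q.2.2‖ * ‖q.2.1‖ ^ 2 := by
        have := mul_le_mul_of_nonneg_right hzq (sq_nonneg ‖q.2.1‖)
        linarith
      nlinarith
    refine ⟨?_, ?_, ?_⟩
    · show ‖q.2.1‖ ≤ ‖q.2.2 * q.2.1 ^ 2 - q.1‖
      linarith [norm_nonneg q.2.1]
    · show 3 * 2 ^ (m + 1) ≤ ‖q.2.2 * q.2.1 ^ 2 - q.1‖
      rw [pow_succ]; linarith
    · show q.2.2 + 1 = z + ((m + 1 : ℕ) : ℂ)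
      rw [h3]; push_cast; ring

end Helper729.SAF.C3
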