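import Pool.Agent.Helper729.SAF.Base

set_option autoImplicit false

namespace Helper729.SAF.C4

open Helper729.SAF



theorem dl_poly_bound (κ : Polynomial ℂ) :
    ∃ (K : ℝ) (D : ℕ), 0 < K ∧ ∀ z : ℂ, ‖κ.eval z‖ ≤ K * (1 + ‖z‖) ^ D := by
  refine ⟨∑ i ∈ Finset.range (κ.natDegree + 1), ‖κ.coeff i‖ + 1, κ.natDegree, by positivity,
    fun z => ?_⟩
  rw [Polynomial.eval_eq_sum_range]
  calc ‖∑ i ∈ Finset.range (κ.natDegree + 1), κ.coeff i * z ^ i‖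
      ≤ ∑ i ∈ Finset.range (κ.natDegree + 1), ‖κ.coeff i‖ * (1 + ‖z‖) ^ κ.natDegree := by
        refine (norm_sum_le _ _).trans (Finset.sum_le_sum fun i hi => ?_)
        rw [norm_mul, norm_pow]
        refine mul_le_mul_of_nonneg_left ?_ (norm_nonneg _)
        have hi' : i ≤ κ.natDegree := by have := Finset.mem_range.mp hi; omega
        calc ‖z‖ ^ i ≤ (1 + ‖z‖) ^ i := pow_le_pow_left₀ (norm_nonneg _) (by linarith) _
          _ ≤ _ := pow_le_pow_right₀ (by linarith [norm_nonneg z]) hi'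
    _ = (∑ i ∈ Finset.range (κ.natDegree + 1), ‖κ.coeff i‖) * (1 + ‖z‖) ^ κ.natDegree := by
        rw [Finset.sum_mul]
    _ ≤ _ := by gcongr; linarith

theorem dl_poly_low (κ : Polynomial ℂ) (hκ : κ ≠ 0) (z0 : ℂ) :
    ∃ a : ℝ, 0 < a ∧ ∀ᶠ M : ℕ in Filter.atTop, a ≤ ‖κ.eval (z0 + M)‖ := by
  by_cases hd : 0 < κ.degree
  · have hz : Filter.Tendsto (fun M : ℕ => ‖z0 + (M:ℂ)‖) Filter.atTop Filter.atTop := by
      refine Filter.tendsto_atTop_mono (f := fun M : ℕ => (M:ℝ) + (-‖z0‖)) (fun M => ?_)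
        (Filter.tendsto_atTop_add_const_right _ _ tendsto_natCast_atTop_atTop)
      have : ‖(M:ℂ)‖ ≤ ‖z0 + M‖ + ‖z0‖ := by
        have := norm_sub_le (z0 + (M:ℂ)) z0
        simpa using this
      rw [Complex.norm_natCast] at this
      linarith
    exact ⟨1, one_pos, (κ.tendsto_norm_atTop hd hz).eventually_ge_atTop 1⟩
  · have h := Polynomial.eq_C_of_degree_le_zero (not_lt.mp hd)
    refine ⟨‖κ.coeff 0‖, norm_pos_iff.mpr ?_, Filter.Eventually.of_forall fun M => ?_⟩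
    · intro h0
      apply hκ
      rw [h, h0]
      simp
    · have : κ.eval (z0 + M) = κ.coeff 0 := by
        rw [h]; simp
      rw [this]

theorem dl_lim (A B : ℕ) (D : ℕ) (K : ℝ) :
    Filter.Tendsto (fun j : ℕ => K * ((A : ℝ) + B * j) ^ D * (1 / 2 : ℝ) ^ j) Filter.atTop
      (nhds 0) := by
  have h1 : Filter.Tendsto (fun j : ℕ => |K| * ((1:ℝ) + B) ^ D * ((j : ℝ) ^ D * (1 / 2 : ℝ) ^ j))
      Filter.atTop (nhds 0) := by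
    have := (tendsto_pow_const_mul_const_pow_of_abs_lt_one D
      (r := (1 / 2 : ℝ)) (by rw [abs_of_pos] <;> norm_num)).const_mul (|K| * ((1:ℝ) + B) ^ D)
    simpa using this
  refine squeeze_zero_norm' ?_ h1
  filter_upwards [Filter.eventually_ge_atTop A] with j hj
  rw [norm_mul, norm_mul, Real.norm_eq_abs, Real.norm_of_nonneg (by positivity),
    Real.norm_of_nonneg (by positivity)]
  have : ((A : ℝ) + B * j) ^ D ≤ ((1:ℝ) + B) ^ D * (j : ℝ) ^ D := by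
    rw [← mul_pow]
    refine pow_le_pow_left₀ (by positivity) ?_ _
    have : (A : ℝ) ≤ j := by exact_mod_cast hj
    nlinarith
  calc |K| * ((A : ℝ) + B * j) ^ D * (1 / 2 : ℝ) ^ j
      ≤ |K| * (((1:ℝ) + B) ^ D * (j : ℝ) ^ D) * (1 / 2 : ℝ) ^ j := by gcongr
    _ = _ := by ring

theorem degree_lt (P0 R : MvPolynomial (Fin 3) ℂ) (n0 m0 mR : ℕ) (κ0 κR : Polynomial ℂ)
    (h0 : PureAn P0 n0 m0 κ0) (hR : PureAn R n0 mR κR)
    (n1 : ℕ) (hn1 : 1 ≤ n1) (q : ℂ × ℂ × ℂ)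
    (hq : ∀ j : ℕ, evq P0 (F^[n1 * j] q) ≠ 0 ∧
      ‖evq R (F^[n1 * j] q)‖ ≤ (1 / 2 : ℝ) ^ (2 ^ j) * ‖evq P0 (F^[n1 * j] q)‖)
    (n : ℕ)
    (hesc : ∀ m : ℕ, ‖(F^[n + m] q).1‖ ≤ ‖(F^[n + m] q).2.1‖ ∧ 3 * 2 ^ m ≤ ‖(F^[n + m] q).2.1‖)
    (hz : ∀ m : ℕ, (F^[m] q).2.2 = q.2.2 + m) :
    mR < m0 := by
  by_contra hcon
  have hle : m0 ≤ mR := not_lt.mp hcon
  obtain ⟨-, C0, D0, hC0, hP⟩ := h0
  obtain ⟨hκR, CR, DR, hCR, hRR⟩ := hR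
  obtain ⟨K, D, hK, hκ0⟩ := dl_poly_bound κ0
  obtain ⟨a, ha, hlow⟩ := dl_poly_low κR hκR q.2.2
  obtain ⟨c, hc⟩ := exists_nat_ge (1 + ‖q.2.2‖)
  have hzb : ∀ m : ℕ, 1 + ‖(F^[m] q).2.2‖ ≤ c + m := by
    intro m
    rw [hz]
    have := norm_add_le q.2.2 (m : ℂ)
    rw [Complex.norm_natCast] at this
    linarith
  have hE2 := (dl_lim c 1 DR (CR * 2 ^ n)).eventually (gt_mem_nhds (half_pos ha))
  have hE3 := (dl_lim c n1 D K).eventually (gt_mem_nhds (show (0:ℝ) < a / 4 by linarith))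
  have hE4 := (dl_lim c n1 D0 C0).eventually (gt_mem_nhds (show (0:ℝ) < a / 4 by linarith))
  obtain ⟨N1, hN1⟩ := Filter.eventually_atTop.mp (hlow.and hE2)
  obtain ⟨N2, hN2⟩ := Filter.eventually_atTop.mp (hE3.and hE4)
  set j := N1 + N2 + n + n0 with hj
  have hM : ∃ M, n1 * j = n0 + M ∧ N1 ≤ M ∧ n ≤ M ∧ M ≤ n1 * j := by
    refine ⟨n1 * j - n0, ?_, ?_, ?_, ?_⟩ <;>
    · have : j ≤ n1 * j := Nat.le_mul_of_pos_left _ hn1
      omega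
  obtain ⟨M, hM1, hM2, hM3, hM4⟩ := hM
  obtain ⟨hlowM, hE2M⟩ := hN1 M hM2
  obtain ⟨hE3j, hE4j⟩ := hN2 j (by omega)
  obtain ⟨m, rfl⟩ := Nat.exists_eq_add_of_le hM3
  obtain ⟨hxy, hy⟩ := hesc m
  have hq1 := (hq j).2
  rw [hM1, Function.iterate_add_apply] at hq1
  have hzM := hzb (n + m)
  have hzz := hz (n + m)
  set p := F^[n + m] q with hp
  obtain ⟨x, y, z⟩ := p
  simp only at hxy hy hzM hzz
  have hy1 : 1 ≤ ‖y‖ := by
    have : (1:ℝ) ≤ 2 ^ m := one_le_pow₀ (by norm_num)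
    linarith
  have hy0 : 0 < ‖y‖ := by linarith
  have hP1 := hP x y z hxy hy1
  have hR1 := hRR x y z hxy hy1
  have hκ0z := hκ0 z
  rw [← hzz] at hlowM
  set eP := evq P0 (F^[n0] (x, y, z)) with heP
  set eR := evq R (F^[n0] (x, y, z)) with heR
  have hYm : 0 < ‖y‖ ^ mR := by positivity
  -- upper bound for P0
  have hcM : (1 + ‖z‖) ≤ (c : ℝ) + n1 * j := by
    refine hzM.trans ?_
    have : ((n + m : ℕ) : ℝ) ≤ (n1 * j : ℕ) := by exact_mod_cast hM4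
    push_cast at this ⊢
    linarith
  have hz0 : 0 ≤ 1 + ‖z‖ := by positivity
  have hPup : ‖eP‖ ≤ (K * ((c : ℝ) + n1 * j) ^ D + C0 * ((c : ℝ) + n1 * j) ^ D0) * ‖y‖ ^ mR := by
    have h2 : ‖eP - κ0.eval z * y ^ m0‖ ≤ C0 * (1 + ‖z‖) ^ D0 * ‖y‖ ^ m0 := by
      refine le_trans ?_ hP1
      exact le_mul_of_one_le_right (norm_nonneg _) hy1
    have h3 : ‖eP‖ ≤ ‖κ0.eval z * y ^ m0‖ + ‖eP - κ0.eval z * y ^ m0‖ := by
      have := norm_add_le (κ0.eval z * y ^ m0) (eP - κ0.eval z * y ^ m0)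
      simpa using this
    rw [norm_mul, norm_pow] at h3
    have h4 : ‖y‖ ^ m0 ≤ ‖y‖ ^ mR := pow_le_pow_right₀ hy1 hle
    have h5 : (1 + ‖z‖) ^ D0 ≤ ((c : ℝ) + n1 * j) ^ D0 := pow_le_pow_left₀ hz0 hcM _
    have h6 : (1 + ‖z‖) ^ D ≤ ((c : ℝ) + n1 * j) ^ D := pow_le_pow_left₀ hz0 hcM _
    calc ‖eP‖ ≤ ‖κ0.eval z‖ * ‖y‖ ^ m0 + C0 * (1 + ‖z‖) ^ D0 * ‖y‖ ^ m0 := by linarith
      _ ≤ (K * ((c : ℝ) + n1 * j) ^ D) * ‖y‖ ^ mR + (C0 * ((c : ℝ) + n1 * j) ^ D0) * ‖y‖ ^ mR := by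
          have h7 : ‖κ0.eval z‖ ≤ K * ((c : ℝ) + n1 * j) ^ D :=
            hκ0z.trans (by gcongr)
          gcongr
      _ = _ := by ring
  -- lower bound for R
  have hRlow : (a / 2) * ‖y‖ ^ mR ≤ ‖eR‖ := by
    have h2 : ‖κR.eval z * y ^ mR‖ ≤ ‖eR‖ + ‖eR - κR.eval z * y ^ mR‖ := by
      have := norm_sub_le eR (eR - κR.eval z * y ^ mR)
      simpa using this
    rw [norm_mul, norm_pow] at h2
    have h3 : ‖eR - κR.eval z * y ^ mR‖ ≤ (a / 2) * ‖y‖ ^ mR := by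
      have h4 : ‖eR - κR.eval z * y ^ mR‖ * ‖y‖ ≤ ((a / 2) * ‖y‖ ^ mR) * ‖y‖ := by
        refine hR1.trans ?_
        have h5 : CR * (1 + ‖z‖) ^ DR ≤ a / 2 * ‖y‖ := by
          have h6 : (1 + ‖z‖) ^ DR ≤ ((c : ℝ) + (1 : ℕ) * ((n + m : ℕ) : ℝ)) ^ DR := by
            refine pow_le_pow_left₀ hz0 ?_ _
            simpa using hzM
          have h7 : CR * 2 ^ n * ((c : ℝ) + (1 : ℕ) * ((n + m : ℕ) : ℝ)) ^ DR *
              (1 / 2 : ℝ) ^ (n + m) < a / 2 := hE2M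
          have h8 : CR * 2 ^ n * ((c : ℝ) + (1 : ℕ) * ((n + m : ℕ) : ℝ)) ^ DR *
              (1 / 2 : ℝ) ^ (n + m) * 2 ^ m =
              CR * ((c : ℝ) + (1 : ℕ) * ((n + m : ℕ) : ℝ)) ^ DR := by
            rw [pow_add, one_div, inv_pow, inv_pow]
            field_simp
          have h9 : (0:ℝ) < 2 ^ m := by positivity
          have h10 := mul_lt_mul_of_pos_right h7 h9
          rw [h8] at h10
          have h11 : a / 2 * (2:ℝ) ^ m ≤ a / 2 * ‖y‖ := by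
            refine mul_le_mul_of_nonneg_left ?_ (by linarith)
            linarith
          have h12 : CR * (1 + ‖z‖) ^ DR ≤ CR * ((c : ℝ) + (1 : ℕ) * ((n + m : ℕ) : ℝ)) ^ DR :=
            mul_le_mul_of_nonneg_left h6 hCR.le
          exact (h12.trans_lt (h10.trans_le h11)).le
        calc CR * (1 + ‖z‖) ^ DR * ‖y‖ ^ mR ≤ (a / 2 * ‖y‖) * ‖y‖ ^ mR :=
              mul_le_mul_of_nonneg_right h5 hYm.le
          _ = _ := by ring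
      exact le_of_mul_le_mul_right h4 hy0
    have h5 : a * ‖y‖ ^ mR ≤ ‖κR.eval z‖ * ‖y‖ ^ mR := mul_le_mul_of_nonneg_right hlowM hYm.le
    linarith
  have hpow : (1 / 2 : ℝ) ^ (2 ^ j) ≤ (1 / 2 : ℝ) ^ j :=
    pow_le_pow_of_le_one (by norm_num) (by norm_num) Nat.lt_two_pow_self.le
  have hfin : (a / 2) * ‖y‖ ^ mR ≤ ((1 / 2 : ℝ) ^ j *
      (K * ((c : ℝ) + n1 * j) ^ D + C0 * ((c : ℝ) + n1 * j) ^ D0)) * ‖y‖ ^ mR := by
    calc (a / 2) * ‖y‖ ^ mR ≤ ‖eR‖ := hRlow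
      _ ≤ (1 / 2 : ℝ) ^ (2 ^ j) * ‖eP‖ := hq1
      _ ≤ (1 / 2 : ℝ) ^ j * ((K * ((c : ℝ) + n1 * j) ^ D + C0 * ((c : ℝ) + n1 * j) ^ D0) *
            ‖y‖ ^ mR) := mul_le_mul hpow hPup (norm_nonneg _) (by positivity)
      _ = _ := by ring
  have hfin2 := le_of_mul_le_mul_right hfin hYm
  have hE3j' : K * ((c : ℝ) + n1 * j) ^ D * (1 / 2 : ℝ) ^ j < a / 4 := hE3j
  have hE4j' : C0 * ((c : ℝ) + n1 * j) ^ D0 * (1 / 2 : ℝ) ^ j < a / 4 := hE4j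
  nlinarith

end Helper729.SAF.C4
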