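import Pool.Agent.Helper729.SAF.Base

set_option autoImplicit false

namespace Helper729.SAF.D1

open Helper729.SAF



theorem dominate_fibre {ι : Type} [Fintype ι] (P0 : MvPolynomial (Fin 3) ℂ)
    (R : ι → MvPolynomial (Fin 3) ℂ) (n0 m0 : ℕ) (κ0 : Polynomial ℂ)
    (h0 : PureAn P0 n0 m0 κ0)
    (hR : ∀ i, R i = 0 ∨ ∃ (mi : ℕ) (κi : Polynomial ℂ), mi < m0 ∧ PureAn (R i) n0 mi κi)
    (z0 : ℂ) (hz0 : ∀ s : ℂ, ‖s‖ ≤ 1 / 2 → κ0.eval (z0 + s) ≠ 0) :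
    ∃ (C R0 : ℝ), 0 < C ∧ 1 ≤ R0 ∧ ∀ x y s : ℂ, ‖s‖ ≤ 1 / 2 → ‖x‖ ≤ ‖y‖ → R0 ≤ ‖y‖ →
      Near P0 R (C / ‖y‖) (F^[n0] (x, y, z0 + s)) := by
  classical
  obtain ⟨hκ0, C0, D0, hC0, H0⟩ := h0
  have hKc : IsCompact (Metric.closedBall (0:ℂ) (1 / 2)) := isCompact_closedBall _ _
  have hKne : (Metric.closedBall (0:ℂ) (1 / 2)).Nonempty := ⟨0, by simp⟩
  have hcont : ∀ κ : Polynomial ℂ, Continuous fun s : ℂ => ‖κ.eval (z0 + s)‖ := fun κ =>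
    (κ.continuous.comp (continuous_const.add continuous_id)).norm
  have hmem : ∀ s : ℂ, ‖s‖ ≤ 1 / 2 → s ∈ Metric.closedBall (0:ℂ) (1 / 2) := by
    intro s hs
    rw [mem_closedBall_zero_iff]; exact hs
  obtain ⟨s1, hs1, hmin⟩ := hKc.exists_isMinOn hKne (hcont κ0).continuousOn
  set a : ℝ := ‖κ0.eval (z0 + s1)‖ with ha
  have hapos : 0 < a := norm_pos_iff.2 (hz0 s1 (by rwa [mem_closedBall_zero_iff] at hs1))
  have hamin : ∀ s : ℂ, ‖s‖ ≤ 1 / 2 → a ≤ ‖κ0.eval (z0 + s)‖ := fun s hs => hmin (hmem s hs)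
  have hbase : ∀ (s : ℂ), ‖s‖ ≤ 1 / 2 → ∀ D : ℕ, (1 + ‖z0 + s‖) ^ D ≤ (2 + ‖z0‖) ^ D := by
    intro s hs D
    have h1 : ‖z0 + s‖ ≤ ‖z0‖ + ‖s‖ := norm_add_le _ _
    exact pow_le_pow_left₀ (by positivity) (by linarith) D
  set E0 : ℝ := C0 * (2 + ‖z0‖) ^ D0 with hE0
  have hE0pos : 0 < E0 := by positivity
  have hP0 : ∀ x y s : ℂ, ‖s‖ ≤ 1 / 2 → ‖x‖ ≤ ‖y‖ → max 1 (2 * E0 / a) ≤ ‖y‖ →
      (a / 2) * ‖y‖ ^ m0 ≤ ‖evq P0 (F^[n0] (x, y, z0 + s))‖ := by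
    intro x y s hs hxy hy
    have hy1 : 1 ≤ ‖y‖ := (le_max_left _ _).trans hy
    have hy2 : 2 * E0 / a ≤ ‖y‖ := (le_max_right _ _).trans hy
    have hypos : 0 < ‖y‖ := by linarith
    have h1 := H0 x y (z0 + s) hxy hy1
    have h2 : C0 * (1 + ‖z0 + s‖) ^ D0 ≤ E0 := mul_le_mul_of_nonneg_left (hbase s hs D0) hC0.le
    have h3 : ‖evq P0 (F^[n0] (x, y, z0 + s)) - κ0.eval (z0 + s) * y ^ m0‖ * ‖y‖ ≤
        E0 * ‖y‖ ^ m0 := h1.trans (mul_le_mul_of_nonneg_right h2 (by positivity))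
    have h4 : E0 ≤ (a / 2) * ‖y‖ := by
      rw [div_le_iff₀ hapos] at hy2
      linarith
    have h5 : ‖evq P0 (F^[n0] (x, y, z0 + s)) - κ0.eval (z0 + s) * y ^ m0‖ ≤
        (a / 2) * ‖y‖ ^ m0 := by
      have h6 : ‖evq P0 (F^[n0] (x, y, z0 + s)) - κ0.eval (z0 + s) * y ^ m0‖ * ‖y‖ ≤
          ((a / 2) * ‖y‖ ^ m0) * ‖y‖ := by
        refine h3.trans ?_
        calc E0 * ‖y‖ ^ m0 ≤ ((a / 2) * ‖y‖) * ‖y‖ ^ m0 :=
              mul_le_mul_of_nonneg_right h4 (by positivity)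
          _ = _ := by ring
      exact le_of_mul_le_mul_right h6 hypos
    have h7 : ‖κ0.eval (z0 + s) * y ^ m0‖ ≤ ‖evq P0 (F^[n0] (x, y, z0 + s))‖ +
        ‖evq P0 (F^[n0] (x, y, z0 + s)) - κ0.eval (z0 + s) * y ^ m0‖ := by
      have := norm_sub_le (evq P0 (F^[n0] (x, y, z0 + s)))
        (evq P0 (F^[n0] (x, y, z0 + s)) - κ0.eval (z0 + s) * y ^ m0)
      rwa [sub_sub_cancel] at this
    rw [norm_mul, norm_pow] at h7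
    have h8 : a * ‖y‖ ^ m0 ≤ ‖κ0.eval (z0 + s)‖ * ‖y‖ ^ m0 :=
      mul_le_mul_of_nonneg_right (hamin s hs) (by positivity)
    linarith
  have hRi : ∀ i, ∃ K : ℝ, 0 ≤ K ∧ ∀ x y s : ℂ, ‖s‖ ≤ 1 / 2 → ‖x‖ ≤ ‖y‖ → 1 ≤ ‖y‖ →
      ‖evq (R i) (F^[n0] (x, y, z0 + s))‖ * ‖y‖ ≤ K * ‖y‖ ^ m0 := by
    intro i
    rcases hR i with h | ⟨mi, κi, hmi, hκi, Ci, Di, hCi, Hi⟩
    · refine ⟨0, le_rfl, fun x y s _ _ _ => ?_⟩
      rw [h]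
      simp [evq]
    · obtain ⟨s2, hs2, hmax⟩ := hKc.exists_isMaxOn hKne (hcont κi).continuousOn
      set b : ℝ := ‖κi.eval (z0 + s2)‖ with hb
      have hbmax : ∀ s : ℂ, ‖s‖ ≤ 1 / 2 → ‖κi.eval (z0 + s)‖ ≤ b := fun s hs => hmax (hmem s hs)
      set Ei : ℝ := Ci * (2 + ‖z0‖) ^ Di with hEi
      have hEipos : 0 < Ei := by positivity
      refine ⟨b + Ei, by positivity, fun x y s hs hxy hy1 => ?_⟩
      have hypos : 0 < ‖y‖ := by linarith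
      have h1 := Hi x y (z0 + s) hxy hy1
      have h2 : Ci * (1 + ‖z0 + s‖) ^ Di ≤ Ei := mul_le_mul_of_nonneg_left (hbase s hs Di) hCi.le
      have h3 : ‖evq (R i) (F^[n0] (x, y, z0 + s)) - κi.eval (z0 + s) * y ^ mi‖ * ‖y‖ ≤
          Ei * ‖y‖ ^ mi := h1.trans (mul_le_mul_of_nonneg_right h2 (by positivity))
      have h4 : ‖evq (R i) (F^[n0] (x, y, z0 + s))‖ ≤
          ‖evq (R i) (F^[n0] (x, y, z0 + s)) - κi.eval (z0 + s) * y ^ mi‖ +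
            ‖κi.eval (z0 + s)‖ * ‖y‖ ^ mi := by
        rw [← norm_pow, ← norm_mul]
        have := norm_add_le (evq (R i) (F^[n0] (x, y, z0 + s)) - κi.eval (z0 + s) * y ^ mi)
          (κi.eval (z0 + s) * y ^ mi)
        rwa [sub_add_cancel] at this
      have h5 : ‖κi.eval (z0 + s)‖ * ‖y‖ ^ mi ≤ b * ‖y‖ ^ mi :=
        mul_le_mul_of_nonneg_right (hbmax s hs) (by positivity)
      have h6 : ‖evq (R i) (F^[n0] (x, y, z0 + s))‖ * ‖y‖ ≤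
          Ei * ‖y‖ ^ mi + b * ‖y‖ ^ mi * ‖y‖ := by
        calc ‖evq (R i) (F^[n0] (x, y, z0 + s))‖ * ‖y‖ ≤
            (‖evq (R i) (F^[n0] (x, y, z0 + s)) - κi.eval (z0 + s) * y ^ mi‖ +
              b * ‖y‖ ^ mi) * ‖y‖ :=
              mul_le_mul_of_nonneg_right (by linarith) hypos.le
          _ = ‖evq (R i) (F^[n0] (x, y, z0 + s)) - κi.eval (z0 + s) * y ^ mi‖ * ‖y‖ +
              b * ‖y‖ ^ mi * ‖y‖ := by ring
          _ ≤ _ := by linarith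
      have h7 : ‖y‖ ^ mi * ‖y‖ ≤ ‖y‖ ^ m0 := by
        rw [← pow_succ]
        exact pow_le_pow_right₀ hy1 hmi
      have h8 : ‖y‖ ^ mi ≤ ‖y‖ ^ m0 := pow_le_pow_right₀ hy1 hmi.le
      have hb0 : 0 ≤ b := norm_nonneg _
      calc ‖evq (R i) (F^[n0] (x, y, z0 + s))‖ * ‖y‖ ≤ Ei * ‖y‖ ^ mi + b * ‖y‖ ^ mi * ‖y‖ := h6
        _ = Ei * ‖y‖ ^ mi + b * (‖y‖ ^ mi * ‖y‖) := by ring
        _ ≤ Ei * ‖y‖ ^ m0 + b * ‖y‖ ^ m0 :=
            add_le_add (mul_le_mul_of_nonneg_left h8 hEipos.le) (mul_le_mul_of_nonneg_left h7 hb0)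
        _ = _ := by ring
  choose K hK0 hK using hRi
  set C : ℝ := 1 + (2 / a) * ∑ i, K i with hC
  have hsum0 : 0 ≤ ∑ i, K i := Finset.sum_nonneg fun i _ => hK0 i
  have hCpos : 0 < C := by positivity
  refine ⟨C, max 1 (2 * E0 / a), hCpos, le_max_left _ _, fun x y s hs hxy hy => ?_⟩
  have hy1 : 1 ≤ ‖y‖ := (le_max_left _ _).trans hy
  have hypos : 0 < ‖y‖ := by linarith
  have h1 := hP0 x y s hs hxy hy
  constructor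
  · have h2 : 0 < (a / 2) * ‖y‖ ^ m0 := by positivity
    exact norm_pos_iff.1 (lt_of_lt_of_le h2 h1)
  · intro i
    have h2 := hK i x y s hs hxy hy1
    have h3 : K i ≤ ∑ i, K i := Finset.single_le_sum (fun i _ => hK0 i) (Finset.mem_univ i)
    rw [div_mul_eq_mul_div, le_div_iff₀ hypos]
    have h4 : ‖y‖ ^ m0 ≤ (2 / a) * ‖evq P0 (F^[n0] (x, y, z0 + s))‖ := by
      rw [div_mul_eq_mul_div, le_div_iff₀ hapos]
      linarith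
    calc ‖evq (R i) (F^[n0] (x, y, z0 + s))‖ * ‖y‖ ≤ K i * ‖y‖ ^ m0 := h2
      _ ≤ K i * ((2 / a) * ‖evq P0 (F^[n0] (x, y, z0 + s))‖) :=
          mul_le_mul_of_nonneg_left h4 (hK0 i)
      _ ≤ (∑ i, K i) * ((2 / a) * ‖evq P0 (F^[n0] (x, y, z0 + s))‖) :=
          mul_le_mul_of_nonneg_right h3 (by positivity)
      _ = ((2 / a) * ∑ i, K i) * ‖evq P0 (F^[n0] (x, y, z0 + s))‖ := by ring
      _ ≤ C * ‖evq P0 (F^[n0] (x, y, z0 + s))‖ :=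
          mul_le_mul_of_nonneg_right (by rw [hC]; linarith) (norm_nonneg _)

end Helper729.SAF.D1
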