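import Pool.Agent.Helper729.SAF.Base

set_option autoImplicit false

namespace Helper729.SAF.E1

open Helper729.SAF



theorem exists_zero_of_lt (h : ℂ → ℂ) (hh : Differentiable ℂ h) (ρ : ℝ) (hρ : 0 < ρ)
    (hb : ∀ s : ℂ, ‖s‖ = ρ → ‖h 0‖ < ‖h s‖) : ∃ s : ℂ, ‖s‖ < ρ ∧ h s = 0 := by
  by_contra hcon
  push Not at hcon
  have hne : ∀ s ∈ closure (Metric.ball (0 : ℂ) ρ), h s ≠ 0 := by
    intro s hs
    rw [closure_ball _ hρ.ne', Metric.mem_closedBall, dist_zero_right] at hs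
    rcases hs.lt_or_eq with h1 | h1
    · exact hcon s h1
    · intro h2
      have h3 := hb s h1
      rw [h2, norm_zero] at h3
      exact absurd h3 (not_lt.2 (norm_nonneg _))
  have hd : DiffContOnCl ℂ (fun s => (h s)⁻¹) (Metric.ball (0 : ℂ) ρ) := by
    refine ⟨?_, ?_⟩
    · intro s hs
      exact ((hh s).inv (hne s (subset_closure hs))).differentiableWithinAt
    · exact hh.continuous.continuousOn.inv₀ hne
  obtain ⟨z, hz, hmax⟩ := Complex.exists_mem_frontier_isMaxOn_norm Metric.isBounded_ball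
    ⟨0, Metric.mem_ball_self hρ⟩ hd
  rw [frontier_ball _ hρ.ne', mem_sphere_zero_iff_norm] at hz
  have h1 : ‖(h 0)⁻¹‖ ≤ ‖(h z)⁻¹‖ := hmax (subset_closure (Metric.mem_ball_self hρ))
  have h2 := hb z hz
  have h0 : 0 < ‖h 0‖ := norm_pos_iff.2 (hcon 0 (by simpa using hρ))
  rw [norm_inv, norm_inv] at h1
  exact absurd (inv_strictAnti₀ h0 h2) (not_lt.2 h1)

end Helper729.SAF.E1
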