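import Pool.Agent.Helper729.SAF.Base

set_option autoImplicit false

namespace Helper729.SAF.E2

open Helper729.SAF




theorem back_step (x y z c : ℂ) (hc : 1 ≤ ‖c‖) (hz : z = c * y ^ 2 - x) (h0 : ‖x‖ ≤ ‖y‖)
    (h1 : 2 ≤ ‖y‖) : ‖y‖ ^ 2 / 2 ≤ ‖z‖ := by
  have h2 : ‖c * y ^ 2‖ - ‖x‖ ≤ ‖z‖ := by
    rw [hz]; exact norm_sub_norm_le _ _
  rw [norm_mul, norm_pow] at h2
  have h3 : ‖y‖ ^ 2 ≤ ‖c‖ * ‖y‖ ^ 2 := by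
    nlinarith [sq_nonneg ‖y‖]
  nlinarith

theorem back_growth (a c : ℕ → ℂ) (m : ℕ) (hc : ∀ j, j < m → 1 ≤ ‖c j‖)
    (ha : ∀ j, j < m → a (j + 2) = c j * a (j + 1) ^ 2 - a j)
    (h0 : ‖a 0‖ ≤ ‖a 1‖) (h1 : 2 ≤ ‖a 1‖) :
    (∀ j, j < m → ‖a (j + 1)‖ ^ 2 / 2 ≤ ‖a (j + 2)‖) ∧
    (∀ j, j ≤ m → ‖a j‖ ≤ ‖a (j + 1)‖ ∧ 2 ≤ ‖a (j + 1)‖ ∧
      (‖a 1‖ / 2) ^ (2 ^ j) ≤ ‖a (j + 1)‖ / 2) := by
  have key : ∀ j, j ≤ m → ‖a j‖ ≤ ‖a (j + 1)‖ ∧ 2 ≤ ‖a (j + 1)‖ ∧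
      (‖a 1‖ / 2) ^ (2 ^ j) ≤ ‖a (j + 1)‖ / 2 := by
    intro j
    induction j with
    | zero => intro _; exact ⟨h0, h1, by simp⟩
    | succ j ih =>
      intro hj
      obtain ⟨i1, i2, i3⟩ := ih (by omega)
      have hs := back_step (a j) (a (j + 1)) (a (j + 2)) (c j) (hc j (by omega))
        (ha j (by omega)) i1 i2
      have e1 : ‖a (j + 1)‖ ≤ ‖a (j + 2)‖ := by nlinarith
      refine ⟨e1, le_trans i2 e1, ?_⟩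
      have hpos : 0 ≤ (‖a 1‖ / 2) ^ (2 ^ j) := by positivity
      calc (‖a 1‖ / 2) ^ (2 ^ (j + 1)) = ((‖a 1‖ / 2) ^ (2 ^ j)) ^ 2 := by
            rw [← pow_mul, pow_succ]
        _ ≤ (‖a (j + 1)‖ / 2) ^ 2 := pow_le_pow_left₀ hpos i3 2
        _ ≤ ‖a (j + 2)‖ / 2 := by nlinarith
  refine ⟨fun j hj => ?_, key⟩
  obtain ⟨i1, i2, _⟩ := key j hj.le
  exact back_step (a j) (a (j + 1)) (a (j + 2)) (c j) (hc j hj) (ha j hj) i1 i2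

theorem back_perturb_step (x x' y y' z z' c s : ℂ) (K φ : ℝ) (hc1 : 1 ≤ ‖c‖) (hcK : ‖c‖ ≤ K)
    (hz : z = c * y ^ 2 - x) (hz' : z' = (c + s) * y' ^ 2 - x')
    (h0 : ‖x‖ ≤ ‖y‖) (h1 : 2 ≤ ‖y‖) (hφ0 : 0 ≤ φ) (hφ1 : φ ≤ 1) (hs : 8 * ‖s‖ ≤ φ)
    (hy : ‖y' - y‖ ≤ φ * ‖y‖) (hx : ‖x' - x‖ ≤ φ * ‖y‖) :
    ‖z' - z‖ ≤ (6 * K + 3) * φ * ‖z‖ := by
  have hz2 := back_step x y z c hc1 hz h0 h1
  have hK : 1 ≤ K := le_trans hc1 hcK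
  have e : z' - z = c * ((y' - y) * (y' + y)) + s * y' ^ 2 - (x' - x) := by
    rw [hz, hz']; ring
  have hyy : ‖y' + y‖ ≤ 3 * ‖y‖ := by
    have : y' + y = (y' - y) + (2 : ℂ) * y := by ring
    rw [this]
    refine (norm_add_le _ _).trans ?_
    rw [norm_mul]
    have h2 : ‖(2 : ℂ)‖ = 2 := by simp
    rw [h2]
    nlinarith
  have hy' : ‖y'‖ ≤ 2 * ‖y‖ := by
    have : y' = (y' - y) + y := by ring
    rw [this]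
    refine (norm_add_le _ _).trans ?_
    nlinarith
  have t1 : ‖c * ((y' - y) * (y' + y))‖ ≤ K * (3 * φ * ‖y‖ ^ 2) := by
    rw [norm_mul, norm_mul]
    have : ‖y' - y‖ * ‖y' + y‖ ≤ (φ * ‖y‖) * (3 * ‖y‖) :=
      mul_le_mul hy hyy (norm_nonneg _) (by positivity)
    calc ‖c‖ * (‖y' - y‖ * ‖y' + y‖) ≤ K * ((φ * ‖y‖) * (3 * ‖y‖)) :=
          mul_le_mul hcK this (by positivity) (by linarith)
      _ = K * (3 * φ * ‖y‖ ^ 2) := by ring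
  have t2 : ‖s * y' ^ 2‖ ≤ ‖s‖ * (4 * ‖y‖ ^ 2) := by
    rw [norm_mul, norm_pow]
    refine mul_le_mul_of_nonneg_left ?_ (norm_nonneg _)
    calc ‖y'‖ ^ 2 ≤ (2 * ‖y‖) ^ 2 := pow_le_pow_left₀ (norm_nonneg _) hy' 2
      _ = 4 * ‖y‖ ^ 2 := by ring
  have t3 : ‖x' - x‖ ≤ φ * ‖y‖ ^ 2 := by
    refine hx.trans ?_
    refine mul_le_mul_of_nonneg_left ?_ hφ0
    nlinarith
  have hsum : ‖z' - z‖ ≤ K * (3 * φ * ‖y‖ ^ 2) + ‖s‖ * (4 * ‖y‖ ^ 2) + φ * ‖y‖ ^ 2 := by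
    rw [e]
    refine (norm_sub_le _ _).trans ?_
    refine add_le_add ?_ t3
    exact (norm_add_le _ _).trans (add_le_add t1 t2)
  have hcoef : K * (3 * φ * ‖y‖ ^ 2) + ‖s‖ * (4 * ‖y‖ ^ 2) + φ * ‖y‖ ^ 2
      ≤ ((6 * K + 3) * φ) * (‖y‖ ^ 2 / 2) := by
    have : 8 * ‖s‖ * ‖y‖ ^ 2 ≤ φ * ‖y‖ ^ 2 := mul_le_mul_of_nonneg_right hs (by positivity)
    nlinarith
  have hfin : ((6 * K + 3) * φ) * (‖y‖ ^ 2 / 2) ≤ ((6 * K + 3) * φ) * ‖z‖ :=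
    mul_le_mul_of_nonneg_left hz2 (by positivity)
  linarith

theorem back_perturb (a b c : ℕ → ℂ) (m : ℕ) (K : ℝ) (s : ℂ) (θ : ℝ)
    (hc : ∀ j, j < m → 1 ≤ ‖c j‖ ∧ ‖c j‖ ≤ K)
    (ha : ∀ j, j < m → a (j + 2) = c j * a (j + 1) ^ 2 - a j)
    (hb : ∀ j, j < m → b (j + 2) = (c j + s) * b (j + 1) ^ 2 - b j)
    (h0 : ‖a 0‖ ≤ ‖a 1‖) (h1 : 2 ≤ ‖a 1‖) (hK : 1 ≤ K) (hθ : 0 ≤ θ)
    (hb1 : ‖b 1 - a 1‖ ≤ θ * ‖a 1‖) (hb0 : ‖b 0 - a 0‖ ≤ θ * ‖a 1‖)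
    (hsmall : (6 * K + 3) ^ m * (θ + 8 * ‖s‖) ≤ 1) :
    ‖b (m + 1) - a (m + 1)‖ ≤ (6 * K + 3) ^ m * (θ + 8 * ‖s‖) * ‖a (m + 1)‖ ∧
    ‖b m - a m‖ ≤ (6 * K + 3) ^ m * (θ + 8 * ‖s‖) * ‖a (m + 1)‖ := by
  obtain ⟨_, hg⟩ := back_growth a c m (fun j hj => (hc j hj).1) ha h0 h1
  have hA : (1 : ℝ) ≤ 6 * K + 3 := by linarith
  have hB : 0 ≤ θ + 8 * ‖s‖ := by positivity
  have key : ∀ j, j ≤ m →
      ‖b (j + 1) - a (j + 1)‖ ≤ (6 * K + 3) ^ j * (θ + 8 * ‖s‖) * ‖a (j + 1)‖ ∧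
      ‖b j - a j‖ ≤ (6 * K + 3) ^ j * (θ + 8 * ‖s‖) * ‖a (j + 1)‖ := by
    intro j
    induction j with
    | zero =>
      intro _
      have hle : θ ≤ (6 * K + 3) ^ 0 * (θ + 8 * ‖s‖) := by
        rw [pow_zero, one_mul]; linarith [norm_nonneg s]
      exact ⟨hb1.trans (mul_le_mul_of_nonneg_right hle (norm_nonneg _)),
        hb0.trans (mul_le_mul_of_nonneg_right hle (norm_nonneg _))⟩
    | succ j ih =>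
      intro hj
      obtain ⟨i1, i2⟩ := ih (by omega)
      obtain ⟨g1, g2, _⟩ := hg j (by omega)
      obtain ⟨g1', _, _⟩ := hg (j + 1) hj
      have hpow1 : (1 : ℝ) ≤ (6 * K + 3) ^ j := one_le_pow₀ hA
      have hφ0 : 0 ≤ (6 * K + 3) ^ j * (θ + 8 * ‖s‖) := by positivity
      have hφ1 : (6 * K + 3) ^ j * (θ + 8 * ‖s‖) ≤ 1 := by
        refine le_trans ?_ hsmall
        exact mul_le_mul_of_nonneg_right (pow_le_pow_right₀ hA (by omega)) hB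
      have hs : 8 * ‖s‖ ≤ (6 * K + 3) ^ j * (θ + 8 * ‖s‖) := by
        calc 8 * ‖s‖ ≤ θ + 8 * ‖s‖ := by linarith
          _ = 1 * (θ + 8 * ‖s‖) := by ring
          _ ≤ _ := mul_le_mul_of_nonneg_right hpow1 hB
      have hstep := back_perturb_step (a j) (b j) (a (j + 1)) (b (j + 1)) (a (j + 2)) (b (j + 2))
        (c j) s K _ (hc j (by omega)).1 (hc j (by omega)).2 (ha j (by omega)) (hb j (by omega))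
        g1 g2 hφ0 hφ1 hs i1 i2
      refine ⟨?_, ?_⟩
      · refine hstep.trans (le_of_eq ?_)
        rw [pow_succ]; ring
      · refine i1.trans ?_
        have : (6 * K + 3) ^ j * (θ + 8 * ‖s‖) ≤ (6 * K + 3) ^ (j + 1) * (θ + 8 * ‖s‖) :=
          mul_le_mul_of_nonneg_right (pow_le_pow_right₀ hA (by omega)) hB
        exact mul_le_mul this g1' (norm_nonneg _) (by positivity)
  exact key m le_rfl

end Helper729.SAF.E2
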