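import Pool.Agent.Helper729.SAF.Base

set_option autoImplicit false

namespace Helper729.SAF.E3

open Helper729.SAF



theorem F_bound_aux (n : ℕ) (q : ℂ × ℂ × ℂ) (B K : ℝ) (hB : 1 ≤ B) (hK : 0 ≤ K)
    (h1 : ‖q.1‖ ≤ B) (h2 : ‖q.2.1‖ ≤ B) (hz : ∀ j : ℕ, j < n → ‖q.2.2 + j‖ ≤ K) :
    (K + 1) * ‖(F^[n] q).1‖ ≤ ((K + 1) * B) ^ (2 ^ n) ∧
      (K + 1) * ‖(F^[n] q).2.1‖ ≤ ((K + 1) * B) ^ (2 ^ n) ∧
      (F^[n] q).2.2 = q.2.2 + n := by
  induction n with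
  | zero =>
    simp only [Function.iterate_zero, id_eq, pow_zero, pow_one, Nat.cast_zero, add_zero, and_true]
    exact ⟨mul_le_mul_of_nonneg_left h1 (by linarith), mul_le_mul_of_nonneg_left h2 (by linarith)⟩
  | succ n ih =>
    obtain ⟨i1, i2, i3⟩ := ih (fun j hj => hz j (by omega))
    rw [Function.iterate_succ_apply']
    set p := F^[n] q with hp
    set V := ((K + 1) * B) ^ (2 ^ n) with hV
    have hKB : 1 ≤ (K + 1) * B := by nlinarith
    have hV1 : K + 1 ≤ V := by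
      have h3 : (K + 1) * B ≤ V := by
        rw [hV]
        calc (K + 1) * B = ((K + 1) * B) ^ 1 := (pow_one _).symm
          _ ≤ ((K + 1) * B) ^ (2 ^ n) := pow_le_pow_right₀ hKB (Nat.one_le_two_pow)
      nlinarith
    have hVs : ((K + 1) * B) ^ (2 ^ (n + 1)) = V ^ 2 := by
      rw [hV, ← pow_mul, pow_succ]
    have hVV : V ≤ V ^ 2 := by nlinarith
    have hzn : ‖p.2.2‖ ≤ K := by rw [i3]; exact hz n (by omega)
    refine ⟨?_, ?_, ?_⟩
    · rw [hVs]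
      exact i2.trans hVV
    · rw [hVs]
      show (K + 1) * ‖p.2.2 * p.2.1 ^ 2 - p.1‖ ≤ V ^ 2
      have e1 : ‖p.2.2 * p.2.1 ^ 2 - p.1‖ ≤ K * ‖p.2.1‖ ^ 2 + ‖p.1‖ := by
        calc ‖p.2.2 * p.2.1 ^ 2 - p.1‖ ≤ ‖p.2.2 * p.2.1 ^ 2‖ + ‖p.1‖ := norm_sub_le _ _
          _ = ‖p.2.2‖ * ‖p.2.1‖ ^ 2 + ‖p.1‖ := by rw [norm_mul, norm_pow]
          _ ≤ K * ‖p.2.1‖ ^ 2 + ‖p.1‖ := by
              have := mul_le_mul_of_nonneg_right hzn (sq_nonneg ‖p.2.1‖)
              linarith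
      set X := ‖p.1‖ with hX
      set Y := ‖p.2.1‖ with hY
      have hX0 : 0 ≤ X := norm_nonneg _
      have hY0 : 0 ≤ Y := norm_nonneg _
      set U := V / (K + 1) with hU
      have hK1 : 0 < K + 1 := by linarith
      have hU1 : 1 ≤ U := by rw [hU, le_div_iff₀ hK1]; linarith
      have hVU : V = (K + 1) * U := by rw [hU]; field_simp
      have hXU : X ≤ U := by rw [hU, le_div_iff₀ hK1]; linarith
      have hYU : Y ≤ U := by rw [hU, le_div_iff₀ hK1]; linarith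
      have hY2 : Y ^ 2 ≤ U ^ 2 := pow_le_pow_left₀ hY0 hYU 2
      have hUU : U ≤ U ^ 2 := by nlinarith
      calc (K + 1) * ‖p.2.2 * p.2.1 ^ 2 - p.1‖ ≤ (K + 1) * (K * Y ^ 2 + X) :=
            mul_le_mul_of_nonneg_left e1 hK1.le
        _ ≤ (K + 1) * (K * U ^ 2 + U ^ 2) := by
            apply mul_le_mul_of_nonneg_left _ hK1.le
            have := mul_le_mul_of_nonneg_left hY2 hK
            linarith
        _ = V ^ 2 := by rw [hVU]; ring
    · show p.2.2 + 1 = q.2.2 + ((n + 1 : ℕ) : ℂ)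
      rw [i3]; push_cast; ring

theorem F_bound (n : ℕ) (q : ℂ × ℂ × ℂ) (B K : ℝ) (hB : 1 ≤ B) (hK : 0 ≤ K)
    (h1 : ‖q.1‖ ≤ B) (h2 : ‖q.2.1‖ ≤ B) (hz : ∀ j : ℕ, j < n → ‖q.2.2 + j‖ ≤ K) :
    ‖(F^[n] q).1‖ ≤ ((K + 1) * B) ^ (2 ^ n) ∧ ‖(F^[n] q).2.1‖ ≤ ((K + 1) * B) ^ (2 ^ n) ∧
      (F^[n] q).2.2 = q.2.2 + n := by
  obtain ⟨i1, i2, i3⟩ := F_bound_aux n q B K hB hK h1 h2 hz
  refine ⟨?_, ?_, i3⟩
  · have := norm_nonneg (F^[n] q).1
    nlinarith
  · have := norm_nonneg (F^[n] q).2.1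
    nlinarith

theorem G_F_inverse (n : ℕ) (q : ℂ × ℂ × ℂ) : F^[n] (G^[n] q) = q ∧ G^[n] (F^[n] q) = q := by
  have h1 : Function.LeftInverse F G := by
    rintro ⟨x, y, z⟩
    simp only [F, G]
    refine Prod.ext rfl (Prod.ext ?_ ?_)
    · simp only; ring
    · simp only; ring
  have h2 : Function.LeftInverse G F := by
    rintro ⟨x, y, z⟩
    simp only [F, G]
    refine Prod.ext ?_ (Prod.ext rfl ?_)
    · simp only; ring
    · simp only; ring
  exact ⟨h1.iterate n q, h2.iterate n q⟩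

theorem G_differentiable (n : ℕ) (A B : ℂ → ℂ) (hA : Differentiable ℂ A)
    (hB : Differentiable ℂ B) (w : ℂ) :
    Differentiable ℂ (fun s => (G^[n] (A s, B s, w + s)).1) ∧
    Differentiable ℂ (fun s => (G^[n] (A s, B s, w + s)).2.1) := by
  have key : ∀ n : ℕ, Differentiable ℂ (fun s => (G^[n] (A s, B s, w + s)).1) ∧
    Differentiable ℂ (fun s => (G^[n] (A s, B s, w + s)).2.1) ∧
    Differentiable ℂ (fun s => (G^[n] (A s, B s, w + s)).2.2) := by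
    intro n
    induction n with
    | zero =>
      refine ⟨hA, hB, ?_⟩
      show Differentiable ℂ (fun s => w + s)
      fun_prop
    | succ n ih =>
      obtain ⟨i1, i2, i3⟩ := ih
      simp only [Function.iterate_succ_apply']
      refine ⟨?_, ?_, ?_⟩
      · show Differentiable ℂ (fun s => ((G^[n] (A s, B s, w + s)).2.2 - 1) *
          (G^[n] (A s, B s, w + s)).1 ^ 2 - (G^[n] (A s, B s, w + s)).2.1)
        exact ((i3.sub_const 1).mul (i1.pow 2)).sub i2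
      · exact i1
      · show Differentiable ℂ (fun s => (G^[n] (A s, B s, w + s)).2.2 - 1)
        exact i3.sub_const 1
  exact ⟨(key n).1, (key n).2.1⟩

end Helper729.SAF.E3
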