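import Pool.Agent.Helper729.SAF.Base

set_option autoImplicit false

namespace Helper729.SAF.E5

open Helper729.SAF

/-- already proved lemmas, given as hypotheses -/
structure Toolbox : Prop where
  back_growth : ∀ (a c : ℕ → ℂ) (m : ℕ), (∀ j, j < m → 1 ≤ ‖c j‖) →
    (∀ j, j < m → a (j + 2) = c j * a (j + 1) ^ 2 - a j) → ‖a 0‖ ≤ ‖a 1‖ → 2 ≤ ‖a 1‖ →
    (∀ j, j ≤ m → ‖a j‖ ≤ ‖a (j + 1)‖ ∧ 2 ≤ ‖a (j + 1)‖ ∧
      (‖a 1‖ / 2) ^ (2 ^ j) ≤ ‖a (j + 1)‖ / 2)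
  back_perturb : ∀ (a b c : ℕ → ℂ) (m : ℕ) (K : ℝ) (s : ℂ) (θ : ℝ),
    (∀ j, j < m → 1 ≤ ‖c j‖ ∧ ‖c j‖ ≤ K) →
    (∀ j, j < m → a (j + 2) = c j * a (j + 1) ^ 2 - a j) →
    (∀ j, j < m → b (j + 2) = (c j + s) * b (j + 1) ^ 2 - b j) →
    ‖a 0‖ ≤ ‖a 1‖ → 2 ≤ ‖a 1‖ → 1 ≤ K → 0 ≤ θ →
    ‖b 1 - a 1‖ ≤ θ * ‖a 1‖ → ‖b 0 - a 0‖ ≤ θ * ‖a 1‖ →
    (6 * K + 3) ^ m * (θ + 8 * ‖s‖) ≤ 1 →
    ‖b (m + 1) - a (m + 1)‖ ≤ (6 * K + 3) ^ m * (θ + 8 * ‖s‖) * ‖a (m + 1)‖ ∧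
    ‖b m - a m‖ ≤ (6 * K + 3) ^ m * (θ + 8 * ‖s‖) * ‖a (m + 1)‖
  F_bound : ∀ (n : ℕ) (q : ℂ × ℂ × ℂ) (B K : ℝ), 1 ≤ B → 0 ≤ K → ‖q.1‖ ≤ B → ‖q.2.1‖ ≤ B →
    (∀ j : ℕ, j < n → ‖q.2.2 + j‖ ≤ K) →
    ‖(F^[n] q).1‖ ≤ ((K + 1) * B) ^ (2 ^ n) ∧ ‖(F^[n] q).2.1‖ ≤ ((K + 1) * B) ^ (2 ^ n) ∧
      (F^[n] q).2.2 = q.2.2 + n
  G_F_inverse : ∀ (n : ℕ) (q : ℂ × ℂ × ℂ), F^[n] (G^[n] q) = q ∧ G^[n] (F^[n] q) = q
  G_differentiable : ∀ (n : ℕ) (A B : ℂ → ℂ), Differentiable ℂ A → Differentiable ℂ B → ∀ w : ℂ,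
    Differentiable ℂ (fun s => (G^[n] (A s, B s, w + s)).1) ∧
    Differentiable ℂ (fun s => (G^[n] (A s, B s, w + s)).2.1)
  G_lipschitz : ∀ n : ℕ, ∃ (C : ℝ) (D : ℕ), 0 < C ∧ ∀ x y z s : ℂ, ‖s‖ ≤ 1 →
    ‖(G^[n] (x, y, z + s)).1 - (G^[n] (x, y, z)).1‖ ≤ ‖s‖ * (C * (1 + ‖x‖ + ‖y‖ + ‖z‖) ^ D) ∧
    ‖(G^[n] (x, y, z + s)).2.1 - (G^[n] (x, y, z)).2.1‖ ≤
      ‖s‖ * (C * (1 + ‖x‖ + ‖y‖ + ‖z‖) ^ D)
  stage_two : ∀ (N : ℕ) (A B : ℂ → ℂ), Differentiable ℂ A → Differentiable ℂ B →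
    ∀ Λ : ℝ, (32 * ((N : ℝ) + 2)) ^ 2 ≤ Λ → ‖A 0‖ = Λ → ‖B 0‖ ≤ Λ →
    (∀ s : ℂ, ‖s‖ ≤ 1 / Real.sqrt Λ → Λ / 2 ≤ ‖A s‖ ∧ ‖A s‖ ≤ 2 * Λ ∧ ‖B s‖ ≤ 2 * Λ) →
    ∃ s : ℂ, ‖s‖ < 1 / Real.sqrt Λ ∧ (G^[N + 1] (A s, B s, 1 + s)).1 = 0

theorem hit_third (n : ℕ) (q : ℂ × ℂ × ℂ) : (G^[n] q).2.2 = q.2.2 - n := by
  induction n with
  | zero => simp
  | succ n ih =>
    rw [Function.iterate_succ_apply']
    show (G^[n] q).2.2 - 1 = _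
    rw [ih]
    push_cast
    ring

/-- the sequence of coordinates of the backward orbit -/
noncomputable def sqn (p : ℂ × ℂ × ℂ) : ℕ → ℂ
  | 0 => p.2.1
  | (j + 1) => (G^[j] p).1

theorem hit_snd (p : ℂ × ℂ × ℂ) (j : ℕ) : (G^[j] p).2.1 = sqn p j := by
  cases j with
  | zero => rfl
  | succ j =>
    rw [Function.iterate_succ_apply']
    rfl

theorem hit_rec (p : ℂ × ℂ × ℂ) (j : ℕ) :
    sqn p (j + 2) = (p.2.2 - 1 - j) * sqn p (j + 1) ^ 2 - sqn p j := by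
  show (G^[j + 1] p).1 = _
  rw [Function.iterate_succ_apply']
  show ((G^[j] p).2.2 - 1) * (G^[j] p).1 ^ 2 - (G^[j] p).2.1 = _
  rw [hit_third, hit_snd]
  show (p.2.2 - j - 1) * sqn p (j + 1) ^ 2 - sqn p j = _
  ring

theorem hit_A (T : Toolbox) (n0 k : ℕ) (hk : n0 ≤ k) (ξ η : ℂ) (B : ℝ) (hB : 1 ≤ B)
    (h1 : ‖(G^[n0] (ξ, η, (k : ℂ))).1‖ ≤ B) (h2 : ‖(G^[n0] (ξ, η, (k : ℂ))).2.1‖ ≤ B) :
    max ‖ξ‖ ‖η‖ ≤ (((k : ℝ) + 1) * B) ^ (2 ^ n0) := by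
  obtain ⟨e1, e2, -⟩ := T.F_bound n0 (G^[n0] (ξ, η, (k : ℂ))) B k hB (Nat.cast_nonneg _) h1 h2 (by
    intro j hj
    rw [hit_third]
    have e : (k : ℂ) - n0 + j = ((k - n0 + j : ℕ) : ℂ) := by
      push_cast [Nat.cast_sub hk]
      ring
    show ‖(k : ℂ) - n0 + j‖ ≤ k
    rw [e, Complex.norm_natCast]
    have : k - n0 + j ≤ k := by omega
    exact_mod_cast this)
  rw [(T.G_F_inverse n0 (ξ, η, (k : ℂ))).1] at e1 e2
  exact max_le e1 e2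

theorem hit_growth (k n0 m E2 : ℕ) (α M Λ : ℝ) (hα : 2 ≤ α) (hM1 : 1 ≤ M)
    (hM : M ≤ (((k : ℝ) + 1) * α) ^ (2 ^ n0))
    (hc : ((2 * ((k : ℝ) + 1)) ^ (2 ^ n0)) ^ 2 ≤ M) (hm : n0 + 1 + E2 ≤ m)
    (hΛ : (α / 2) ^ (2 ^ m) ≤ Λ / 2) : M ^ E2 ≤ Λ := by
  obtain ⟨c, hcdef⟩ : ∃ c, c = (2 * ((k : ℝ) + 1)) ^ (2 ^ n0) := ⟨_, rfl⟩
  have hc0 : 0 < c := by rw [hcdef]; positivity
  rw [← hcdef] at hc
  have hM0 : 0 < M := by linarith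
  have h1 : M / c ≤ (α / 2) ^ (2 ^ n0) := by
    rw [div_le_iff₀ hc0, hcdef, ← mul_pow]
    have : α / 2 * (2 * ((k : ℝ) + 1)) = ((k : ℝ) + 1) * α := by ring
    rw [this]
    exact hM
  have h2 : M ≤ (M / c) ^ 2 := by
    rw [div_pow, le_div_iff₀ (by positivity)]
    nlinarith
  obtain ⟨e, he⟩ : ∃ e, m = n0 + 1 + e := ⟨m - (n0 + 1), by omega⟩
  have heE : E2 ≤ e := by omega
  have h3 : (M / c) ^ (2 ^ (1 + e)) ≤ (α / 2) ^ (2 ^ m) := by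
    rw [he, add_assoc, pow_add 2 n0, pow_mul]
    exact pow_le_pow_left₀ (by positivity) h1 _
  have h4 : M ^ (2 ^ e) ≤ (M / c) ^ (2 ^ (1 + e)) := by
    rw [pow_add 2 1, pow_one, pow_mul]
    exact pow_le_pow_left₀ hM0.le h2 _
  have h5 : M ^ E2 ≤ M ^ (2 ^ e) :=
    pow_le_pow_right₀ hM1 (heE.trans (Nat.lt_two_pow_self).le)
  have h6 : 0 < (α / 2) ^ (2 ^ m) := by positivity
  linarith

theorem hit_arith (k m D E : ℕ) (C M σ : ℝ) (hC : 0 < C) (hM1 : 1 ≤ M) (hmk : m ≤ k)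
    (h3 : 2 * (6 * (k : ℝ) + 3) ^ k * (C * (3 + (k : ℝ)) ^ D + 8) ≤ M)
    (hσ0 : 0 ≤ σ) (hσ : σ * M ^ (E + D + 1) ≤ 1) (x y : ℝ) (hx : 0 ≤ x) (hy : 0 ≤ y)
    (hxM : x ≤ M) (hyM : y ≤ M) :
    (6 * (k : ℝ) + 3) ^ m * (σ * (C * (1 + x + y + k) ^ D) + 8 * σ) ≤ 1 / 2 := by
  have hM0 : 0 < M := by linarith
  have hk0 : (0 : ℝ) ≤ k := Nat.cast_nonneg _
  have hs1 : σ * M ^ (D + 1) ≤ 1 := by
    refine le_trans ?_ hσ
    apply mul_le_mul_of_nonneg_left _ hσ0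
    exact pow_le_pow_right₀ hM1 (by omega)
  have hs2 : σ * M ≤ 1 := by
    refine le_trans ?_ hs1
    apply mul_le_mul_of_nonneg_left _ hσ0
    calc M = M ^ 1 := (pow_one M).symm
      _ ≤ M ^ (D + 1) := pow_le_pow_right₀ hM1 (by omega)
  have e1 : (1 + x + y + (k : ℝ)) ^ D ≤ (3 + (k : ℝ)) ^ D * M ^ D := by
    rw [← mul_pow]
    apply pow_le_pow_left₀ (by positivity)
    nlinarith
  have e2 : σ * (C * (1 + x + y + k) ^ D) * M ≤ C * (3 + (k : ℝ)) ^ D := by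
    calc σ * (C * (1 + x + y + k) ^ D) * M ≤ σ * (C * ((3 + (k : ℝ)) ^ D * M ^ D)) * M := by
          apply mul_le_mul_of_nonneg_right _ hM0.le
          apply mul_le_mul_of_nonneg_left _ hσ0
          exact mul_le_mul_of_nonneg_left e1 hC.le
      _ = (C * (3 + (k : ℝ)) ^ D) * (σ * M ^ (D + 1)) := by ring
      _ ≤ (C * (3 + (k : ℝ)) ^ D) * 1 := mul_le_mul_of_nonneg_left hs1 (by positivity)
      _ = C * (3 + (k : ℝ)) ^ D := mul_one _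
  have e3 : (σ * (C * (1 + x + y + k) ^ D) + 8 * σ) * M ≤ C * (3 + (k : ℝ)) ^ D + 8 := by
    have : 8 * (σ * M) ≤ 8 := by linarith
    nlinarith
  have e4 : (6 * (k : ℝ) + 3) ^ m ≤ (6 * (k : ℝ) + 3) ^ k :=
    pow_le_pow_right₀ (by linarith) hmk
  have e5 : (6 * (k : ℝ) + 3) ^ m * (σ * (C * (1 + x + y + k) ^ D) + 8 * σ) * M ≤ 1 / 2 * M := by
    calc (6 * (k : ℝ) + 3) ^ m * (σ * (C * (1 + x + y + k) ^ D) + 8 * σ) * M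
        = (6 * (k : ℝ) + 3) ^ m * ((σ * (C * (1 + x + y + k) ^ D) + 8 * σ) * M) := by ring
      _ ≤ (6 * (k : ℝ) + 3) ^ k * (C * (3 + (k : ℝ)) ^ D + 8) :=
          mul_le_mul e4 e3 (by positivity) (by positivity)
      _ ≤ 1 / 2 * M := by linarith
  exact le_of_mul_le_mul_right e5 hM0

theorem hit_perturb (T : Toolbox) (n0 k m D E : ℕ) (C M : ℝ) (ξ η : ℂ) (hM1 : 1 ≤ M)
    (hC : 0 < C) (hm : m + 1 + n0 = k)
    (hL : ∀ x y z s : ℂ, ‖s‖ ≤ 1 →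
      ‖(G^[n0] (x, y, z + s)).1 - (G^[n0] (x, y, z)).1‖ ≤ ‖s‖ * (C * (1 + ‖x‖ + ‖y‖ + ‖z‖) ^ D) ∧
      ‖(G^[n0] (x, y, z + s)).2.1 - (G^[n0] (x, y, z)).2.1‖ ≤
        ‖s‖ * (C * (1 + ‖x‖ + ‖y‖ + ‖z‖) ^ D))
    (h3 : 2 * (6 * (k : ℝ) + 3) ^ k * (C * (3 + (k : ℝ)) ^ D + 8) ≤ M)
    (hξ : ‖ξ‖ ≤ M) (hη : ‖η‖ ≤ M)
    (h0 : ‖sqn (G^[n0] (ξ, η, (k : ℂ))) 0‖ ≤ ‖sqn (G^[n0] (ξ, η, (k : ℂ))) 1‖)
    (h2 : 2 ≤ ‖sqn (G^[n0] (ξ, η, (k : ℂ))) 1‖)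
    (s : ℂ) (hs : ‖s‖ * M ^ (E + D + 1) ≤ 1) :
    ‖sqn (G^[n0] (ξ, η, (k : ℂ) + s)) (m + 1) - sqn (G^[n0] (ξ, η, (k : ℂ))) (m + 1)‖ ≤
      1 / 2 * ‖sqn (G^[n0] (ξ, η, (k : ℂ))) (m + 1)‖ ∧
    ‖sqn (G^[n0] (ξ, η, (k : ℂ) + s)) m - sqn (G^[n0] (ξ, η, (k : ℂ))) m‖ ≤
      1 / 2 * ‖sqn (G^[n0] (ξ, η, (k : ℂ))) (m + 1)‖ := by
  have hs1 : ‖s‖ ≤ 1 := by
    have : 1 ≤ M ^ (E + D + 1) := one_le_pow₀ hM1
    nlinarith [norm_nonneg s]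
  have har := hit_arith k m D E C M ‖s‖ hC hM1 (by omega) h3 (norm_nonneg _) hs ‖ξ‖ ‖η‖
    (norm_nonneg _) (norm_nonneg _) hξ hη
  obtain ⟨l1, l2⟩ := hL ξ η (k : ℂ) s hs1
  rw [Complex.norm_natCast] at l1 l2
  set a := sqn (G^[n0] (ξ, η, (k : ℂ))) with ha
  set b := sqn (G^[n0] (ξ, η, (k : ℂ) + s)) with hb
  have hθ0 : 0 ≤ ‖s‖ * (C * (1 + ‖ξ‖ + ‖η‖ + k) ^ D) := by positivity
  have hcj : ∀ j, j < m → (k : ℂ) - n0 - 1 - j = ((m - j : ℕ) : ℂ) := by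
    intro j hj
    rw [Nat.cast_sub hj.le, ← hm]
    push_cast
    ring
  obtain ⟨p1, p2⟩ := T.back_perturb a b (fun j => (k : ℂ) - n0 - 1 - j) m k s
    (‖s‖ * (C * (1 + ‖ξ‖ + ‖η‖ + k) ^ D))
    (by
      intro j hj
      rw [hcj j hj, Complex.norm_natCast]
      constructor
      · have : 1 ≤ m - j := by omega
        exact_mod_cast this
      · have : m - j ≤ k := by omega
        exact_mod_cast this)
    (by
      intro j hj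
      rw [ha, hit_rec, hit_third])
    (by
      intro j hj
      rw [hb, hit_rec, hit_third]
      simp only
      ring)
    h0 h2 (by
      have : 1 ≤ k := by omega
      exact_mod_cast this) hθ0
    (by
      have e1 : b 1 - a 1 = (G^[n0] (ξ, η, (k : ℂ) + s)).1 - (G^[n0] (ξ, η, (k : ℂ))).1 := rfl
      rw [e1]
      refine l1.trans ?_
      nlinarith)
    (by
      have e1 : b 0 - a 0 = (G^[n0] (ξ, η, (k : ℂ) + s)).2.1 - (G^[n0] (ξ, η, (k : ℂ))).2.1 := rfl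
      rw [e1]
      refine l2.trans ?_
      nlinarith)
    (by linarith)
  have hn : 0 ≤ ‖a (m + 1)‖ := norm_nonneg _
  exact ⟨p1.trans (mul_le_mul_of_nonneg_right har hn), p2.trans (mul_le_mul_of_nonneg_right har hn)⟩

theorem hitting (T : Toolbox) (n0 E : ℕ) :
    ∃ k0 : ℕ, ∀ k : ℕ, k0 ≤ k → ∀ (N : ℕ) (R : ℝ), ∃ M1 : ℝ, 1 ≤ M1 ∧
      ∀ ξ η : ℂ, M1 ≤ max ‖ξ‖ ‖η‖ →
      (‖(G^[n0] (ξ, η, (k : ℂ))).1‖ ≤ ‖(G^[n0] (ξ, η, (k : ℂ))).2.1‖ ∧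
        R ≤ ‖(G^[n0] (ξ, η, (k : ℂ))).2.1‖) ∨
      (∃ s y : ℂ, ‖s‖ * (max ‖ξ‖ ‖η‖) ^ E ≤ 1 ∧ ‖s‖ ≤ 1 / 2 ∧ R ≤ ‖y‖ ∧
        F^[N + k] (0, y, -(N : ℂ) + s) = (ξ, η, (k : ℂ) + s)) := by
  obtain ⟨C, D, hC, hL⟩ := T.G_lipschitz n0
  refine ⟨2 * n0 + 2 + 2 * (E + D + 1), fun k hk N R => ?_⟩
  have hk0 : (0 : ℝ) ≤ k := Nat.cast_nonneg _
  have hN0 : (0 : ℝ) ≤ N := Nat.cast_nonneg _
  obtain ⟨t1, ht1⟩ : ∃ t1, t1 = (((k : ℝ) + 1) * max R 2) ^ (2 ^ n0) := ⟨_, rfl⟩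
  obtain ⟨t2, ht2⟩ : ∃ t2, t2 = ((2 * ((k : ℝ) + 1)) ^ (2 ^ n0)) ^ 2 := ⟨_, rfl⟩
  obtain ⟨t3, ht3⟩ : ∃ t3, t3 = 2 * (6 * (k : ℝ) + 3) ^ k * (C * (3 + (k : ℝ)) ^ D + 8) := ⟨_, rfl⟩
  obtain ⟨t4, ht4⟩ : ∃ t4, t4 = (32 * ((N : ℝ) + 2)) ^ 2 := ⟨_, rfl⟩
  obtain ⟨t5, ht5⟩ : ∃ t5, t5 = (((N : ℝ) + k + 1 + 1) * max R 1) ^ (2 ^ (N + k)) := ⟨_, rfl⟩
  have hR2 : 0 < max R 2 := lt_of_lt_of_le (by norm_num) (le_max_right _ _)
  have hR1 : 0 < max R 1 := lt_of_lt_of_le (by norm_num) (le_max_right _ _)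
  have p1 : 0 ≤ t1 := by rw [ht1]; positivity
  have p2 : 0 ≤ t2 := by rw [ht2]; positivity
  have p3 : 0 ≤ t3 := by rw [ht3]; positivity
  have p4 : 0 ≤ t4 := by rw [ht4]; positivity
  have p5 : 0 ≤ t5 := by rw [ht5]; positivity
  refine ⟨2 + t1 + t2 + t3 + t4 + t5, by linarith, fun ξ η hM => ?_⟩
  obtain ⟨M, hMd⟩ : ∃ M, M = max ‖ξ‖ ‖η‖ := ⟨_, rfl⟩
  rw [← hMd] at hM ⊢
  have hM2 : 2 ≤ M := by linarith
  have hM1 : 1 ≤ M := by linarith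
  have hM0 : 0 < M := by linarith
  have hξM : ‖ξ‖ ≤ M := by rw [hMd]; exact le_max_left _ _
  have hηM : ‖η‖ ≤ M := by rw [hMd]; exact le_max_right _ _
  by_cases hcase : ‖(G^[n0] (ξ, η, (k : ℂ))).1‖ ≤ ‖(G^[n0] (ξ, η, (k : ℂ))).2.1‖
  · left
    refine ⟨hcase, ?_⟩
    by_contra hlt
    push Not at hlt
    have hb : ‖(G^[n0] (ξ, η, (k : ℂ))).2.1‖ ≤ max R 2 := hlt.le.trans (le_max_left _ _)
    have := hit_A T n0 k (by omega) ξ η (max R 2) (le_trans (by norm_num) (le_max_right _ _))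
      (hcase.trans hb) hb
    rw [← hMd, ← ht1] at this
    linarith
  · right
    push Not at hcase
    obtain ⟨a, ha⟩ : ∃ a, a = sqn (G^[n0] (ξ, η, (k : ℂ))) := ⟨_, rfl⟩
    have ha0 : a 0 = (G^[n0] (ξ, η, (k : ℂ))).2.1 := by rw [ha]; rfl
    have ha1 : a 1 = (G^[n0] (ξ, η, (k : ℂ))).1 := by rw [ha]; rfl
    have h01 : ‖a 0‖ ≤ ‖a 1‖ := by rw [ha0, ha1]; exact hcase.le
    have h12 : 2 ≤ ‖a 1‖ := by
      by_contra hlt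
      push Not at hlt
      have hb : ‖(G^[n0] (ξ, η, (k : ℂ))).1‖ ≤ max R 2 := by
        rw [← ha1]
        exact hlt.le.trans (le_max_right _ _)
      have := hit_A T n0 k (by omega) ξ η (max R 2) (le_trans (by norm_num) (le_max_right _ _))
        hb (hcase.le.trans hb)
      rw [← hMd, ← ht1] at this
      linarith
    have hMα : M ≤ (((k : ℝ) + 1) * ‖a 1‖) ^ (2 ^ n0) := by
      have := hit_A T n0 k (by omega) ξ η ‖a 1‖ (by linarith) (by rw [ha1])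
        (by rw [ha1]; exact hcase.le)
      rwa [← hMd] at this
    obtain ⟨m, hm⟩ : ∃ m, m + 1 + n0 = k := ⟨k - (n0 + 1), by omega⟩
    have hcj : ∀ j, j < m → (k : ℂ) - n0 - 1 - j = ((m - j : ℕ) : ℂ) := by
      intro j hj
      rw [Nat.cast_sub hj.le, ← hm]
      push_cast
      ring
    have hgr := T.back_growth a (fun j => (k : ℂ) - n0 - 1 - j) m (by
      intro j hj
      rw [hcj j hj, Complex.norm_natCast]
      have : 1 ≤ m - j := by omega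
      exact_mod_cast this) (by
      intro j hj
      rw [ha, hit_rec, hit_third]) h01 h12 m le_rfl
    obtain ⟨g1, g2, g3⟩ := hgr
    obtain ⟨Λ, hΛd⟩ : ∃ Λ, Λ = ‖a (m + 1)‖ := ⟨_, rfl⟩
    rw [← hΛd] at g1 g2 g3
    have hΛE := hit_growth k n0 m (2 * (E + D + 1)) ‖a 1‖ M Λ h12 hM1 hMα
      (by rw [← ht2]; linarith) (by omega) g3
    have hΛ0 : 0 < Λ := by linarith
    -- √Λ ≥ M^(E+D+1)
    have hsq : M ^ (E + D + 1) ≤ Real.sqrt Λ := by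
      apply Real.le_sqrt_of_sq_le
      rw [← pow_mul, mul_comm (E + D + 1) 2]
      exact hΛE
    have hsq0 : 0 < Real.sqrt Λ := Real.sqrt_pos.mpr hΛ0
    have hsmall : ∀ s : ℂ, ‖s‖ ≤ 1 / Real.sqrt Λ → ‖s‖ * M ^ (E + D + 1) ≤ 1 := by
      intro s hs
      rw [le_div_iff₀ hsq0] at hs
      exact (mul_le_mul_of_nonneg_left hsq (norm_nonneg _)).trans hs
    -- the functions
    have hfn : ∀ s : ℂ, G^[k - 1] (ξ, η, (k : ℂ) + s) =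
        G^[m] (G^[n0] (ξ, η, (k : ℂ) + s)) := by
      intro s
      rw [← Function.iterate_add_apply]
      congr 1
      omega
    have hA : ∀ s : ℂ, (G^[k - 1] (ξ, η, (k : ℂ) + s)).1 =
        sqn (G^[n0] (ξ, η, (k : ℂ) + s)) (m + 1) := by
      intro s
      rw [hfn]
      rfl
    have hB : ∀ s : ℂ, (G^[k - 1] (ξ, η, (k : ℂ) + s)).2.1 =
        sqn (G^[n0] (ξ, η, (k : ℂ) + s)) m := by
      intro s
      rw [hfn, hit_snd]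
    have hdiff := T.G_differentiable (k - 1) (fun _ => ξ) (fun _ => η)
      (differentiable_const _) (differentiable_const _) (k : ℂ)
    have hΛM : M ≤ Λ := by
      refine le_trans ?_ hΛE
      calc M = M ^ 1 := (pow_one M).symm
        _ ≤ M ^ (2 * (E + D + 1)) := pow_le_pow_right₀ hM1 (by omega)
    have ha_m : a m = sqn (G^[n0] (ξ, η, (k : ℂ))) m := by rw [ha]
    have ha_m1 : a (m + 1) = sqn (G^[n0] (ξ, η, (k : ℂ))) (m + 1) := by rw [ha]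
    obtain ⟨s, hs, hs0⟩ := T.stage_two N (fun s => (G^[k - 1] (ξ, η, (k : ℂ) + s)).1)
      (fun s => (G^[k - 1] (ξ, η, (k : ℂ) + s)).2.1) hdiff.1 hdiff.2 Λ
      (by rw [← ht4]; linarith)
      (by
        rw [hA, add_zero, ← ha_m1, hΛd])
      (by
        rw [hB, add_zero, ← ha_m]
        exact g1)
      (by
        intro s hs
        obtain ⟨q1, q2⟩ := hit_perturb T n0 k m D E C M ξ η hM1 hC hm hL
          (by rw [← ht3]; linarith) hξM hηM (by rw [← ha]; exact h01) (by rw [← ha]; exact h12)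
          s (hsmall s hs)
        rw [hA, hB]
        rw [← ha_m1, ← hΛd] at q1 q2
        rw [← ha_m] at q2
        have n1 : ‖sqn (G^[n0] (ξ, η, (k : ℂ) + s)) (m + 1)‖ ≤ Λ +
            ‖sqn (G^[n0] (ξ, η, (k : ℂ) + s)) (m + 1) - a (m + 1)‖ := by
          have := norm_add_le (a (m + 1)) (sqn (G^[n0] (ξ, η, (k : ℂ) + s)) (m + 1) - a (m + 1))
          rw [add_sub_cancel, ← hΛd] at this
          exact this
        have n2 : Λ ≤ ‖sqn (G^[n0] (ξ, η, (k : ℂ) + s)) (m + 1)‖ +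
            ‖sqn (G^[n0] (ξ, η, (k : ℂ) + s)) (m + 1) - a (m + 1)‖ := by
          have := norm_sub_le (sqn (G^[n0] (ξ, η, (k : ℂ) + s)) (m + 1))
            (sqn (G^[n0] (ξ, η, (k : ℂ) + s)) (m + 1) - a (m + 1))
          rw [sub_sub_cancel, ← hΛd] at this
          exact this
        have n3 : ‖sqn (G^[n0] (ξ, η, (k : ℂ) + s)) m‖ ≤ ‖a m‖ +
            ‖sqn (G^[n0] (ξ, η, (k : ℂ) + s)) m - a m‖ := by
          have := norm_add_le (a m) (sqn (G^[n0] (ξ, η, (k : ℂ) + s)) m - a m)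
          rw [add_sub_cancel] at this
          exact this
        refine ⟨by linarith, by linarith, by linarith⟩)
    have hsS := hsmall s hs.le
    have hs_half : ‖s‖ ≤ 1 / 2 := by
      have h1 : ‖s‖ * 2 ≤ ‖s‖ * M ^ (E + D + 1) := by
        apply mul_le_mul_of_nonneg_left _ (norm_nonneg _)
        calc (2 : ℝ) ≤ M := hM2
          _ = M ^ 1 := (pow_one M).symm
          _ ≤ M ^ (E + D + 1) := pow_le_pow_right₀ hM1 (by omega)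
      linarith
    have hthird : (G^[k - 1] (ξ, η, (k : ℂ) + s)).2.2 = 1 + s := by
      rw [hit_third, Nat.cast_sub (by omega : 1 ≤ k)]
      push_cast
      ring
    have htriple : ((G^[k - 1] (ξ, η, (k : ℂ) + s)).1, (G^[k - 1] (ξ, η, (k : ℂ) + s)).2.1,
        1 + s) = G^[k - 1] (ξ, η, (k : ℂ) + s) := by
      rw [← hthird]
    rw [htriple, ← Function.iterate_add_apply] at hs0
    have hnk : N + 1 + (k - 1) = N + k := by omega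
    rw [hnk] at hs0
    obtain ⟨y, hy⟩ : ∃ y, y = (G^[N + k] (ξ, η, (k : ℂ) + s)).2.1 := ⟨_, rfl⟩
    have hG : G^[N + k] (ξ, η, (k : ℂ) + s) = (0, y, -(N : ℂ) + s) := by
      apply Prod.ext
      · exact hs0
      apply Prod.ext
      · exact hy.symm
      · show (G^[N + k] (ξ, η, (k : ℂ) + s)).2.2 = -(N : ℂ) + s
        rw [hit_third]
        push_cast
        ring
    have hF : F^[N + k] (0, y, -(N : ℂ) + s) = (ξ, η, (k : ℂ) + s) := by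
      rw [← hG]
      exact (T.G_F_inverse _ _).1
    refine ⟨s, y, ?_, hs_half, ?_, hF⟩
    · refine le_trans ?_ hsS
      apply mul_le_mul_of_nonneg_left _ (norm_nonneg _)
      exact pow_le_pow_right₀ hM1 (by omega)
    · by_contra hlt
      push Not at hlt
      obtain ⟨f1, f2, -⟩ := T.F_bound (N + k) (0, y, -(N : ℂ) + s) (max R 1) (N + k + 1)
        (le_max_right _ _) (by positivity) (by simp) (hlt.le.trans (le_max_left _ _)) (by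
          intro j hj
          have e1 : (-(N : ℂ) + s) + j = (((j : ℝ) - N : ℝ) : ℂ) + s := by
            push_cast
            ring
          show ‖(-(N : ℂ) + s) + j‖ ≤ N + k + 1
          rw [e1]
          refine (norm_add_le _ _).trans ?_
          rw [Complex.norm_real, Real.norm_eq_abs]
          have hj' : (j : ℝ) ≤ N + k := by exact_mod_cast hj.le
          have hj0 : (0 : ℝ) ≤ j := Nat.cast_nonneg _
          have : |(j : ℝ) - N| ≤ N + k := by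
            rw [abs_le]
            constructor <;> linarith
          linarith)
      rw [hF] at f1 f2
      have : M ≤ t5 := by
        rw [hMd, ht5]
        exact max_le f1 f2
      linarith

end Helper729.SAF.E5
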