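import Pool.Agent.Helper729.SAF.Base

set_option autoImplicit false

namespace Helper729.SAF.F1

open Helper729.SAF



theorem evq_poly (P : MvPolynomial (Fin 3) ℂ) (η k : ℂ) :
    ∃ p : Polynomial ℂ, ∀ ξ : ℂ, p.eval ξ = evq P (ξ, η, k) := by
  refine ⟨MvPolynomial.aeval ![Polynomial.X, Polynomial.C η, Polynomial.C k] P, fun ξ => ?_⟩
  have h1 : (Polynomial.eval ξ (MvPolynomial.aeval ![Polynomial.X, Polynomial.C η, Polynomial.C k] P))
      = MvPolynomial.aeval (fun i => Polynomial.aeval ξ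
        ((![Polynomial.X, Polynomial.C η, Polynomial.C k] : Fin 3 → Polynomial ℂ) i)) P := by
    rw [← Polynomial.coe_aeval_eq_eval]
    show (Polynomial.aeval ξ) _ = _
    rw [← AlgHom.comp_apply, MvPolynomial.comp_aeval]
  rw [h1, evq, MvPolynomial.aeval_eq_eval]
  congr 2
  funext i
  fin_cases i <;> simp


theorem final_fibre {ι : Type} [Fintype ι] (P0 : MvPolynomial (Fin 3) ℂ)
    (R : ι → MvPolynomial (Fin 3) ℂ) (k : ℂ)
    (h : ∀ ε : ℝ, 0 < ε → ∃ M : ℝ, ∀ ξ η : ℂ, M ≤ max ‖ξ‖ ‖η‖ →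
      evq P0 (ξ, η, k) ≠ 0 ∧ ∀ i, ‖evq (R i) (ξ, η, k)‖ ≤ ε * ‖evq P0 (ξ, η, k)‖) :
    ∃ q : ℂ × ℂ × ℂ, ∀ i, evq (R i) q = 0 := by
  obtain ⟨M1, hM1⟩ := h 1 one_pos
  set η : ℂ := ((|M1| + 1 : ℝ) : ℂ) with hη
  have hηn : M1 ≤ ‖η‖ := by
    rw [hη, Complex.norm_real, Real.norm_of_nonneg (by positivity)]
    linarith [le_abs_self M1]
  have hne : ∀ ξ : ℂ, evq P0 (ξ, η, k) ≠ 0 := fun ξ => (hM1 ξ η (hηn.trans (le_max_right _ _))).1
  obtain ⟨p, hp⟩ := evq_poly P0 η k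
  have hdeg : p.degree ≤ 0 := by
    by_contra hcon
    rw [not_le] at hcon
    obtain ⟨z, hz⟩ := Complex.exists_root hcon
    exact hne z (by rw [← hp]; exact hz)
  have hpc := Polynomial.eq_C_of_degree_le_zero hdeg
  set g := p.coeff 0 with hg
  have hgc : ∀ ξ : ℂ, evq P0 (ξ, η, k) = g := by
    intro ξ
    rw [← hp, hpc, Polynomial.eval_C]
  have hg0 : g ≠ 0 := by
    rw [← hgc 0]
    exact hne 0
  have hgn : 0 < ‖g‖ := norm_pos_iff.2 hg0
  refine ⟨(0, η, k), fun i => ?_⟩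
  obtain ⟨r, hr⟩ := evq_poly (R i) η k
  have ht : Filter.Tendsto (fun ξ : ℂ => r.eval ξ) (Filter.cocompact ℂ) (nhds 0) := by
    rw [Metric.tendsto_nhds]
    intro ε hε
    obtain ⟨M, hM⟩ := h (ε / (2 * ‖g‖)) (by positivity)
    filter_upwards [(tendsto_norm_cocompact_atTop (E := ℂ)).eventually_ge_atTop M] with ξ hξ
    have h1 := (hM ξ η (hξ.trans (le_max_left _ _))).2 i
    rw [hgc, ← hr] at h1
    rw [dist_zero_right]
    have h2 : ε / (2 * ‖g‖) * ‖g‖ = ε / 2 := by field_simp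
    rw [h2] at h1
    linarith
  have hd : Differentiable ℂ (fun ξ : ℂ => r.eval ξ) := r.differentiable
  have := hd.apply_eq_of_tendsto_cocompact 0 ht
  rw [← hr]
  exact this

end Helper729.SAF.F1
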