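import Pool.Agent.Helper729.SAF.Base

set_option autoImplicit false

namespace Helper729.SAF.F2

open Helper729.SAF




theorem j10175_Q {ι : Type} [Fintype ι] (Q : ι → MvPolynomial (Fin 3) ℂ)
    (growth : ∀ P : MvPolynomial (Fin 3) ℂ, ∃ (C : ℝ) (D : ℕ), 0 < C ∧ ∀ q : ℂ × ℂ × ℂ,
      ‖evq P q‖ ≤ C * (1 + ‖q.1‖ + ‖q.2.1‖ + ‖q.2.2‖) ^ D) :
    ∃ (C : ℝ) (D : ℕ), 0 < C ∧ ∀ q : ℂ × ℂ × ℂ,
      ∑ i, ‖evq (Q i) q‖ ≤ C * (1 + ‖q.1‖ + ‖q.2.1‖ + ‖q.2.2‖) ^ D := by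
  choose C D hC h using growth
  refine ⟨∑ i, C (Q i) + 1, ∑ i, D (Q i), ?_, ?_⟩
  · have := Finset.sum_nonneg (fun i (_ : i ∈ Finset.univ) => (hC (Q i)).le)
    linarith
  · intro q
    set N : ℝ := 1 + ‖q.1‖ + ‖q.2.1‖ + ‖q.2.2‖ with hN
    have hN1 : 1 ≤ N := by
      have := norm_nonneg q.1
      have := norm_nonneg q.2.1
      have := norm_nonneg q.2.2
      linarith
    have h1 : ∀ i ∈ Finset.univ, ‖evq (Q i) q‖ ≤ C (Q i) * N ^ (∑ i, D (Q i)) := by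
      intro i _
      refine (h (Q i) q).trans ?_
      apply mul_le_mul_of_nonneg_left _ (hC _).le
      exact pow_le_pow_right₀ hN1 (Finset.single_le_sum (f := fun i => D (Q i)) (fun _ _ => Nat.zero_le _)
        (Finset.mem_univ i))
    refine (Finset.sum_le_sum h1).trans ?_
    rw [← Finset.sum_mul]
    apply mul_le_mul_of_nonneg_right _ (by positivity)
    linarith

theorem j10175_L {ι : Type} [Fintype ι] (R : Option ι → MvPolynomial (Fin 3) ℂ)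
    (lipschitz : ∀ P : MvPolynomial (Fin 3) ℂ, ∃ (C : ℝ) (D : ℕ), 0 < C ∧ ∀ x y z s : ℂ,
      ‖s‖ ≤ 1 → ‖evq P (x, y, z + s) - evq P (x, y, z)‖ ≤
        ‖s‖ * (C * (1 + ‖x‖ + ‖y‖ + ‖z‖) ^ D)) :
    ∃ (C : ℝ) (D : ℕ), 0 < C ∧ ∀ i, ∀ x y z s : ℂ,
      ‖s‖ ≤ 1 → ‖evq (R i) (x, y, z + s) - evq (R i) (x, y, z)‖ ≤
        ‖s‖ * (C * (1 + ‖x‖ + ‖y‖ + ‖z‖) ^ D) := by
  choose C D hC h using lipschitz
  refine ⟨∑ i, C (R i) + 1, ∑ i, D (R i), ?_, ?_⟩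
  · have := Finset.sum_nonneg (fun i (_ : i ∈ Finset.univ) => (hC (R i)).le)
    linarith
  · intro i x y z s hs
    set N : ℝ := 1 + ‖x‖ + ‖y‖ + ‖z‖ with hN
    have hN1 : 1 ≤ N := by
      have := norm_nonneg x
      have := norm_nonneg y
      have := norm_nonneg z
      linarith
    refine (h (R i) x y z s hs).trans ?_
    apply mul_le_mul_of_nonneg_left _ (norm_nonneg _)
    have h1 : C (R i) ≤ ∑ i, C (R i) + 1 := by
      have := Finset.single_le_sum (f := fun i => C (R i)) (fun i _ => (hC (R i)).le) (Finset.mem_univ i)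
      linarith
    have h2 : N ^ D (R i) ≤ N ^ (∑ i, D (R i)) :=
      pow_le_pow_right₀ hN1 (Finset.single_le_sum (f := fun i => D (R i)) (fun _ _ => Nat.zero_le _)
        (Finset.mem_univ i))
    exact mul_le_mul h1 h2 (by positivity) ((hC (R i)).le.trans h1)

theorem transfer {ι : Type} [Fintype ι] (P0 : MvPolynomial (Fin 3) ℂ)
    (R Q : ι → MvPolynomial (Fin 3) ℂ) (hQ : ∑ i, Q i * R i = 1)
    (growth : ∀ P : MvPolynomial (Fin 3) ℂ, ∃ (C : ℝ) (D : ℕ), 0 < C ∧ ∀ q : ℂ × ℂ × ℂ,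
      ‖evq P q‖ ≤ C * (1 + ‖q.1‖ + ‖q.2.1‖ + ‖q.2.2‖) ^ D)
    (lipschitz : ∀ P : MvPolynomial (Fin 3) ℂ, ∃ (C : ℝ) (D : ℕ), 0 < C ∧ ∀ x y z s : ℂ,
      ‖s‖ ≤ 1 → ‖evq P (x, y, z + s) - evq P (x, y, z)‖ ≤
        ‖s‖ * (C * (1 + ‖x‖ + ‖y‖ + ‖z‖) ^ D)) :
    ∃ E : ℕ, ∀ (k : ℕ) (ε : ℝ), 0 < ε → ∃ (M2 δ : ℝ), 0 < δ ∧ ∀ ξ η s : ℂ,
      M2 ≤ max ‖ξ‖ ‖η‖ → ‖s‖ * (max ‖ξ‖ ‖η‖) ^ E ≤ 1 → ‖s‖ ≤ 1 / 2 →
      Near P0 R δ (ξ, η, (k : ℂ) + s) →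
      evq P0 (ξ, η, (k : ℂ)) ≠ 0 ∧
        ∀ i, ‖evq (R i) (ξ, η, (k : ℂ))‖ ≤ ε * ‖evq P0 (ξ, η, (k : ℂ))‖ := by
  obtain ⟨C1, D1, hC1, hQ1⟩ := j10175_Q Q growth
  obtain ⟨C2, D2, hC2, hL⟩ := j10175_L (fun o : Option ι => o.elim P0 R) lipschitz
  refine ⟨D1 + D2 + 1, fun k ε hε => ?_⟩
  set c1 : ℝ := C1 * ((k : ℝ) + 4) ^ D1 with hc1
  set c2 : ℝ := C2 * ((k : ℝ) + 4) ^ D2 with hc2
  have hc1p : 0 < c1 := by positivity
  have hc2p : 0 < c2 := by positivity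
  set μ : ℝ := min (1 / 2) (ε / 8) with hμ
  have hμ0 : 0 < μ := by positivity
  refine ⟨max 1 (c1 * c2 / μ), min 1 (ε / 8), by positivity, ?_⟩
  intro ξ η s hM hsE hs hnear
  set δ : ℝ := min 1 (ε / 8) with hδ
  set M : ℝ := max ‖ξ‖ ‖η‖ with hMd
  have hM1 : 1 ≤ M := (le_max_left _ _).trans hM
  have hM0 : 0 < M := by linarith
  have hMc : c1 * c2 ≤ μ * M := by
    have := (le_max_right _ _).trans hM
    rw [div_le_iff₀ hμ0] at this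
    linarith
  have hξ : ‖ξ‖ ≤ M := le_max_left _ _
  have hη : ‖η‖ ≤ M := le_max_right _ _
  have hs0 : 0 ≤ ‖s‖ := norm_nonneg s
  have hk0 : (0 : ℝ) ≤ k := Nat.cast_nonneg k
  have hkM : (k : ℝ) ≤ k * M := le_mul_of_one_le_right hk0 hM1
  have hkn : ‖(k : ℂ)‖ = k := by simp
  have hN1 : 1 + ‖ξ‖ + ‖η‖ + ‖(k : ℂ) + s‖ ≤ ((k : ℝ) + 4) * M := by
    have := norm_add_le (k : ℂ) s
    rw [hkn] at this
    nlinarith
  have hN2 : 1 + ‖ξ‖ + ‖η‖ + ‖(k : ℂ)‖ ≤ ((k : ℝ) + 4) * M := by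
    rw [hkn]
    nlinarith
  have hp0 : 0 < ‖evq P0 (ξ, η, (k : ℂ) + s)‖ := norm_pos_iff.2 hnear.1
  set p : ℝ := ‖evq P0 (ξ, η, (k : ℂ) + s)‖ with hp
  -- lower bound for p
  have hone : 1 ≤ p * (c1 * M ^ D1) := by
    have h1 : ∑ i, evq (Q i) (ξ, η, (k : ℂ) + s) * evq (R i) (ξ, η, (k : ℂ) + s) = 1 := by
      have := congrArg (fun P => evq P (ξ, η, (k : ℂ) + s)) hQ
      simp only [evq, map_sum, map_mul, map_one] at this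
      exact this
    have h2 : (1 : ℝ) ≤ ∑ i, ‖evq (Q i) (ξ, η, (k : ℂ) + s)‖ * ‖evq (R i) (ξ, η, (k : ℂ) + s)‖ := by
      have := norm_sum_le Finset.univ (fun i => evq (Q i) (ξ, η, (k : ℂ) + s) * evq (R i) (ξ, η, (k : ℂ) + s))
      rw [h1, norm_one] at this
      simpa only [norm_mul] using this
    have h3 : ∑ i, ‖evq (Q i) (ξ, η, (k : ℂ) + s)‖ * ‖evq (R i) (ξ, η, (k : ℂ) + s)‖ ≤
        ∑ i, ‖evq (Q i) (ξ, η, (k : ℂ) + s)‖ * p := by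
      apply Finset.sum_le_sum
      intro i _
      apply mul_le_mul_of_nonneg_left _ (norm_nonneg _)
      refine (hnear.2 i).trans ?_
      have : δ ≤ 1 := min_le_left _ _
      calc δ * ‖evq P0 (ξ, η, (k : ℂ) + s)‖ ≤ 1 * p := mul_le_mul_of_nonneg_right this hp0.le
        _ = p := one_mul _
    rw [← Finset.sum_mul] at h3
    have h4 := hQ1 (ξ, η, (k : ℂ) + s)
    have h5 : C1 * (1 + ‖ξ‖ + ‖η‖ + ‖(k : ℂ) + s‖) ^ D1 ≤ c1 * M ^ D1 := by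
      rw [hc1, mul_assoc, ← mul_pow]
      apply mul_le_mul_of_nonneg_left _ hC1.le
      exact pow_le_pow_left₀ (by positivity) hN1 _
    have h6 := mul_le_mul_of_nonneg_right (h4.trans h5) hp0.le
    linarith
  -- the difference
  have hdiff : ∀ o : Option ι, ‖evq (o.elim P0 R) (ξ, η, (k : ℂ) + s) - evq (o.elim P0 R) (ξ, η, (k : ℂ))‖ ≤
      μ * p := by
    intro o
    have h1 := hL o ξ η (k : ℂ) s (by linarith)
    set Δ := ‖evq (o.elim P0 R) (ξ, η, (k : ℂ) + s) - evq (o.elim P0 R) (ξ, η, (k : ℂ))‖ with hΔ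
    have h2 : Δ ≤ c2 * (‖s‖ * M ^ D2) := by
      refine h1.trans ?_
      have h3 : C2 * (1 + ‖ξ‖ + ‖η‖ + ‖(k : ℂ)‖) ^ D2 ≤ c2 * M ^ D2 := by
        rw [hc2, mul_assoc, ← mul_pow]
        apply mul_le_mul_of_nonneg_left _ hC2.le
        exact pow_le_pow_left₀ (by positivity) hN2 _
      calc ‖s‖ * (C2 * (1 + ‖ξ‖ + ‖η‖ + ‖(k : ℂ)‖) ^ D2) ≤ ‖s‖ * (c2 * M ^ D2) :=
            mul_le_mul_of_nonneg_left h3 hs0
        _ = _ := by ring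
    have h4 : (‖s‖ * M ^ D2) * M ^ D1 * M ≤ 1 := by
      have : (‖s‖ * M ^ D2) * M ^ D1 * M = ‖s‖ * M ^ (D1 + D2 + 1) := by ring
      rw [this]; exact hsE
    have h5 : Δ * M ≤ c1 * c2 * p := by
      have h6 : 0 ≤ c2 * (‖s‖ * M ^ D2) * M := by positivity
      calc Δ * M ≤ c2 * (‖s‖ * M ^ D2) * M := mul_le_mul_of_nonneg_right h2 hM0.le
        _ = c2 * (‖s‖ * M ^ D2) * M * 1 := (mul_one _).symm
        _ ≤ c2 * (‖s‖ * M ^ D2) * M * (p * (c1 * M ^ D1)) := mul_le_mul_of_nonneg_left hone h6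
        _ = (c1 * c2 * p) * ((‖s‖ * M ^ D2) * M ^ D1 * M) := by ring
        _ ≤ (c1 * c2 * p) * 1 := mul_le_mul_of_nonneg_left h4 (by positivity)
        _ = c1 * c2 * p := mul_one _
    have h7 : Δ * M ≤ μ * p * M := by
      have := mul_le_mul_of_nonneg_right hMc hp0.le
      nlinarith
    exact le_of_mul_le_mul_right h7 hM0
  have hP0 : p / 2 ≤ ‖evq P0 (ξ, η, (k : ℂ))‖ := by
    have h1 : ‖evq P0 (ξ, η, (k : ℂ) + s) - evq P0 (ξ, η, (k : ℂ))‖ ≤ μ * p := hdiff none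
    have h2 : μ * p ≤ 1 / 2 * p := mul_le_mul_of_nonneg_right (min_le_left _ _) hp0.le
    have h3 := norm_sub_norm_le (evq P0 (ξ, η, (k : ℂ) + s)) (evq P0 (ξ, η, (k : ℂ)))
    linarith
  refine ⟨?_, fun i => ?_⟩
  · rw [← norm_pos_iff]
    linarith
  · have h1 : ‖evq (R i) (ξ, η, (k : ℂ) + s) - evq (R i) (ξ, η, (k : ℂ))‖ ≤ μ * p := hdiff (some i)
    have h2 : μ * p ≤ ε / 8 * p := mul_le_mul_of_nonneg_right (min_le_right _ _) hp0.le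
    have h3 := norm_sub_norm_le (evq (R i) (ξ, η, (k : ℂ))) (evq (R i) (ξ, η, (k : ℂ) + s))
    rw [norm_sub_rev] at h3
    have h4 := hnear.2 i
    have h5 : δ * p ≤ ε / 8 * p := mul_le_mul_of_nonneg_right (min_le_right _ _) hp0.le
    have h6 : ε * (p / 2) ≤ ε * ‖evq P0 (ξ, η, (k : ℂ))‖ := mul_le_mul_of_nonneg_left hP0 hε.le
    have h7 : 0 < ε * p := by positivity
    linarith

end Helper729.SAF.F2
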