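import Pool.Agent.Helper729.SAF.Base

set_option autoImplicit false

namespace Helper729.SAF.E4

open Helper729.SAF



/-- first coordinates of the backward orbit of `(a, b, 1 + s)` -/
noncomputable def Ust2 (a b s : ℂ) : ℕ → ℂ
  | 0 => a
  | 1 => s * a ^ 2 - b
  | (n + 2) => (s - 1 - n) * Ust2 a b s (n + 1) ^ 2 - Ust2 a b s n

theorem iter_Ust2 (a b s : ℂ) (n : ℕ) :
    G^[n + 1] (a, b, 1 + s) = (Ust2 a b s (n + 1), Ust2 a b s n, s - n) := by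
  induction n with
  | zero => simp [G, Ust2]
  | succ n ih =>
    rw [Function.iterate_succ_apply', ih]
    simp only [G, Ust2]
    refine Prod.ext ?_ (Prod.ext ?_ ?_)
    · simp only; ring
    · simp only
    · simp only; push_cast; ring

theorem lower_Ust2 (a b s : ℂ) (r : ℝ) (hr : 64 ≤ r) (hs : ‖s‖ = 1 / r)
    (ha1 : r ^ 2 / 2 ≤ ‖a‖) (ha2 : ‖a‖ ≤ 2 * r ^ 2) (hb : ‖b‖ ≤ 2 * r ^ 2) (n : ℕ) :
    4 * (r ^ 3 / 32) ^ (2 ^ n) ≤ ‖Ust2 a b s (n + 1)‖ ∧ 8 ≤ ‖Ust2 a b s (n + 1)‖ ∧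
      ‖Ust2 a b s n‖ ≤ ‖Ust2 a b s (n + 1)‖ ^ 2 / 4 := by
  have hr0 : (0:ℝ) < r := by linarith
  have hs' : ‖s‖ ≤ 1 / 64 := by
    rw [hs]; exact one_div_le_one_div_of_le (by norm_num) hr
  have hr2 : r ^ 2 * 64 ≤ r ^ 3 := by nlinarith [sq_nonneg r]
  induction n with
  | zero =>
    have h1 : r ^ 3 / 4 - 2 * r ^ 2 ≤ ‖Ust2 a b s 1‖ := by
      have e1 : ‖s * a ^ 2‖ - ‖b‖ ≤ ‖s * a ^ 2 - b‖ := norm_sub_norm_le _ _
      have e2 : r ^ 3 / 4 ≤ ‖s * a ^ 2‖ := by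
        rw [norm_mul, norm_pow, hs]
        have : (r ^ 2 / 2) ^ 2 ≤ ‖a‖ ^ 2 := pow_le_pow_left₀ (by positivity) ha1 2
        calc r ^ 3 / 4 = 1 / r * (r ^ 2 / 2) ^ 2 := by field_simp; ring
          _ ≤ 1 / r * ‖a‖ ^ 2 := by gcongr
      simp only [Ust2]
      linarith
    have h2 : r ^ 3 / 8 ≤ ‖Ust2 a b s 1‖ := by nlinarith
    have h4 : (64:ℝ) ^ 3 ≤ r ^ 3 := pow_le_pow_left₀ (by norm_num) hr 3
    refine ⟨?_, ?_, ?_⟩
    · simp only [pow_zero, pow_one]; linarith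
    · simp only [zero_add]; norm_num at h4; linarith
    · simp only [zero_add]
      have h3 : (r ^ 3 / 8) ^ 2 ≤ ‖Ust2 a b s 1‖ ^ 2 := pow_le_pow_left₀ (by positivity) h2 2
      have h5 : ‖Ust2 a b s 0‖ ≤ 2 * r ^ 2 := by simpa [Ust2] using ha2
      have h6 : (64:ℝ) ^ 4 ≤ r ^ 4 := pow_le_pow_left₀ (by norm_num) hr 4
      have h7 : (r ^ 3 / 8) ^ 2 = r ^ 4 * r ^ 2 / 64 := by ring
      have h8 : (64:ℝ)^4 * r ^ 2 ≤ r ^ 4 * r ^ 2 := by gcongr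
      norm_num at h8
      nlinarith
  | succ n ih =>
    obtain ⟨i1, i2, i3⟩ := ih
    have hc : 1 / 2 ≤ ‖s - 1 - n‖ := by
      have e1 : ‖((1:ℂ) + n)‖ - ‖s‖ ≤ ‖((1:ℂ) + n) - s‖ := norm_sub_norm_le _ _
      have e2 : ‖((1:ℂ) + n)‖ = 1 + (n:ℝ) := by
        have : ((1:ℂ) + n) = ((1 + n : ℕ) : ℂ) := by push_cast; ring
        rw [this, Complex.norm_natCast]; push_cast; ring
      have e3 : ‖((1:ℂ) + n) - s‖ = ‖s - 1 - n‖ := by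
        rw [norm_sub_rev]; congr 1; ring
      have e4 : (0:ℝ) ≤ n := Nat.cast_nonneg n
      rw [← e3]; linarith
    set x := ‖Ust2 a b s (n + 1)‖ with hx
    have hlow : x ^ 2 / 4 ≤ ‖Ust2 a b s (n + 2)‖ := by
      have e1 : ‖(s - 1 - n) * Ust2 a b s (n + 1) ^ 2‖ - ‖Ust2 a b s n‖ ≤
        ‖(s - 1 - n) * Ust2 a b s (n + 1) ^ 2 - Ust2 a b s n‖ := norm_sub_norm_le _ _
      have e2 : x ^ 2 / 2 ≤ ‖(s - 1 - n) * Ust2 a b s (n + 1) ^ 2‖ := by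
        rw [norm_mul, norm_pow, ← hx]
        nlinarith [sq_nonneg x]
      have e3 : Ust2 a b s (n + 2) = (s - 1 - n) * Ust2 a b s (n + 1) ^ 2 - Ust2 a b s n := by
        simp only [Ust2]
      rw [e3]; linarith
    refine ⟨?_, ?_, ?_⟩
    · refine le_trans ?_ hlow
      have e1 : (4 * (r ^ 3 / 32) ^ (2 ^ n)) ^ 2 ≤ x ^ 2 := pow_le_pow_left₀ (by positivity) i1 2
      have e2 : (4 * (r ^ 3 / 32) ^ (2 ^ n)) ^ 2 = 4 * (4 * (r ^ 3 / 32) ^ (2 ^ (n + 1))) := by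
        rw [mul_pow, ← pow_mul, ← pow_succ]; ring
      rw [e2] at e1
      linarith
    · refine le_trans ?_ hlow; nlinarith
    · have e1 : x ≤ ‖Ust2 a b s (n + 2)‖ := by nlinarith
      have e2 : 8 ≤ ‖Ust2 a b s (n + 2)‖ := by nlinarith
      have e3 : n + 1 + 1 = n + 2 := rfl
      rw [e3]
      nlinarith

theorem upper_Ust2 (a b : ℂ) (N : ℕ) (Λ : ℝ) (hΛ : 1 ≤ Λ) (ha : ‖a‖ = Λ) (hb : ‖b‖ ≤ Λ)
    (n : ℕ) (hn : n ≤ N) :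
    ‖Ust2 a b 0 (n + 1)‖ * (N + 2) ≤ ((N + 2) * Λ) ^ (2 ^ n) ∧
      ‖Ust2 a b 0 n‖ * (N + 2) ≤ ((N + 2) * Λ) ^ (2 ^ n) := by
  have hN : (0:ℝ) ≤ N := Nat.cast_nonneg N
  induction n with
  | zero =>
    simp only [Ust2, zero_add, pow_zero, pow_one]
    constructor
    · have : ‖(0:ℂ) * a ^ 2 - b‖ = ‖b‖ := by simp
      rw [this]; nlinarith
    · rw [ha]; linarith [mul_comm Λ ((N:ℝ)+2)]
  | succ n ih =>
    obtain ⟨i1, i2⟩ := ih (by omega)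
    set V := ((N + 2) * Λ) ^ (2 ^ n) with hV
    have hVN : (N + 2) * Λ ≤ V := by
      rw [hV]
      calc (N + 2) * Λ = ((N + 2) * Λ) ^ 1 := (pow_one _).symm
        _ ≤ _ := pow_le_pow_right₀ (by nlinarith) Nat.one_le_two_pow
    have hVN' : (N:ℝ) + 2 ≤ V := by nlinarith
    have hV2 : ((N + 2) * Λ) ^ (2 ^ (n + 1)) = V ^ 2 := by
      rw [hV, ← pow_mul, ← pow_succ]
    rw [hV2]
    have e3 : Ust2 a b 0 (n + 1 + 1) = (0 - 1 - n) * Ust2 a b 0 (n + 1) ^ 2 - Ust2 a b 0 n := by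
      simp only [Ust2]
    have e4 : ‖Ust2 a b 0 (n + 1 + 1)‖ ≤ (N:ℝ) * ‖Ust2 a b 0 (n + 1)‖ ^ 2 + ‖Ust2 a b 0 n‖ := by
      rw [e3]
      refine (norm_sub_le _ _).trans ?_
      rw [norm_mul, norm_pow]
      have e5 : ‖(0:ℂ) - 1 - n‖ ≤ N := by
        have : (0:ℂ) - 1 - n = -((1 + n : ℕ) : ℂ) := by push_cast; ring
        rw [this, norm_neg, Complex.norm_natCast]
        exact_mod_cast (by omega : 1 + n ≤ N)
      gcongr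
    set x := ‖Ust2 a b 0 (n + 1)‖ with hx
    set y := ‖Ust2 a b 0 n‖ with hy
    have hx0 : 0 ≤ x := norm_nonneg _
    have hy0 : 0 ≤ y := norm_nonneg _
    have hNN : (0:ℝ) < (N:ℝ) + 2 := by linarith
    have hx2 : (x * (N + 2)) ^ 2 ≤ V ^ 2 := pow_le_pow_left₀ (by positivity) i1 2
    constructor
    · -- (N x² + y)(N+2) ≤ V²
      have f1 : (N:ℝ) * x ^ 2 * (N + 2) ≤ N * (V ^ 2 / (N + 2)) := by
        have : x ^ 2 * (N + 2) ≤ V ^ 2 / (N + 2) := by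
          rw [le_div_iff₀ hNN]; nlinarith
        calc (N:ℝ) * x ^ 2 * (N + 2) = N * (x ^ 2 * (N + 2)) := by ring
          _ ≤ _ := by gcongr
      have f2 : y * (N + 2) ≤ V ^ 2 / (N + 2) := by
        rw [le_div_iff₀ hNN]
        calc y * (N + 2) * (N + 2) ≤ V * (N + 2) := by gcongr
          _ ≤ V * V := by gcongr
          _ = V ^ 2 := by ring
      have f3 : N * (V ^ 2 / (N + 2)) + V ^ 2 / (N + 2) ≤ V ^ 2 := by
        have g1 : V ^ 2 / ((N:ℝ) + 2) * (N + 2) = V ^ 2 := by field_simp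
        have g2 : 0 ≤ V ^ 2 / ((N:ℝ) + 2) := by positivity
        nlinarith
      calc ‖Ust2 a b 0 (n + 1 + 1)‖ * (N + 2) ≤ (N * x ^ 2 + y) * (N + 2) := by gcongr
        _ = N * x ^ 2 * (N + 2) + y * (N + 2) := by ring
        _ ≤ _ := by linarith
    · have : V ≤ V ^ 2 := by nlinarith
      linarith

theorem stage_two
    (minmod : ∀ (h : ℂ → ℂ), Differentiable ℂ h → ∀ ρ : ℝ, 0 < ρ →
      (∀ s : ℂ, ‖s‖ = ρ → ‖h 0‖ < ‖h s‖) → ∃ s : ℂ, ‖s‖ < ρ ∧ h s = 0)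
    (Gdiff : ∀ (n : ℕ) (A B : ℂ → ℂ), Differentiable ℂ A → Differentiable ℂ B → ∀ w : ℂ,
      Differentiable ℂ (fun s => (G^[n] (A s, B s, w + s)).1))
    (N : ℕ) (A B : ℂ → ℂ) (hA : Differentiable ℂ A) (hB : Differentiable ℂ B)
    (Λ : ℝ) (hΛ : (32 * ((N : ℝ) + 2)) ^ 2 ≤ Λ)
    (hA0 : ‖A 0‖ = Λ) (hB0 : ‖B 0‖ ≤ Λ)
    (hAs : ∀ s : ℂ, ‖s‖ ≤ 1 / Real.sqrt Λ → Λ / 2 ≤ ‖A s‖ ∧ ‖A s‖ ≤ 2 * Λ ∧ ‖B s‖ ≤ 2 * Λ) :
    ∃ s : ℂ, ‖s‖ < 1 / Real.sqrt Λ ∧ (G^[N + 1] (A s, B s, 1 + s)).1 = 0   := by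
  have hN : (0:ℝ) ≤ N := Nat.cast_nonneg N
  have hΛ0 : 0 < Λ := lt_of_lt_of_le (by positivity) hΛ
  set r := Real.sqrt Λ with hrdef
  have hrr : r ^ 2 = Λ := Real.sq_sqrt hΛ0.le
  have hrN : 32 * ((N:ℝ) + 2) ≤ r := Real.le_sqrt_of_sq_le hΛ
  have hr64 : 64 ≤ r := by linarith
  have hr0 : 0 < r := by linarith
  have hd : Differentiable ℂ (fun s => (G^[N + 1] (A s, B s, 1 + s)).1) := Gdiff (N + 1) A B hA hB 1
  obtain ⟨s, hs1, hs2⟩ := minmod (fun s => (G^[N + 1] (A s, B s, 1 + s)).1) hd (1 / r)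
    (by positivity) (by
      intro s hs

      rw [iter_Ust2, iter_Ust2]
      simp only
      have hb := hAs s (le_of_eq hs)
      have hlow := (lower_Ust2 (A s) (B s) s r hr64 hs (by rw [hrr]; exact hb.1)
        (by rw [hrr]; exact hb.2.1) (by rw [hrr]; exact hb.2.2) N).1
      have hup := (upper_Ust2 (A 0) (B 0) N Λ (by nlinarith) hA0 hB0 N le_rfl).1
      have h1 : ‖Ust2 (A 0) (B 0) 0 (N + 1)‖ ≤ ((N + 2) * Λ) ^ (2 ^ N) := by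
        refine le_trans ?_ hup
        nlinarith [norm_nonneg (Ust2 (A 0) (B 0) 0 (N + 1))]
      have h2 : ((N + 2) * Λ) ^ (2 ^ N) ≤ (r ^ 3 / 32) ^ (2 ^ N) := by
        apply pow_le_pow_left₀ (by positivity)
        rw [← hrr]
        nlinarith [sq_nonneg r, mul_le_mul_of_nonneg_left hrN (sq_nonneg r)]
      have h3 : 0 < (r ^ 3 / 32) ^ (2 ^ N) := by positivity
      linarith)
  exact ⟨s, hs1, hs2⟩

end Helper729.SAF.E4
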