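import Pool.Agent.Helper729.SAFDefs

set_option autoImplicit false

open MvPolynomial Filter Topology

namespace Helper729.SAF.T1

open SuperAttracting


theorem te_taylor {n : ℕ} (a : Fin n → ℂ) (g : MvPolynomial (Fin n) ℂ) :
    ∃ C : ℝ, 0 ≤ C ∧ ∀ w : Fin n → ℂ, ‖w - a‖ ≤ 1 →
      ‖eval w g - eval a g - ∑ j, (w - a) j * eval a (pderiv j g)‖ ≤ C * ‖w - a‖ ^ 2 := by
  classical
  induction g using MvPolynomial.induction_on with
  | C c => exact ⟨0, le_rfl, fun w _ => by simp⟩
  | add p q hp hq =>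
    obtain ⟨C1, h1, h1'⟩ := hp
    obtain ⟨C2, h2, h2'⟩ := hq
    refine ⟨C1 + C2, by positivity, fun w hw => ?_⟩
    have e : eval w (p + q) - eval a (p + q) - ∑ j, (w - a) j * eval a (pderiv j (p + q)) =
        (eval w p - eval a p - ∑ j, (w - a) j * eval a (pderiv j p)) +
        (eval w q - eval a q - ∑ j, (w - a) j * eval a (pderiv j q)) := by
      simp only [map_add, mul_add, Finset.sum_add_distrib]
      ring
    rw [e, add_mul]
    exact (norm_add_le _ _).trans (add_le_add (h1' w hw) (h2' w hw))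
  | mul_X p i hp =>
    obtain ⟨C1, h1, h1'⟩ := hp
    set D : ℝ := ∑ j, ‖eval a (pderiv j p)‖ with hD
    have hD0 : 0 ≤ D := Finset.sum_nonneg fun j _ => norm_nonneg _
    refine ⟨(‖a‖ + 1) * C1 + D, by positivity, fun w hw => ?_⟩
    set L : ℂ := ∑ j, (w - a) j * eval a (pderiv j p) with hL
    have e1 : ∑ j, (w - a) j * eval a (pderiv j (p * X i)) = a i * L + eval a p * (w - a) i := by
      have : ∀ j, (w - a) j * eval a (pderiv j (p * X i)) =
          a i * ((w - a) j * eval a (pderiv j p)) +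
            (if j = i then eval a p * (w - a) i else 0) := by
        intro j
        rw [Derivation.leibniz, pderiv_X]
        by_cases hji : j = i
        · subst hji
          simp
          ring
        · have : (Pi.single j (1 : MvPolynomial (Fin n) ℂ) : Fin n → MvPolynomial (Fin n) ℂ) i = 0 := by
            rw [Pi.single_apply, if_neg (Ne.symm hji)]
          simp [hji, this]
          ring
      simp_rw [this]
      rw [Finset.sum_add_distrib, ← Finset.mul_sum, Finset.sum_ite_eq' Finset.univ i]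
      simp [hL]
    have e2 : eval w (p * X i) - eval a (p * X i) - ∑ j, (w - a) j * eval a (pderiv j (p * X i)) =
        w i * (eval w p - eval a p - L) + (w - a) i * L := by
      rw [e1]
      simp only [map_mul, eval_X, Pi.sub_apply]
      ring
    rw [e2]
    have hwi : ‖w i‖ ≤ ‖a‖ + 1 := by
      have h1 : ‖w i‖ ≤ ‖w‖ := norm_le_pi_norm w i
      have h2 : ‖w‖ ≤ ‖a‖ + ‖w - a‖ := by
        have := norm_add_le a (w - a)
        simpa using this
      linarith
    have hwai : ‖(w - a) i‖ ≤ ‖w - a‖ := norm_le_pi_norm (w - a) i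
    have hLn : ‖L‖ ≤ D * ‖w - a‖ := by
      rw [hL, hD, Finset.sum_mul]
      refine (norm_sum_le _ _).trans (Finset.sum_le_sum fun j _ => ?_)
      rw [norm_mul, mul_comm]
      exact mul_le_mul_of_nonneg_left (norm_le_pi_norm (w - a) j) (norm_nonneg _)
    have hT := h1' w hw
    calc ‖w i * (eval w p - eval a p - L) + (w - a) i * L‖
        ≤ ‖w i‖ * ‖eval w p - eval a p - L‖ + ‖(w - a) i‖ * ‖L‖ := by
          refine (norm_add_le _ _).trans ?_
          rw [norm_mul, norm_mul]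
      _ ≤ (‖a‖ + 1) * (C1 * ‖w - a‖ ^ 2) + ‖w - a‖ * (D * ‖w - a‖) := by
          refine add_le_add ?_ ?_
          · exact mul_le_mul hwi hT (norm_nonneg _) (by positivity)
          · exact mul_le_mul hwai hLn (norm_nonneg _) (norm_nonneg _)
      _ = ((‖a‖ + 1) * C1 + D) * ‖w - a‖ ^ 2 := by ring

theorem tangent_estimate {n : ℕ} (S : Set (Fin n → ℂ)) (a : Fin n → ℂ) (ha : a ∈ closure S)
    (A : (Fin n → ℂ) →ₗ[ℂ] (Fin n → ℂ))
    (hA : ∀ τ : Fin n → ℂ, (∀ g : MvPolynomial (Fin n) ℂ, (∀ w ∈ S, eval w g = 0) →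
      ∑ j, τ j * eval a (pderiv j g) = 0) → A τ = 0) :
    ∃ C r : ℝ, 0 < r ∧ 0 ≤ C ∧ ∀ w ∈ S, ‖w - a‖ ≤ r → ‖A (w - a)‖ ≤ C * ‖w - a‖ ^ 2 := by
  classical
  let ell : MvPolynomial (Fin n) ℂ → Module.Dual ℂ (Fin n → ℂ) := fun g =>
    ∑ j, (eval a (pderiv j g)) • (LinearMap.proj j : (Fin n → ℂ) →ₗ[ℂ] ℂ)
  have hell : ∀ g τ, ell g τ = ∑ j, τ j * eval a (pderiv j g) := by
    intro g τ
    simp only [ell, LinearMap.sum_apply, LinearMap.smul_apply, LinearMap.proj_apply, smul_eq_mul]
    exact Finset.sum_congr rfl fun j _ => mul_comm _ _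
  let W : Submodule ℂ (Module.Dual ℂ (Fin n → ℂ)) :=
    { carrier := {l | ∃ g : MvPolynomial (Fin n) ℂ, (∀ w ∈ S, eval w g = 0) ∧ l = ell g}
      add_mem' := by
        rintro _ _ ⟨g, hg, rfl⟩ ⟨g', hg', rfl⟩
        refine ⟨g + g', fun w hw => by rw [map_add, hg w hw, hg' w hw, add_zero], ?_⟩
        simp only [ell, map_add, add_smul, Finset.sum_add_distrib]
      zero_mem' := ⟨0, by simp, by simp [ell]⟩
      smul_mem' := by
        rintro c _ ⟨g, hg, rfl⟩
        refine ⟨C c * g, fun w hw => by rw [map_mul, hg w hw, mul_zero], ?_⟩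
        simp only [ell, Derivation.leibniz, pderiv_C, smul_eq_mul, mul_zero, add_zero, map_mul,
          eval_C, mul_smul, Finset.smul_sum] }
  have hWmem : ∀ i, ((LinearMap.proj i : (Fin n → ℂ) →ₗ[ℂ] ℂ) ∘ₗ A) ∈ W := by
    intro i
    rw [← Subspace.dualCoannihilator_dualAnnihilator_eq (W := W), Submodule.mem_dualAnnihilator]
    intro τ hτ
    rw [Submodule.mem_dualCoannihilator] at hτ
    have : A τ = 0 := by
      refine hA τ fun g hg => ?_
      rw [← hell]
      exact hτ (ell g) ⟨g, hg, rfl⟩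
    simp [this]
  have hch : ∀ i, ∃ g : MvPolynomial (Fin n) ℂ, (∀ w ∈ S, eval w g = 0) ∧
      ∀ τ, (A τ) i = ∑ j, τ j * eval a (pderiv j g) := by
    intro i
    obtain ⟨g, hg, hgl⟩ := hWmem i
    refine ⟨g, hg, fun τ => ?_⟩
    rw [← hell, ← hgl]
    simp
  choose g hgS hgA using hch
  choose Cc hC0 hCt using fun i => te_taylor a (g i)
  refine ⟨∑ i, Cc i, 1, one_pos, Finset.sum_nonneg fun i _ => hC0 i, fun w hw hwa => ?_⟩
  rw [pi_norm_le_iff_of_nonneg (mul_nonneg (Finset.sum_nonneg fun i _ => hC0 i) (sq_nonneg _))]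
  intro i
  have ha0 : eval a (g i) = 0 := by
    have hcl : IsClosed {w : Fin n → ℂ | eval w (g i) = 0} :=
      isClosed_eq (MvPolynomial.continuous_eval (g i)) continuous_const
    exact closure_minimal (fun w hw => hgS i w hw) hcl ha
  have h1 := hCt i w hwa
  rw [hgS i w hw, ha0, sub_zero, zero_sub, norm_neg, ← hgA] at h1
  refine h1.trans (mul_le_mul_of_nonneg_right ?_ (sq_nonneg _))
  exact Finset.single_le_sum (f := Cc) (fun i _ => hC0 i) (Finset.mem_univ i)

end Helper729.SAF.T1
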