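import Pool.Agent.Helper729.SAFDefs

set_option autoImplicit false

open MvPolynomial Filter Topology

namespace Helper729.SAF.T2

open SuperAttracting


theorem second_order_one {E : Type} [NormedAddCommGroup E] [NormedSpace ℂ E]
    (Φ : E → E) (a : E) (hΦ : AnalyticAt ℂ Φ a) (ha : Φ a = a) :
    ∃ C r : ℝ, 0 < r ∧ 0 ≤ C ∧ ∀ w : E, ‖w - a‖ ≤ r →
      ‖Φ w - a - (fderiv ℂ Φ a) (w - a)‖ ≤ C * ‖w - a‖ ^ 2 := by
  obtain ⟨p, hp⟩ := hΦ
  have h1 := hp.isBigO_sub_partialSum_pow 2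
  have hfd := hp.fderiv_eq
  obtain ⟨C, hC, h2⟩ := h1.exists_nonneg
  rw [Asymptotics.isBigOWith_iff] at h2
  obtain ⟨r, hr, h3⟩ := Metric.eventually_nhds_iff.1 h2
  refine ⟨C, r / 2, by positivity, hC, ?_⟩
  intro w hw
  have h4 := h3 (y := w - a) (by rw [dist_zero_right]; linarith)
  have h5 : p.partialSum 2 (w - a) = a + (fderiv ℂ Φ a) (w - a) := by
    rw [FormalMultilinearSeries.partialSum, Finset.sum_range_succ, Finset.sum_range_one]
    congr 1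
    · rw [← ha]
      have := hp.coeff_zero (fun _ : Fin 0 => w - a)
      rw [ha] at this ⊢
      exact this
    · rw [hfd, continuousMultilinearCurryFin1_apply]
      congr 1
  rw [h5] at h4
  have h6 : Φ w - a - (fderiv ℂ Φ a) (w - a) = Φ (a + (w - a)) - (a + (fderiv ℂ Φ a) (w - a)) := by
    rw [add_sub_cancel]; abel
  rw [h6]
  simpa using h4

theorem iterate_second_order {E : Type} [NormedAddCommGroup E] [NormedSpace ℂ E]
    (Φ : E → E) (a : E) (hΦ : AnalyticAt ℂ Φ a) (ha : Φ a = a) (m : ℕ) :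
    ∃ C r : ℝ, 0 < r ∧ 0 ≤ C ∧ ∀ w : E, ‖w - a‖ ≤ r →
      ‖Φ^[m] w - a - (fderiv ℂ Φ a)^[m] (w - a)‖ ≤ C * ‖w - a‖ ^ 2 := by
  obtain ⟨C₁, r₁, hr₁, hC₁, h₁⟩ := second_order_one Φ a hΦ ha
  set L := fderiv ℂ Φ a with hL
  have hiter : ∀ (n : ℕ) (x : E), ‖L^[n] x‖ ≤ ‖L‖ ^ n * ‖x‖ := by
    intro n
    induction n with
    | zero => intro x; simp
    | succ n ih =>
      intro x
      rw [Function.iterate_succ_apply']
      calc ‖L (L^[n] x)‖ ≤ ‖L‖ * ‖L^[n] x‖ := L.le_opNorm _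
        _ ≤ ‖L‖ * (‖L‖ ^ n * ‖x‖) := by gcongr; exact ih x
        _ = ‖L‖ ^ (n+1) * ‖x‖ := by ring
  induction m with
  | zero => exact ⟨0, 1, one_pos, le_refl _, fun w _ => by simp⟩
  | succ m ih =>
    obtain ⟨C, r, hr, hC, h⟩ := ih
    -- bound K
    set K : ℝ := ‖L‖ ^ m + C with hK
    have hK0 : 0 ≤ K := by positivity
    refine ⟨C₁ * K ^ 2 + ‖L‖ * C, min (min r 1) (r₁ / (K + 1)), by positivity, by positivity, ?_⟩
    intro w hw
    have hwr : ‖w - a‖ ≤ r := hw.trans ((min_le_left _ _).trans (min_le_left _ _))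
    have hw1 : ‖w - a‖ ≤ 1 := hw.trans ((min_le_left _ _).trans (min_le_right _ _))
    have hw2 : ‖w - a‖ ≤ r₁ / (K + 1) := hw.trans (min_le_right _ _)
    have hA := h w hwr
    have hB : ‖Φ^[m] w - a‖ ≤ K * ‖w - a‖ := by
      have e : Φ^[m] w - a = (Φ^[m] w - a - L^[m] (w - a)) + L^[m] (w - a) := by abel
      rw [e]
      refine (norm_add_le _ _).trans ?_
      have := hiter m (w - a)
      have h0 : 0 ≤ ‖w - a‖ := norm_nonneg _
      have : C * ‖w - a‖ ^ 2 ≤ C * ‖w - a‖ := by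
        apply mul_le_mul_of_nonneg_left _ hC
        nlinarith
      rw [hK]
      nlinarith
    have hB1 : ‖Φ^[m] w - a‖ ≤ r₁ := by
      refine hB.trans ?_
      have h0 : 0 ≤ ‖w - a‖ := norm_nonneg _
      have : ‖w - a‖ * (K + 1) ≤ r₁ := by
        rwa [le_div_iff₀ (by positivity)] at hw2
      nlinarith
    have hD := h₁ (Φ^[m] w) hB1
    rw [Function.iterate_succ_apply', Function.iterate_succ_apply']
    have e : Φ (Φ^[m] w) - a - L (L^[m] (w - a))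
        = (Φ (Φ^[m] w) - a - L (Φ^[m] w - a)) + L (Φ^[m] w - a - L^[m] (w - a)) := by
      rw [map_sub L (Φ^[m] w - a) (L^[m] (w - a))]; abel
    rw [e]
    refine (norm_add_le _ _).trans ?_
    have hE : ‖L (Φ^[m] w - a - L^[m] (w - a))‖ ≤ ‖L‖ * (C * ‖w - a‖ ^ 2) :=
      (L.le_opNorm _).trans (by gcongr)
    have hF : C₁ * ‖Φ^[m] w - a‖ ^ 2 ≤ C₁ * (K * ‖w - a‖) ^ 2 := by gcongr
    calc _ ≤ C₁ * (K * ‖w - a‖) ^ 2 + ‖L‖ * (C * ‖w - a‖ ^ 2) := add_le_add (hD.trans hF) hE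
      _ = _ := by ring

end Helper729.SAF.T2
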