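import Pool.Agent.Helper729.SAFDefs

set_option autoImplicit false

open MvPolynomial Filter Topology

namespace Helper729.SAF.T3

open SuperAttracting


/-- the automorphism `f = (y, z y² - x, z + 1)` -/
noncomputable def fmap : PolyMap := ![X 1, X 2 * X 1 ^ 2 - X 0, X 2 + 1]

/-- its inverse `((z - 1) x² - y, x, z - 1)` -/
noncomputable def finvmap : PolyMap := ![(X 2 - 1) * X 0 ^ 2 - X 1, X 0, X 2 - 1]

theorem dyn_of_bounds (p : PolyMap) (h1 : ∀ n, 2 ^ n ≤ deg (iter p n))
    (h2 : ∀ n, deg (iter p n) ≤ 2 ^ (n + 1)) : HasDynamicalDegree p 2 := by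
  unfold HasDynamicalDegree
  have hub : Tendsto (fun n : ℕ => (2 : ℝ) ^ (1 + 1 / (n : ℝ))) atTop (𝓝 2) := by
    have h : Tendsto (fun n : ℕ => (1 : ℝ) + 1 / (n : ℝ)) atTop (𝓝 (1 + 0)) :=
      tendsto_const_nhds.add tendsto_one_div_atTop_nhds_zero_nat
    have h' := (Real.continuous_const_rpow (a := (2:ℝ)) (by norm_num)).continuousAt.tendsto.comp h
    simpa [Function.comp_def] using h'
  refine tendsto_of_tendsto_of_tendsto_of_le_of_le' tendsto_const_nhds hub ?_ ?_
  · filter_upwards [eventually_ge_atTop 1] with n hn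
    have hn0 : (n : ℝ) ≠ 0 := by positivity
    have e : (2 : ℝ) = ((2 : ℝ) ^ n) ^ (1 / (n : ℝ)) := by
      rw [← Real.rpow_natCast, ← Real.rpow_mul (by norm_num)]
      rw [mul_one_div_cancel hn0, Real.rpow_one]
    calc (2 : ℝ) = ((2 : ℝ) ^ n) ^ (1 / (n : ℝ)) := e
      _ ≤ ((deg (iter p n) : ℕ) : ℝ) ^ (1 / (n : ℝ)) := by
        apply Real.rpow_le_rpow (by positivity) _ (by positivity)
        exact_mod_cast h1 n
  · filter_upwards [eventually_ge_atTop 1] with n hn
    have hn0 : (n : ℝ) ≠ 0 := by positivity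
    have e : ((2 : ℝ) ^ (n + 1)) ^ (1 / (n : ℝ)) = (2 : ℝ) ^ (1 + 1 / (n : ℝ)) := by
      rw [← Real.rpow_natCast, ← Real.rpow_mul (by norm_num)]
      congr 1
      push_cast
      field_simp
    calc ((deg (iter p n) : ℕ) : ℝ) ^ (1 / (n : ℝ)) ≤ ((2 : ℝ) ^ (n + 1)) ^ (1 / (n : ℝ)) := by
          apply Real.rpow_le_rpow (by positivity) _ (by positivity)
          exact_mod_cast h2 n
      _ = _ := e

theorem le_deg (p : PolyMap) (i : Fin 3) : (p i).totalDegree ≤ deg p :=
  Finset.le_sup (f := fun i => (p i).totalDegree) (Finset.mem_univ i)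

theorem deg_le (p : PolyMap) (m : ℕ) (h : ∀ i, (p i).totalDegree ≤ m) : deg p ≤ m :=
  Finset.sup_le fun i _ => h i

theorem iter_fmap_zero (n : ℕ) : iter fmap (n + 1) 0 = iter fmap n 1 := by
  simp [iter, comp, fmap]

theorem iter_fmap_one (n : ℕ) : iter fmap (n + 1) 1 =
    iter fmap n 2 * (iter fmap n 1) ^ 2 - iter fmap n 0 := by
  simp [iter, comp, fmap]

theorem iter_fmap_two (n : ℕ) : iter fmap n 2 = X 2 + C (n : ℂ) := by
  induction n with
  | zero => simp [iter]
  | succ n ih =>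
    have : iter fmap (n + 1) 2 = iter fmap n 2 + 1 := by simp [iter, comp, fmap]
    rw [this, ih]; push_cast; simp [add_assoc]

theorem iter_finvmap_one (n : ℕ) : iter finvmap (n + 1) 1 = iter finvmap n 0 := by
  simp [iter, comp, finvmap]

theorem iter_finvmap_zero (n : ℕ) : iter finvmap (n + 1) 0 =
    (iter finvmap n 2 - 1) * (iter finvmap n 0) ^ 2 - iter finvmap n 1 := by
  simp [iter, comp, finvmap]

theorem iter_finvmap_two (n : ℕ) : iter finvmap n 2 = X 2 - C (n : ℂ) := by
  induction n with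
  | zero => simp [iter]
  | succ n ih =>
    have : iter finvmap (n + 1) 2 = iter finvmap n 2 - 1 := by simp [iter, comp, finvmap]
    rw [this, ih]; push_cast; simp [sub_sub]

theorem td_lin (c : ℂ) : (X 2 + C c : MvPolynomial (Fin 3) ℂ).totalDegree ≤ 1 := by
  refine (totalDegree_add _ _).trans ?_
  simp [totalDegree_X]

theorem td_step (u v w : MvPolynomial (Fin 3) ℂ) (n : ℕ) (hu : u.totalDegree ≤ 1)
    (hv : v.totalDegree ≤ 2 ^ (n + 1) - 1) (hw : w.totalDegree ≤ 2 ^ n) :
    (u * v ^ 2 - w).totalDegree ≤ 2 ^ (n + 2) - 1 := by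
  have h1 : 1 ≤ 2 ^ n := Nat.one_le_two_pow
  refine (totalDegree_sub _ _).trans (max_le ?_ ?_)
  · refine (totalDegree_mul _ _).trans ?_
    have := totalDegree_pow v 2
    have e1 : 2 ^ (n + 1) = 2 * 2 ^ n := by ring
    have e2 : 2 ^ (n + 2) = 4 * 2 ^ n := by ring
    omega
  · have e2 : 2 ^ (n + 2) = 4 * 2 ^ n := by ring
    omega

theorem upper_fmap (n : ℕ) : (iter fmap n 0).totalDegree ≤ 2 ^ n ∧
    (iter fmap n 1).totalDegree ≤ 2 ^ (n + 1) - 1 := by
  induction n with
  | zero => simp [iter, totalDegree_X]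
  | succ n ih =>
    rw [iter_fmap_zero, iter_fmap_one]
    refine ⟨ih.2.trans (Nat.sub_le _ _), ?_⟩
    apply td_step _ _ _ _ _ ih.2 ih.1
    rw [iter_fmap_two]; exact td_lin _

theorem upper_finvmap (n : ℕ) : (iter finvmap n 1).totalDegree ≤ 2 ^ n ∧
    (iter finvmap n 0).totalDegree ≤ 2 ^ (n + 1) - 1 := by
  induction n with
  | zero => simp [iter, totalDegree_X]
  | succ n ih =>
    rw [iter_finvmap_zero, iter_finvmap_one]
    refine ⟨ih.2.trans (Nat.sub_le _ _), ?_⟩
    apply td_step _ _ _ _ _ ih.2 ih.1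
    rw [iter_finvmap_two]
    have : (X 2 - C (n:ℂ) - 1 : MvPolynomial (Fin 3) ℂ) = X 2 + C (-(n:ℂ) - 1) := by
      simp [sub_eq_add_neg, add_assoc]
    rw [this]; exact td_lin _

theorem nd_step (u v : Polynomial ℂ) (c : ℂ) (hc : c ≠ 0) (n : ℕ) (hu : u.natDegree = 2 ^ n)
    (hv : v.natDegree < 2 ^ n) : (Polynomial.C c * u ^ 2 - v).natDegree = 2 ^ (n + 1) := by
  have h1 : (Polynomial.C c * u ^ 2).natDegree = 2 ^ (n + 1) := by
    rw [Polynomial.natDegree_C_mul hc, Polynomial.natDegree_pow, hu]; ring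
  rw [Polynomial.natDegree_sub_eq_left_of_natDegree_lt, h1]
  rw [h1]
  exact hv.trans (Nat.pow_lt_pow_right (by norm_num) (by omega))

theorem lower_fmap (n : ℕ) :
    (aeval (![0, Polynomial.X, 1] : Fin 3 → Polynomial ℂ) (iter fmap n 0)).natDegree < 2 ^ n ∧
    (aeval (![0, Polynomial.X, 1] : Fin 3 → Polynomial ℂ) (iter fmap n 1)).natDegree = 2 ^ n := by
  induction n with
  | zero => simp [iter]
  | succ n ih =>
    rw [iter_fmap_zero, iter_fmap_one, iter_fmap_two]
    refine ⟨?_, ?_⟩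
    · rw [ih.2]; exact Nat.pow_lt_pow_right (by norm_num) (by omega)
    · have hc : (1 + (n:ℂ)) ≠ 0 := by
        have : (1 + (n:ℂ)) = ((n + 1 : ℕ) : ℂ) := by push_cast; ring
        rw [this]; exact Nat.cast_ne_zero.mpr (by omega)
      have h := nd_step _ _ (1 + (n:ℂ)) hc n ih.2 ih.1
      rw [← h]
      congr 1
      simp

theorem lower_finvmap (n : ℕ) :
    (aeval (![Polynomial.X, 0, Polynomial.C (1/2)] : Fin 3 → Polynomial ℂ)
      (iter finvmap n 1)).natDegree < 2 ^ n ∧
    (aeval (![Polynomial.X, 0, Polynomial.C (1/2)] : Fin 3 → Polynomial ℂ)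
      (iter finvmap n 0)).natDegree = 2 ^ n := by
  induction n with
  | zero => simp [iter]
  | succ n ih =>
    rw [iter_finvmap_zero, iter_finvmap_one, iter_finvmap_two]
    refine ⟨?_, ?_⟩
    · rw [ih.2]; exact Nat.pow_lt_pow_right (by norm_num) (by omega)
    · have hc : (1/2 - (n:ℂ) - 1) ≠ 0 := by
        intro h0
        have h1 : (2 * (n:ℂ) + 1) = 0 := by linear_combination (-2) * h0
        have : (2 * (n:ℂ) + 1) = ((2 * n + 1 : ℕ) : ℂ) := by push_cast; ring
        rw [this] at h1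
        exact absurd h1 (Nat.cast_ne_zero.mpr (by omega))
      have h := nd_step _ _ (1/2 - (n:ℂ) - 1) hc n ih.2 ih.1
      rw [← h]
      congr 1
      simp [Polynomial.C_sub]

theorem fmap_dynDegree : HasDynamicalDegree fmap 2 := by
  refine dyn_of_bounds _ (fun n => ?_) (fun n => ?_)
  · have h := aeval_natDegree_le (iter fmap n 1) le_rfl
      (![0, Polynomial.X, 1] : Fin 3 → Polynomial ℂ) (n := 1) (by
        intro i; fin_cases i <;> simp)
    rw [(lower_fmap n).2, mul_one] at h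
    exact h.trans (le_deg _ 1)
  · apply deg_le
    intro i
    have h1 : 1 ≤ 2 ^ n := Nat.one_le_two_pow
    have e1 : 2 ^ (n + 1) = 2 * 2 ^ n := by ring
    have h := upper_fmap n
    fin_cases i
    · exact h.1.trans (by omega)
    · exact h.2.trans (by omega)
    · have h2 := td_lin (n : ℂ)
      rw [← iter_fmap_two] at h2
      exact h2.trans (by omega)

theorem finvmap_dynDegree : HasDynamicalDegree finvmap 2 := by
  refine dyn_of_bounds _ (fun n => ?_) (fun n => ?_)
  · have h := aeval_natDegree_le (iter finvmap n 0) le_rfl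
      (![Polynomial.X, 0, Polynomial.C (1/2)] : Fin 3 → Polynomial ℂ) (n := 1) (by
        intro i; fin_cases i <;> simp)
    rw [(lower_finvmap n).2, mul_one] at h
    exact h.trans (le_deg _ 0)
  · apply deg_le
    intro i
    have h1 : 1 ≤ 2 ^ n := Nat.one_le_two_pow
    have e1 : 2 ^ (n + 1) = 2 * 2 ^ n := by ring
    have h := upper_finvmap n
    fin_cases i
    · exact h.2.trans (by omega)
    · exact h.1.trans (by omega)
    · have h2 : (iter finvmap n 2).totalDegree ≤ 1 := by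
        rw [iter_finvmap_two, sub_eq_add_neg, ← C_neg]; exact td_lin _
      exact h2.trans (by omega)

end Helper729.SAF.T3
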