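import Pool.Agent.Helper729.SAF.Core
import Pool.Agent.Helper729.SAF.T1
import Pool.Agent.Helper729.SAF.T2
import Pool.Agent.Helper729.SAF.T3

set_option autoImplicit false

open MvPolynomial Filter Topology

namespace Helper729.SAF

open SuperAttracting SuperAttracting.ProjCompactification

/-- `ℂ × ℂ × ℂ → (Fin 3 → ℂ)` -/
def to3 (q : ℂ × ℂ × ℂ) : Fin 3 → ℂ := ![q.1, q.2.1, q.2.2]

theorem evq_eq (P : MvPolynomial (Fin 3) ℂ) (q : ℂ × ℂ × ℂ) : evq P q = eval (to3 q) P := rfl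

theorem to3_surj (p : Fin 3 → ℂ) : ∃ q, to3 q = p :=
  ⟨(p 0, p 1, p 2), by ext i; fin_cases i <;> rfl⟩

theorem ap_fmap (q : ℂ × ℂ × ℂ) : ap T3.fmap (to3 q) = to3 (F q) := by
  ext i
  fin_cases i <;> simp [ap, T3.fmap, to3, F]

section

variable {N : ℕ} (X : ProjCompactification N) (i : Fin (N + 1)) (a : Fin (N + 1) → ℂ)

/-- numerators of the local coordinates at `a` -/
noncomputable def RR (j : Fin (N + 1)) : MvPolynomial (Fin 3) ℂ := X.P j - C (a j) * X.P i

theorem chart_apply (i : Fin (N + 1)) (w : Fin (N + 1) → ℂ) (j : Fin (N + 1)) :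
    chart i w j = w j / w i := by
  simp [chart, div_eq_inv_mul]

theorem chart_smul (i : Fin (N + 1)) (w : Fin (N + 1) → ℂ) (c : ℂ) (hc : c ≠ 0) :
    chart i (c • w) = chart i w := by
  ext j
  rw [chart_apply, chart_apply]
  simp only [Pi.smul_apply, smul_eq_mul]
  rw [mul_div_mul_left _ _ hc]

theorem near_iff (δ : ℝ) (hδ : 0 ≤ δ) (q : ℂ × ℂ × ℂ) :
    Near (X.P i) (RR X i a) δ q ↔
      eval (to3 q) (X.P i) ≠ 0 ∧ ‖chart i (X.lift (to3 q)) - a‖ ≤ δ := by
  unfold Near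
  constructor
  · rintro ⟨h0, h⟩
    refine ⟨h0, ?_⟩
    rw [pi_norm_le_iff_of_nonneg hδ]
    intro j
    have h0' : eval (to3 q) (X.P i) ≠ 0 := h0
    have hj := h j
    rw [Pi.sub_apply, chart_apply]
    have e : X.lift (to3 q) j / X.lift (to3 q) i - a j
        = eval (to3 q) (RR X i a j) / eval (to3 q) (X.P i) := by
      simp only [ProjCompactification.lift, RR, map_sub, map_mul, eval_C]
      field_simp
    rw [e, norm_div, div_le_iff₀ (norm_pos_iff.mpr h0')]
    exact hj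
  · rintro ⟨h0, h⟩
    refine ⟨h0, fun j => ?_⟩
    rw [pi_norm_le_iff_of_nonneg hδ] at h
    have hj := h j
    rw [Pi.sub_apply, chart_apply] at hj
    have e : X.lift (to3 q) j / X.lift (to3 q) i - a j
        = eval (to3 q) (RR X i a j) / eval (to3 q) (X.P i) := by
      simp only [ProjCompactification.lift, RR, map_sub, map_mul, eval_C]
      field_simp
    rw [e, norm_div, div_le_iff₀ (norm_pos_iff.mpr h0)] at hj
    exact hj

end

theorem no_superattracting
    (purity : ∀ (P : MvPolynomial (Fin 3) ℂ), P ≠ 0 → ∀ n : ℕ, P.degreeOf 0 ≤ n →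
      ∃ (m : ℕ) (κ : Polynomial ℂ), PureAn P n m κ)
    {N : ℕ} (X : ProjCompactification N) (v : Fin (N + 1) → ℂ) (hinf : X.AtInfinity v) :
    ¬ X.IsSuperAttracting T3.fmap v := by
  rintro ⟨i, Φ, hvi, han, hfix, hev, m, hm⟩
  set a : Fin (N + 1) → ℂ := chart i v with ha
  obtain ⟨hv0, hvcl, hvnot⟩ := hinf
  -- no common zero
  have hR : ∀ q : ℂ × ℂ × ℂ, ∃ j, evq (RR X i a j) q ≠ 0 := by
    intro q
    by_contra hcon
    push Not at hcon
    have h1 : ∀ j, eval (to3 q) (X.P j) = a j * eval (to3 q) (X.P i) := by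
      intro j
      have := hcon j
      rw [evq_eq] at this
      simp only [RR, map_sub, map_mul, eval_C] at this
      linear_combination this
    by_cases hz : eval (to3 q) (X.P i) = 0
    · obtain ⟨j, hj⟩ := X.base_point_free (to3 q)
      exact hj (by rw [h1 j, hz, mul_zero])
    · refine hvnot (v i / eval (to3 q) (X.P i)) (to3 q) ?_
      ext j
      simp only [Pi.smul_apply, smul_eq_mul, ProjCompactification.lift]
      rw [h1 j, ha, chart_apply]
      field_simp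
  -- approximation
  have h1 : ∀ δ : ℝ, 0 < δ → ∃ q, Near (X.P i) (RR X i a) δ q := by
    intro δ hδ
    have hcont : ContinuousAt (fun w : Fin (N + 1) → ℂ => chart i w) v := by
      unfold ProjCompactification.chart
      exact ((continuousAt_apply i v).inv₀ hvi).smul continuousAt_id
    have hne : ∀ᶠ w in 𝓝 v, w i ≠ 0 := (continuousAt_apply i v).eventually_ne hvi
    have hnear : ∀ᶠ w in 𝓝 v, dist (chart i w) (chart i v) < δ :=
      hcont.eventually (Metric.ball_mem_nhds _ hδ)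
    have hfr := mem_closure_iff_frequently.mp hvcl
    obtain ⟨w, ⟨c, p, rfl⟩, hw1, hw2⟩ := (hfr.and_eventually (hne.and hnear)).exists
    obtain ⟨q, rfl⟩ := to3_surj p
    have hc : c ≠ 0 := by
      rintro rfl
      exact hw1 (by simp)
    have hPi : eval (to3 q) (X.P i) ≠ 0 := by
      intro h
      apply hw1
      simp [ProjCompactification.lift, h]
    refine ⟨q, (near_iff X i a δ hδ.le q).mpr ⟨hPi, ?_⟩⟩
    rw [chart_smul i _ c hc, dist_eq_norm] at hw2
    exact hw2.le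
  -- the local dynamics
  obtain ⟨δ2, hδ2, hdyn⟩ := Metric.eventually_nhds_iff.mp hev
  have hdyn' : ∀ q : ℂ × ℂ × ℂ, eval (to3 q) (X.P i) ≠ 0 →
      ‖chart i (X.lift (to3 q)) - a‖ < δ2 →
      eval (to3 (F q)) (X.P i) ≠ 0 ∧
        chart i (X.lift (to3 (F q))) = Φ (chart i (X.lift (to3 q))) := by
    intro q hq hn
    have := hdyn (y := chart i (X.lift (to3 q))) (by rw [dist_eq_norm]; exact hn) (to3 q) hq rfl
    rw [ap_fmap] at this
    exact this
  have h2 : ∀ ε : ℝ, 0 < ε → ∃ δ : ℝ, 0 < δ ∧ ∀ q, Near (X.P i) (RR X i a) δ q →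
      Near (X.P i) (RR X i a) ε (F q) := by
    intro ε hε
    have hc : ContinuousAt Φ a := han.continuousAt
    obtain ⟨δ1, hδ1, hc1⟩ := Metric.continuousAt_iff.mp hc ε hε
    refine ⟨min δ1 δ2 / 2, by positivity, fun q hq => ?_⟩
    have hpos : 0 < min δ1 δ2 := lt_min hδ1 hδ2
    rw [near_iff X i a _ (by positivity)] at hq
    obtain ⟨hq1, hq2⟩ := hq
    have hlt : ‖chart i (X.lift (to3 q)) - a‖ < min δ1 δ2 := by linarith
    obtain ⟨hF1, hF2⟩ := hdyn' q hq1 (hlt.trans_le (min_le_right _ _))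
    rw [near_iff X i a _ hε.le]
    refine ⟨hF1, ?_⟩
    rw [hF2]
    have := hc1 (x := chart i (X.lift (to3 q)))
      (by rw [dist_eq_norm]; exact hlt.trans_le (min_le_left _ _))
    rw [dist_eq_norm, hfix] at this
    exact this.le
  have hiter : ∀ T : ℕ, ∃ r : ℝ, 0 < r ∧ ∀ q, Near (X.P i) (RR X i a) r q →
      eval (to3 (F^[T] q)) (X.P i) ≠ 0 ∧
        chart i (X.lift (to3 (F^[T] q))) = Φ^[T] (chart i (X.lift (to3 q))) := by
    intro T
    induction T with
    | zero => exact ⟨1, one_pos, fun q hq => ⟨hq.1, rfl⟩⟩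
    | succ T ih =>
      obtain ⟨r1, hr1, h⟩ := ih
      obtain ⟨r2, hr2, hit⟩ := near_iterate h2 T (δ2 / 2) (by positivity)
      refine ⟨min r1 r2, lt_min hr1 hr2, fun q hq => ?_⟩
      obtain ⟨hA, hB⟩ := h q (near_mono (min_le_left _ _) hq)
      have hC := hit q (near_mono (min_le_right _ _) hq)
      rw [near_iff X i a _ (by positivity)] at hC
      obtain ⟨hD1, hD2⟩ := hdyn' (F^[T] q) hC.1 (by linarith [hC.2])
      rw [Function.iterate_succ_apply', Function.iterate_succ_apply']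
      exact ⟨hD1, by rw [hD2, hB]⟩
  -- second order estimates
  set S : Set (Fin (N + 1) → ℂ) :=
    {w | ∃ q : Fin 3 → ℂ, eval q (X.P i) ≠ 0 ∧ w = chart i (X.lift q)} with hS
  have haS : a ∈ closure S := by
    rw [Metric.mem_closure_iff]
    intro ε hε
    obtain ⟨q, hq⟩ := h1 (ε / 2) (by positivity)
    rw [near_iff X i a _ (by positivity)] at hq
    refine ⟨_, ⟨to3 q, hq.1, rfl⟩, ?_⟩
    rw [dist_comm, dist_eq_norm]
    linarith [hq.2]
  obtain ⟨C1, r1, hr1, hC1, hest1⟩ := T1.tangent_estimate S a haS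
    (((fderiv ℂ Φ a : (Fin (N + 1) → ℂ) →L[ℂ] (Fin (N + 1) → ℂ)) :
      (Fin (N + 1) → ℂ) →ₗ[ℂ] (Fin (N + 1) → ℂ)) ^ (m + 1)) (by
      intro τ hτ
      have hmem : τ ∈ X.tangentSpace i a := by
        intro g hg
        refine hτ g ?_
        rintro w ⟨q, hq, rfl⟩
        exact hg q hq
      rw [Module.End.pow_apply, Function.iterate_succ_apply']
      have := hm τ hmem
      simp only [ContinuousLinearMap.coe_coe]
      rw [this, map_zero])
  obtain ⟨C2, r2, hr2, hC2, hest2⟩ := T2.iterate_second_order Φ a han hfix (m + 1)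
  obtain ⟨r3, hr3, hest3⟩ := hiter (m + 1)
  refine core_of_purity purity (X.P i) (RR X i a) hR h1 h2
    ⟨m + 1, C1 + C2, min (min r1 r2) r3, by omega, lt_min (lt_min hr1 hr2) hr3, ?_⟩
  intro q δ hδ0 hδ hq
  obtain ⟨hA, hB⟩ := hest3 q (near_mono (hδ.trans (min_le_right _ _)) hq)
  have hq' := hq
  rw [near_iff X i a _ hδ0] at hq'
  set w := chart i (X.lift (to3 q)) with hw
  have hwS : w ∈ S := ⟨to3 q, hq'.1, rfl⟩
  have hwr1 : ‖w - a‖ ≤ r1 :=
    hq'.2.trans (hδ.trans ((min_le_left _ _).trans (min_le_left _ _)))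
  have hwr2 : ‖w - a‖ ≤ r2 :=
    hq'.2.trans (hδ.trans ((min_le_left _ _).trans (min_le_right _ _)))
  have e1 := hest1 w hwS hwr1
  have e2 := hest2 w hwr2
  rw [Module.End.pow_apply] at e1
  simp only [ContinuousLinearMap.coe_coe] at e1
  rw [near_iff X i a _ (by positivity)]
  refine ⟨hA, ?_⟩
  rw [hB]
  have e3 : Φ^[m + 1] w - a = (Φ^[m + 1] w - a - (fderiv ℂ Φ a)^[m + 1] (w - a)) +
      (fderiv ℂ Φ a)^[m + 1] (w - a) := by abel
  calc ‖Φ^[m + 1] w - a‖ = ‖(Φ^[m + 1] w - a - (fderiv ℂ Φ a)^[m + 1] (w - a)) +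
      (fderiv ℂ Φ a)^[m + 1] (w - a)‖ := by rw [← e3]
    _ ≤ ‖Φ^[m + 1] w - a - (fderiv ℂ Φ a)^[m + 1] (w - a)‖ +
        ‖(fderiv ℂ Φ a)^[m + 1] (w - a)‖ := norm_add_le _ _
    _ ≤ C2 * ‖w - a‖ ^ 2 + C1 * ‖w - a‖ ^ 2 := add_le_add e2 e1
    _ = (C1 + C2) * ‖w - a‖ ^ 2 := by ring
    _ ≤ (C1 + C2) * δ ^ 2 := by
        have := pow_le_pow_left₀ (norm_nonneg (w - a)) hq'.2 2
        exact mul_le_mul_of_nonneg_left this (by linarith)

/-- the automorphism as a member of `PolyAut` -/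
noncomputable def theAut : PolyAut where
  f := T3.fmap
  finv := T3.finvmap
  left_inv := by
    intro q
    obtain ⟨q, rfl⟩ := to3_surj q
    rw [ap_fmap]
    ext i
    fin_cases i <;> simp [ap, T3.finvmap, to3, F]
  right_inv := by
    intro q
    ext i
    fin_cases i <;> simp [ap, T3.fmap, T3.finvmap]

end Helper729.SAF
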