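import Pool.Agent.Helper729.SAF.A1a
import Pool.Agent.Helper729.SAF.A1b
import Pool.Agent.Helper729.SAF.A1c
import Pool.Agent.Helper729.SAF.A2
import Pool.Agent.Helper729.SAF.A3

set_option autoImplicit false

namespace Helper729.SAF

theorem pure_iterate_field {K : Type} [Field K] (c : ℕ → K) (hc : ∀ n, c n ≠ 0)
    (P : MvPolynomial (Fin 2) K) (hP : P ≠ 0) (n : ℕ) (hn : P.degreeOf 0 ≤ n) :
    ∃ (m : ℕ) (κ : K), Pure m κ (MvPolynomial.aeval ![ySeq c n, ySeq c (n + 1)] P) := by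
  have hmem := A1a.aeval_mem_TT c n hc P hn
  rcases pure_of_mem_TT c hc n n le_rfl _ hmem with h0 | ⟨m, κ, _, h⟩
  · exact absurd (A1c.aeval_ySeq_injective c n P h0) hP
  · exact ⟨m, κ, h⟩

theorem pure_iterate_isField {K : Type} [inst : CommRing K] (hK : IsField K) (c : ℕ → K)
    (hc : ∀ n, c n ≠ 0)
    (P : MvPolynomial (Fin 2) K) (hP : P ≠ 0) (n : ℕ) (hn : P.degreeOf 0 ≤ n) :
    ∃ (m : ℕ) (κ : K), Pure m κ (MvPolynomial.aeval ![ySeq c n, ySeq c (n + 1)] P) := by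
  letI : Field K := hK.toField
  exact pure_iterate_field c hc P hP n hn

theorem hK_aux (A : Type) [CommRing A] [IsDomain A] (c : ℕ → FractionRing A)
    (hc : ∀ n, c n ≠ 0)
    (P : MvPolynomial (Fin 2) (FractionRing A)) (hP : P ≠ 0) (n : ℕ) (hn : P.degreeOf 0 ≤ n) :
    ∃ (m : ℕ) (κ : FractionRing A),
      Pure m κ (MvPolynomial.aeval ![ySeq c n, ySeq c (n + 1)] P) :=
  pure_iterate_isField (Field.toIsField (FractionRing A)) c hc P hP n hn

theorem pure_poly (c : ℕ → Polynomial ℂ) (hc : ∀ n, c n ≠ 0)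
    (P : MvPolynomial (Fin 2) (Polynomial ℂ)) (hP : P ≠ 0) (n : ℕ) (hn : P.degreeOf 0 ≤ n) :
    ∃ (m : ℕ) (κ : Polynomial ℂ),
      Pure m κ (MvPolynomial.aeval ![ySeq c n, ySeq c (n + 1)] P) :=
  A2.pure_iterate_domain (A := Polynomial ℂ) (hK_aux (Polynomial ℂ)) c hc P hP n hn

theorem purity (P : MvPolynomial (Fin 3) ℂ) (hP : P ≠ 0) (n : ℕ) (hn : P.degreeOf 0 ≤ n) :
    ∃ (m : ℕ) (κ : Polynomial ℂ), PureAn P n m κ :=
  A3.pure_analytic pure_poly P hP n hn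

end Helper729.SAF
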